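import Pool.Agent.Helper94.GA.All

/-!
# Growth from one eigenfunctional on the orbit of a short element
-/

set_option autoImplicit false

namespace Pool.Agent.Helper94.AN

open Finset Pointwise Filter Topology
open Pool.Agent.Helper11.Gap
open Pool.Agent.Helper94.GA

universe u v

theorem tw0 : TW_stmt.{0} := by
  have hGRD : GRD_stmt.{0} := Pool.Agent.Helper77.GA.GRD avg Pool.Agent.Helper86.GA.RK1 grd1
    Pool.Agent.Helper59.GA.GRD2
    Pool.Agent.Helper6.GA.GRD3 (Pool.Agent.Helper3.GA.GRD5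
      Pool.Agent.Helper90.GA.DET) Pool.Agent.Helper45.GA.GRDF
  exact Pool.Agent.Helper19.GA.TW big hGRD Pool.Agent.Helper57.GA.EMB

/-- The digits. -/
def dg {G : Type u} [Group G] (s w : G) (b : Bool) : G := if b then w * s else s

theorem dg_prod {G : Type u} [Group G] {K : Type v} [Field K] (A : Subgroup G) (hA : A.Normal)
    (f : G → K) (hf : AddOn A f) (s w : G) (hw : w ∈ A) (μ : K)
    (horb : ∀ k : ℕ, f (s ^ k * w * (s ^ k)⁻¹) = μ ^ k * f w) (n : ℕ) (δ : Fin n → Bool) :
    (List.ofFn (fun k => dg s w (δ k))).prod * (s ^ n)⁻¹ ∈ A ∧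
    ∀ j : ℕ, f (s ^ j * ((List.ofFn (fun k => dg s w (δ k))).prod * (s ^ n)⁻¹) * (s ^ j)⁻¹) =
      ∑ k, if δ k then μ ^ ((k : ℕ) + j) * f w else 0 := by
  have f1 : f 1 = 0 := by
    have h := hf 1 A.one_mem 1 A.one_mem
    rw [mul_one] at h
    simpa using h
  induction n with
  | zero =>
    simp [f1, A.one_mem]
  | succ n ih =>
    obtain ⟨h1, h2⟩ := ih (fun k => δ k.succ)
    have key : (List.ofFn (fun k => dg s w (δ k))).prod * (s ^ (n + 1))⁻¹ =
        (if δ 0 then w else 1) * (s *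
          ((List.ofFn (fun k : Fin n => dg s w (δ k.succ))).prod * (s ^ n)⁻¹) * s⁻¹) := by
      rw [List.ofFn_succ, List.prod_cons]
      have e : (s ^ (n + 1))⁻¹ = (s ^ n)⁻¹ * s⁻¹ := by rw [pow_succ', mul_inv_rev]
      rw [e]
      cases δ 0
      · simp only [dg, Bool.false_eq_true, if_false]
        group
      · simp only [dg, if_true]
        group
    rw [key]
    have hw' : (if δ 0 then w else 1) ∈ A := by
      split_ifs
      · exact hw
      · exact A.one_mem
    refine ⟨A.mul_mem hw' (hA.conj_mem _ h1 s), ?_⟩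
    intro j
    have e2 : s ^ j * ((if δ 0 then w else 1) * (s *
          ((List.ofFn (fun k : Fin n => dg s w (δ k.succ))).prod * (s ^ n)⁻¹) * s⁻¹)) *
            (s ^ j)⁻¹ =
        (s ^ j * (if δ 0 then w else 1) * (s ^ j)⁻¹) * (s ^ (j + 1) *
          ((List.ofFn (fun k : Fin n => dg s w (δ k.succ))).prod * (s ^ n)⁻¹) *
            (s ^ (j + 1))⁻¹) := by
      rw [pow_succ s j]
      group
    rw [e2, hf _ (hA.conj_mem _ hw' _) _ (hA.conj_mem _ h1 _), h2 (j + 1), Fin.sum_univ_succ]
    congr 1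
    · cases δ 0
      · simp [f1]
      · simp [horb]
    · refine Finset.sum_congr rfl fun k _ => ?_
      simp only [Fin.val_succ]
      rw [show (k : ℕ) + (j + 1) = (k : ℕ) + 1 + j by ring]

/-- Growth from one eigenfunctional. -/
theorem grow_of_orbit {G : Type u} [Group G] [DecidableEq G] (T : Finset G) (hT : Sym T)
    (A : Subgroup G) (hA : A.Normal) (f : G → AlgebraicClosure ℚ) (hf : AddOn A f) (s w : G)
    (hs : s ∈ T) (hw : w ∈ A) (l : ℕ) (hwl : w ∈ T ^ l) (μ : AlgebraicClosure ℚ)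
    (horb : ∀ k : ℕ, f (s ^ k * w * (s ^ k)⁻¹) = μ ^ k * f w) (hfw : f w ≠ 0)
    (hint : IsIntegral ℤ μ) : Grow T (l + 1) ((1 / 8) * min 1 (Real.log (mah μ))) := by
  obtain ⟨B, hB⟩ := tw0 (AlgebraicClosure ℚ) algebraic_closure_isAlgebraic Unit μ hint
    (fun _ => f w) (fun _ => hfw)
  refine ⟨B, fun n => (hB n).trans ?_⟩
  have havg : avgEnt μ (fun _ : Unit => f w) n =
      ent (fun δ : Fin n → Bool => ∑ k, if δ k then μ ^ (k : ℕ) * f w else 0) := by
    unfold avgEnt
    simp
  rw [havg]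
  have hmem : ∀ b : Bool, dg s w b ∈ T ^ (l + 1) := by
    intro b
    cases b with
    | false =>
      change s ∈ T ^ (l + 1)
      exact hT.mono (by omega : 1 ≤ l + 1) (by rw [pow_one]; exact hs)
    | true =>
      change w * s ∈ T ^ (l + 1)
      rw [pow_succ]
      exact Finset.mul_mem_mul hwl hs
  have hF : ∀ δ : Fin n → Bool, (List.ofFn (fun k => dg s w (δ k))).prod ∈ T ^ ((l + 1) * n) := by
    intro δ
    have := list_prod_mem_pow (T := T) (fun b : Bool => dg s w b) (l + 1) (List.ofFn δ)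
      (fun a _ => hmem a)
    rw [List.length_ofFn, List.map_ofFn] at this
    exact this
  have hent := Pool.Agent.Helper75.GA.ENT.{0, u, 0}
  have hstep1 : ent (fun δ : Fin n → Bool => ∑ k, if δ k then μ ^ (k : ℕ) * f w else 0) ≤
      ent (fun δ : Fin n → Bool => (List.ofFn (fun k => dg s w (δ k))).prod) := by
    refine hent.2.2 (Fin n → Bool) G _ _ _ ?_
    intro δ δ' hδ
    have e1 := (dg_prod A hA f hf s w hw μ horb n δ).2 0
    have e2 := (dg_prod A hA f hf s w hw μ horb n δ').2 0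
    have e3 : (List.ofFn (fun k => dg s w (δ k))).prod =
      (List.ofFn (fun k => dg s w (δ' k))).prod := hδ
    rw [e3, e2] at e1
    simpa using e1.symm
  have hstep2 := hent.2.1 (Fin n → Bool) G
    (fun δ : Fin n → Bool => (List.ofFn (fun k => dg s w (δ k))).prod)
  refine hstep1.trans (hstep2.trans ?_)
  have hcard : ((univ.image (fun δ : Fin n → Bool =>
      (List.ofFn (fun k => dg s w (δ k))).prod)).card : ℝ) ≤ ((T ^ ((l + 1) * n)).card : ℝ) := by
    exact_mod_cast Finset.card_le_card (by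
      intro g hg
      obtain ⟨δ, _, rfl⟩ := Finset.mem_image.1 hg
      exact hF δ)
  refine Real.log_le_log ?_ hcard
  have : 0 < (univ.image (fun δ : Fin n → Bool =>
      (List.ofFn (fun k => dg s w (δ k))).prod)).card :=
    Finset.card_pos.2 ⟨_, Finset.mem_image_of_mem _ (Finset.mem_univ (fun _ => false))⟩
  exact_mod_cast this

end Pool.Agent.Helper94.AN
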