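import Pool.Agent.Helper51.AN.Goals
import Pool.Agent.Helper37.AN.EV
import Pool.Agent.Helper94.AN.W7

/-!
# Packets EIG and GRW of the project AN
-/

set_option autoImplicit false

namespace Pool.Agent.Helper94.AN

open Pool.Agent.Helper94.GA Pool.Agent.Helper73.GA Pool.Agent.Helper51.AN Module
open Pool.Agent.Helper11.Gap (Sym)

universe u

/-- Extension of a functional to the whole group. -/
noncomputable def extF {H : Type u} [Group H] (A : Subgroup H) (f : VV A) :
    H → AlgebraicClosure ℚ := by
  classical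
  exact fun a => if h : a ∈ A then f (Additive.ofMul ⟨a, h⟩) else 0

theorem extF_apply {H : Type u} [Group H] (A : Subgroup H) (f : VV A) (a : H) (h : a ∈ A) :
    extF A f a = f (Additive.ofMul ⟨a, h⟩) := by
  unfold extF
  rw [dif_pos h]

theorem addOn_extF {H : Type u} [Group H] (A : Subgroup H) (f : VV A) : AddOn A (extF A f) := by
  intro a ha b hb
  rw [extF_apply A f _ (A.mul_mem ha hb), extF_apply A f a ha, extF_apply A f b hb, ← map_add]
  rfl

theorem GRW : GrwStmt.{u} := by
  intro H _ _ T hT A hA hab s hs l w hwl f μ hfw horb hint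
  refine grow_of_orbit T hT A hA (extF A f) (addOn_extF A f) s w hs w.2 l hwl μ ?_ ?_ hint
  · intro k
    have h1 : s ^ k * (w : H) * (s ^ k)⁻¹ ∈ A := hA.conj_mem _ w.2 _
    rw [extF_apply A f _ h1, extF_apply A f _ w.2, ← horb k]
    congr 2
  · rw [extF_apply A f _ w.2]
    exact hfw

theorem EIG : EigStmt.{u} := by
  intro H _ A hAn hab hFG C s hC hHyp w hex
  obtain ⟨f, hfC, hfw⟩ := hex
  have hfin := finV A hFG
  have hfinC : FiniteDimensional (AlgebraicClosure ℚ) C := inferInstance
  have hTinj : Function.Injective (TT A s) := by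
    intro x y hxy
    have h1 : TT A s⁻¹ * TT A s = 1 := by rw [← TT_mul', mul_inv_cancel, TT_one]
    have h2 : TT A s⁻¹ (TT A s x) = TT A s⁻¹ (TT A s y) := by rw [hxy]
    rw [← Module.End.mul_apply, ← Module.End.mul_apply, h1] at h2
    exact h2
  let T : C →ₗ[AlgebraicClosure ℚ] C := (TT A s).restrict hC
  have hT : Function.Injective T := by
    intro x y hxy
    apply Subtype.ext
    apply hTinj
    exact congrArg Subtype.val hxy
  have hTs : Function.Surjective T :=
    (LinearMap.injective_iff_surjective (K := AlgebraicClosure ℚ) (V := C) (f := T)).1 hT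
  let E : C ≃ₗ[AlgebraicClosure ℚ] C := LinearEquiv.ofBijective T ⟨hT, hTs⟩
  have hE : ∀ x : C, ((E x : C) : VV A) = TT A s x := by
    intro x
    have h2 : E x = T x := LinearEquiv.ofBijective_apply T x
    rw [h2]
    rfl
  let ev : C →ₗ[AlgebraicClosure ℚ] AlgebraicClosure ℚ :=
    { toFun := fun g => (g : VV A) (Additive.ofMul w)
      map_add' := fun _ _ => rfl
      map_smul' := fun _ _ => rfl }
  obtain ⟨μ, hEig, hμ0, g, hg, hg0⟩ :=
    Pool.Agent.Helper37.AN.exists_orbit_character (K := AlgebraicClosure ℚ) (C := C) E ev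
      (⟨f, hfC⟩ : C) hfw
  have hnat : ∀ (k : ℕ) (x : C), (((E ^ k) x : C) : VV A) = TT A (s ^ k) x := by
    intro k
    induction k with
    | zero =>
      intro x
      rw [pow_zero, pow_zero, TT_one]
      rfl
    | succ k ih =>
      intro x
      have h1 : (E ^ (k + 1)) x = (E ^ k) (E x) := by rw [pow_succ]; rfl
      rw [h1, ih, hE, pow_succ', TT_mul']
      rfl
  have hint : ∀ (k : ℤ) (x : C), (((E ^ k) x : C) : VV A) = TT A (s ^ k) x := by
    intro k x
    obtain ⟨n, rfl | rfl⟩ := k.eq_nat_or_neg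
    · rw [zpow_natCast, zpow_natCast]
      exact hnat n x
    · have h1 : (E ^ n) ((E ^ (-(n : ℤ))) x) = x := by
        rw [zpow_neg, zpow_natCast]
        change ((E ^ n) * (E ^ n)⁻¹) x = x
        rw [mul_inv_cancel]
        rfl
      have h2 : TT A (s ^ n) (((E ^ (-(n : ℤ))) x : C) : VV A) = x := by
        rw [← hnat, h1]
      conv_rhs => rw [← h2]
      have h3 : TT A (s ^ (-(n : ℤ))) * TT A (s ^ n) = 1 := by
        rw [← TT_mul', zpow_neg, zpow_natCast, mul_inv_cancel, TT_one]
      rw [← Module.End.mul_apply, h3]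
      rfl
  have horb : ∀ k : ℤ, (g : VV A) (Additive.ofMul (MulAut.conjNormal (s ^ k) w)) =
      μ ^ k * (g : VV A) (Additive.ofMul w) := by
    intro k
    rw [← TT_apply, ← hint]
    exact hg k
  have htor : ¬ Tor μ := by
    obtain ⟨x, hx⟩ := hEig.exists_hasEigenvector
    have h1 : E x = μ • x := hx.apply_eq_smul
    refine hHyp μ (x : VV A) x.2 (fun h => hx.2 (Subtype.ext h)) ?_
    rw [← hE, h1]
    rfl
  -- integrality
  obtain ⟨S, hS⟩ := hFG
  let N : Submodule ℤ (AlgebraicClosure ℚ) := Submodule.span ℤ (extF A (g : VV A) '' (S : Set H))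
  have hf := addOn_extF A (g : VV A)
  have f1 : extF A (g : VV A) 1 = 0 := by
    have h := hf 1 A.one_mem 1 A.one_mem
    rw [mul_one] at h
    simpa using h
  have hmem : ∀ a ∈ A, extF A (g : VV A) a ∈ N := by
    intro a ha
    have ha' : a ∈ Subgroup.closure (S : Set H) := hS ▸ ha
    induction ha' using Subgroup.closure_induction with
    | mem x hx => exact Submodule.subset_span ⟨x, hx, rfl⟩
    | one => rw [f1]; exact N.zero_mem
    | mul x y hx hy ihx ihy =>
      have hxA : x ∈ A := hS ▸ hx
      have hyA : y ∈ A := hS ▸ hy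
      rw [hf x hxA y hyA]
      exact N.add_mem (ihx hxA) (ihy hyA)
    | inv x hx ihx =>
      have hxA : x ∈ A := hS ▸ hx
      have h := hf x hxA x⁻¹ (A.inv_mem hxA)
      rw [mul_inv_cancel, f1] at h
      have h2 : extF A (g : VV A) x⁻¹ = - extF A (g : VV A) x := by linear_combination -h
      rw [h2]
      exact N.neg_mem (ihx hxA)
  have hNfg : N.FG := Submodule.fg_span ((S.finite_toSet).image _)
  let M : Submodule ℤ (AlgebraicClosure ℚ) :=
    Submodule.span ℤ (Set.range fun k : ℤ => μ ^ k * (g : VV A) (Additive.ofMul w))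
  have hMN : M ≤ N := by
    rw [Submodule.span_le]
    rintro _ ⟨k, rfl⟩
    change μ ^ k * (g : VV A) (Additive.ofMul w) ∈ N
    rw [← horb k]
    have h1 := hmem _ (MulAut.conjNormal (s ^ k) w).2
    rw [extF_apply A _ _ (MulAut.conjNormal (s ^ k) w).2] at h1
    exact h1
  have hMfg : M.FG := hNfg.of_le hMN
  have hMne : M ≠ ⊥ := by
    intro h
    have h1 : μ ^ (0 : ℤ) * (g : VV A) (Additive.ofMul w) ∈ M := Submodule.subset_span ⟨0, rfl⟩
    rw [h, Submodule.mem_bot, zpow_zero, one_mul] at h1
    exact hg0 h1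
  have hstab : ∀ e : ℤ, ∀ x ∈ M, μ ^ e • x ∈ M := by
    intro e x hx
    induction hx using Submodule.span_induction with
    | mem x hx =>
      obtain ⟨k, rfl⟩ := hx
      refine Submodule.subset_span ⟨e + k, ?_⟩
      simp only [smul_eq_mul]
      rw [zpow_add₀ hμ0, mul_assoc]
    | zero => rw [smul_zero]; exact M.zero_mem
    | add x y _ _ ihx ihy => rw [smul_add]; exact M.add_mem ihx ihy
    | smul z x _ ihx =>
      rw [smul_comm]
      exact M.smul_mem z ihx
  have hi1 : IsIntegral ℤ μ := by
    refine isIntegral_of_smul_mem_submodule (R := ℤ) M hMne hMfg μ ?_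
    intro x hx
    have := hstab 1 x hx
    rwa [zpow_one] at this
  have hi2 : IsIntegral ℤ μ⁻¹ := by
    refine isIntegral_of_smul_mem_submodule (R := ℤ) M hMne hMfg μ⁻¹ ?_
    intro x hx
    have := hstab (-1) x hx
    rwa [zpow_neg_one] at this
  refine ⟨μ, hμ0, htor, hi1, hi2, (g : VV A), hg0, fun k => ?_⟩
  have := horb k
  rw [zpow_natCast, zpow_natCast] at this
  exact this

end Pool.Agent.Helper94.AN
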