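import Pool.Agent.Helper94.GA.Goals

/-!
# Abelian-by-nilpotent groups: the statement needed for the assembly
-/

set_option autoImplicit false

namespace Pool.Agent.Helper94.AN

open Pointwise Filter Topology
open Pool.Agent.Helper11.Gap (Sym)
open Pool.Agent.Helper94.GA

universe v

/-- Growth of abelian-by-nilpotent groups which are not virtually nilpotent. -/
def AN_stmt : Prop :=
  ∀ (G : Type v) [Group G] [DecidableEq G] (T : Finset G), Sym T →
    Subgroup.closure (T : Set G) = ⊤ → ∀ A : Subgroup G, A.Normal →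
    (∀ a ∈ A, ∀ b ∈ A, a * b = b * a) → A.FG → ∀ c : ℕ,
    (⊤ : Subgroup G).lowerCentralSeries c ≤ A → ¬ VN G →
    ∃ μ : AlgebraicClosure ℚ, μ ≠ 0 ∧ IsIntegral ℤ μ ∧ IsIntegral ℤ μ⁻¹ ∧
      (∀ k : ℕ, 0 < k → μ ^ k ≠ 1) ∧
      Grow T (3 * 2 ^ c - 1) ((1 / 8) * min 1 (Real.log (mah μ)))

end Pool.Agent.Helper94.AN
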