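import Pool.Agent.Helper94.AN.FIW
import Pool.Agent.Helper94.AN.Stmt
import Pool.Agent.Helper94.GA.FI2
import Pool.Agent.Helper49.RO.FI
import Pool.Agent.Helper29.AN.HallGen

/-!
# Abelian-by-nilpotent groups: assembly
-/

set_option autoImplicit false

namespace Pool.Agent.Helper94.AN

open Pointwise Filter Topology
open Pool.Agent.Helper11.Gap (Sym)
open Pool.Agent.Helper94.GA
open scoped commutatorElement

universe u v w

theorem nil_of_lcs_le {K : Type*} [Group K] (N : Subgroup K) [N.Normal] (c : ℕ)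
    (h : (⊤ : Subgroup K).lowerCentralSeries c ≤ N) : Group.IsNilpotent (K ⧸ N) := by
  rw [Subgroup.nilpotent_iff_lowerCentralSeries]
  refine ⟨c, ?_⟩
  have h1 : ((⊤ : Subgroup K).lowerCentralSeries c).map (QuotientGroup.mk' N) =
      (⊤ : Subgroup (K ⧸ N)).lowerCentralSeries c := by
    rw [Subgroup.map_lowerCentralSeries, Subgroup.map_top_of_surjective _
      (QuotientGroup.mk'_surjective N)]
  rw [← h1, Subgroup.map_eq_bot_iff, QuotientGroup.ker_mk']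
  exact h

theorem lcs_map_le {K L : Type*} [Group K] [Group L] (g : K →* L) (hg : Function.Surjective g)
    (N : Subgroup K) (c : ℕ) (h : (⊤ : Subgroup K).lowerCentralSeries c ≤ N) :
    (⊤ : Subgroup L).lowerCentralSeries c ≤ N.map g := by
  rw [← Subgroup.map_top_of_surjective g hg, ← Subgroup.map_lowerCentralSeries]
  exact Subgroup.map_mono h

/-- The case `f = 1`, `G` itself abelian by nilpotent. -/
theorem an_one (hAN : AN_stmt.{v}) {Γ : Type u} [Group Γ] [DecidableEq Γ] (S : Finset Γ)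
    (hne : S.Nonempty) (hsymm : ∀ s ∈ S, s⁻¹ ∈ S) {G : Type v} [Group G]
    (φ : Subgroup.closure (S : Set Γ) →* G) (hφ : Function.Surjective φ)
    (A : Subgroup G) [hAn : A.Normal] (hab : ∀ a ∈ A, ∀ b ∈ A, a * b = b * a) (c : ℕ)
    (hc : (⊤ : Subgroup G).lowerCentralSeries c ≤ A) (hv : ¬ VN G) :
    ∃ ρ : ℝ, Tendsto (fun n : ℕ => Real.log ((S ^ n).card : ℝ) / n) atTop (𝓝 ρ) ∧
      ∃ lam : ℂ, lam ≠ 0 ∧ IsIntegral ℤ lam ∧ IsIntegral ℤ lam⁻¹ ∧
        (∀ k : ℕ, 0 < k → lam ^ k ≠ 1) ∧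
        (1 / (8 * (3 * 2 ^ c - 1))) *
          min 1 (Real.log ((minpoly ℤ lam).map (Int.castRingHom ℂ)).mahlerMeasure) ≤ ρ := by
  classical
  have hpow : (1 : ℝ) ≤ 2 ^ c := one_le_pow₀ (by norm_num)
  by_cases hA : A.FG
  swap
  · have hN : (A.subgroupOf ⊤).Normal := inferInstance
    have hnil : Group.IsNilpotent ((⊤ : Subgroup G) ⧸ A.subgroupOf ⊤) := by
      apply nil_of_lcs_le _ c
      have h1 := lcs_map_le (Subgroup.topEquiv (G := G)).symm.toMonoidHom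
        (Subgroup.topEquiv (G := G)).symm.surjective A c hc
      refine h1.trans ?_
      rintro _ ⟨a, ha, rfl⟩
      exact ha
    have hfg : ¬ (A.subgroupOf ⊤).FG := by
      intro h
      apply hA
      have h2 : (A.subgroupOf ⊤).map (⊤ : Subgroup G).subtype = A := by
        rw [Subgroup.subgroupOf_map_subtype, inf_top_eq]
      rw [← h2]
      obtain ⟨s, hs⟩ := h
      refine ⟨s.image (⊤ : Subgroup G).subtype, ?_⟩
      rw [Finset.coe_image, ← MonoidHom.map_closure, hs]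
    obtain ⟨ρ, hρ, hle⟩ := Pool.Agent.Helper49.RO.main_fi S hne φ hφ (⊤ : Subgroup G)
      (A.subgroupOf ⊤) hnil hfg
    obtain ⟨lam, h0, h1, h2, h4, h5⟩ := Pool.Agent.Helper69.GA.GOLD
    refine ⟨ρ, hρ, lam, h0, h1, h2, h4, le_trans ?_ hle⟩
    have hm0 : 0 ≤ min 1 (Real.log (mah lam)) := min_nonneg' h1
    have hm : min 1 (Real.log (mah lam)) ≤ 1 / 2 := (min_le_right _ _).trans h5
    have hl : (0.6931471803 : ℝ) < Real.log 2 := Real.log_two_gt_d9
    have h8 : (1 / (8 * (3 * 2 ^ c - 1)) : ℝ) ≤ 1 / 16 := by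
      apply one_div_le_one_div_of_le (by norm_num)
      nlinarith
    have h9 : (1 / (8 * (3 * 2 ^ c - 1)) : ℝ) * min 1 (Real.log (mah lam)) ≤ (1 / 16) * (1 / 2) :=
      mul_le_mul h8 hm hm0 (by norm_num)
    refine h9.trans ?_
    rw [Subgroup.index_top]
    norm_num at hl ⊢
    linarith
  obtain ⟨ρ, hρ⟩ := Pool.Agent.Helper11.Gap.exists_rate S hne
  refine ⟨ρ, hρ, ?_⟩
  let C := Subgroup.closure (S : Set Γ)
  set T₀ : Finset C := Finset.subtype (fun x => x ∈ C) (insert 1 S) with hT₀def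
  have hT₀mem : ∀ x : C, x ∈ T₀ ↔ (x : Γ) = 1 ∨ (x : Γ) ∈ S := by
    intro x
    rw [hT₀def, Finset.mem_subtype, Finset.mem_insert]
  have hT₀sym : Sym T₀ := by
    constructor
    · rw [hT₀mem]; exact Or.inl rfl
    · intro x hx
      rw [hT₀mem] at hx ⊢
      rcases hx with hx | hx
      · left; rw [Subgroup.coe_inv, hx, inv_one]
      · right; exact hsymm _ hx
  have hgen₀ : Subgroup.closure (T₀ : Set C) = ⊤ := by
    rw [eq_top_iff, ← Subgroup.closure_closure_coe_preimage (k := (S : Set Γ))]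
    apply Subgroup.closure_mono
    intro x hx
    rw [Finset.mem_coe, hT₀mem]
    exact Or.inr hx
  have hTs : Sym (T₀.image φ) := by
    constructor
    · exact Finset.mem_image.2 ⟨1, hT₀sym.one, map_one _⟩
    · intro y hy
      obtain ⟨x, hx, rfl⟩ := Finset.mem_image.1 hy
      exact Finset.mem_image.2 ⟨x⁻¹, hT₀sym.inv x hx, map_inv _ _⟩
  have hTg : Subgroup.closure ((T₀.image φ : Finset G) : Set G) = ⊤ := by
    rw [Finset.coe_image, ← MonoidHom.map_closure, hgen₀, Subgroup.map_top_of_surjective φ hφ]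
  have hTm : ∀ y ∈ T₀.image φ, ∃ z : C, ((z : Γ) = 1 ∨ (z : Γ) ∈ S) ∧ φ z = y := by
    intro y hy
    obtain ⟨x, hx, rfl⟩ := Finset.mem_image.1 hy
    exact ⟨x, (hT₀mem x).1 hx, rfl⟩
  obtain ⟨μ, hμ0, hμ1, hμ2, hμ3, hgrow⟩ := hAN G (T₀.image φ) hTs hTg A hAn hab hA c hc hv
  have hpowN : 1 ≤ 2 ^ c := Nat.one_le_two_pow
  have hm0 : 0 ≤ min 1 (Real.log (mah μ)) := min_nonneg' hμ1
  have hrate := Pool.Agent.Helper25.GA.RATE Γ S hne hsymm G φ (T₀.image φ) hTm (3 * 2 ^ c - 1)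
    ((1 / 8) * min 1 (Real.log (mah μ))) ρ (by omega) (by positivity) hgrow hρ
  obtain ⟨lam, l0, l1, l2, l3, l4⟩ := Pool.Agent.Helper85.GA.CAST (AlgebraicClosure ℚ)
    algebraic_closure_isAlgebraic μ hμ0 hμ1 hμ2 hμ3
  refine ⟨lam, l0, l1, l2, l3, ?_⟩
  change (1 / (8 * (3 * 2 ^ c - 1)) : ℝ) * min 1 (Real.log (mah lam)) ≤ ρ
  rw [l4]
  refine le_trans (le_of_eq ?_) hrate
  have hcast : (((3 * 2 ^ c - 1 : ℕ)) : ℝ) = 3 * 2 ^ c - 1 := by
    rw [Nat.cast_sub (by omega)]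
    push_cast
    ring
  rw [hcast]
  have h3 : (0 : ℝ) < 3 * 2 ^ c - 1 := by linarith
  field_simp

/-- Index `f`, `P` with a normal subgroup `N`. -/
theorem an_fi (hAN : AN_stmt.{w}) {Γ : Type u} [Group Γ] [DecidableEq Γ] (S : Finset Γ)
    (hne : S.Nonempty) (hsymm : ∀ s ∈ S, s⁻¹ ∈ S) {Q : Type v} [Group Q]
    (φ : Subgroup.closure (S : Set Γ) →* Q) (hφ : Function.Surjective φ) (H : Subgroup Q) (f : ℕ)
    (hf : 0 < f) (hH : H.index = f) {P : Type w} [Group P] (θ : H →* P)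
    (hθ : Function.Surjective θ) (N : Subgroup P) [hN : N.Normal] (c : ℕ)
    (hc : (⊤ : Subgroup P).lowerCentralSeries c ≤ N)
    (hv : ¬ ∃ M : Subgroup (P ⧸ ⁅N, N⁆), M.FiniteIndex ∧ Group.IsNilpotent M) :
    ∃ ρ : ℝ, Tendsto (fun n : ℕ => Real.log ((S ^ n).card : ℝ) / n) atTop (𝓝 ρ) ∧
      ∃ lam : ℂ, lam ≠ 0 ∧ IsIntegral ℤ lam ∧ IsIntegral ℤ lam⁻¹ ∧
        (∀ k : ℕ, 0 < k → lam ^ k ≠ 1) ∧
        (1 / ((8 * (3 * 2 ^ c - 1)) * (2 * f - 1))) *
          min 1 (Real.log ((minpoly ℤ lam).map (Int.castRingHom ℂ)).mahlerMeasure) ≤ ρ := by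
  have hpow : (1 : ℝ) ≤ 2 ^ c := one_le_pow₀ (by norm_num)
  refine fi_wrap S hne hsymm φ hφ H f hf hH ((QuotientGroup.mk' ⁅N, N⁆).comp θ)
    ((QuotientGroup.mk'_surjective _).comp hθ) (8 * (3 * 2 ^ c - 1)) (by linarith) ?_
  intro Γ' _ _ S' hne' hs' ψ hψ
  have hAn : (N.map (QuotientGroup.mk' ⁅N, N⁆)).Normal :=
    hN.map _ (QuotientGroup.mk'_surjective _)
  refine an_one hAN S' hne' hs' ψ hψ (N.map (QuotientGroup.mk' ⁅N, N⁆)) ?_ c
    (lcs_map_le _ (QuotientGroup.mk'_surjective _) N c hc) hv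
  rintro _ ⟨a, ha, rfl⟩ _ ⟨b, hb, rfl⟩
  rw [← map_mul, ← map_mul]
  have h1 : (a * b)⁻¹ * (b * a) ∈ ⁅N, N⁆ := by
    have h2 : (a * b)⁻¹ * (b * a) = ⁅b⁻¹, a⁻¹⁆ := by
      rw [commutatorElement_def]; group
    rw [h2]
    exact Subgroup.commutator_mem_commutator (N.inv_mem hb) (N.inv_mem ha)
  exact QuotientGroup.eq.2 h1

end Pool.Agent.Helper94.AN
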