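import Pool.Agent.Helper94.AN.ASM

/-!
# Abelian-by-nilpotent groups: the final statement
-/

set_option autoImplicit false

namespace Pool.Agent.Helper94.AN

open Pointwise Filter Topology
open Pool.Agent.Helper94.GA
open scoped commutatorElement

universe u v w

theorem final_five (hAN : AN_stmt.{w}) {Γ : Type u} [Group Γ] [DecidableEq Γ] (S : Finset Γ)
    (hsymm : ∀ s ∈ S, s⁻¹ ∈ S) {Q : Type v} [Group Q]
    (φ : Subgroup.closure (S : Set Γ) →* Q) (hφ : Function.Surjective φ) (H : Subgroup Q) (f : ℕ)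
    (hf : 0 < f) (hH : H.index = f) {P : Type w} [Group P] (θ : H →* P)
    (hθ : Function.Surjective θ) (C : ℝ)
    (h : (∃ N : Subgroup P, ∃ _ : N.Normal, ∃ c : ℕ, (⊤ : Subgroup P).lowerCentralSeries c ≤ N ∧
        C = 8 * (3 * 2 ^ c - 1) ∧
        ((¬ ∃ M : Subgroup (P ⧸ ⁅N, N⁆), M.FiniteIndex ∧ Group.IsNilpotent M) ∨
          (Group.IsNilpotent N ∧ ¬ ∃ M : Subgroup P, M.FiniteIndex ∧ Group.IsNilpotent M))) ∨
      (C = 352 ∧ ((¬ ∃ M : Subgroup (commutator P ⧸ derivedSeries (commutator P) 2),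
        M.FiniteIndex ∧ Group.IsNilpotent M) ∨
      (Group.IsNilpotent (derivedSeries P 2) ∧
        ¬ ∃ M : Subgroup (commutator P), M.FiniteIndex ∧ Group.IsNilpotent M)))) :
    ∃ ρ : ℝ, Tendsto (fun n : ℕ => Real.log ((S ^ n).card : ℝ) / n) atTop (𝓝 ρ) ∧
      ∃ lam : ℂ, lam ≠ 0 ∧ IsIntegral ℤ lam ∧ IsIntegral ℤ lam⁻¹ ∧
        (∀ k : ℕ, 0 < k → lam ^ k ≠ 1) ∧
        (1 / (C * (2 * f - 1))) *
          min 1 (Real.log ((minpoly ℤ lam).map (Int.castRingHom ℂ)).mahlerMeasure) ≤ ρ := by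
  rcases h with ⟨N, hN, c, hc, rfl, h⟩ | ⟨rfl, h⟩
  · have hv : ¬ ∃ M : Subgroup (P ⧸ ⁅N, N⁆), M.FiniteIndex ∧ Group.IsNilpotent M := by
      rcases h with h | ⟨h1, h2⟩
      · exact h
      · exact Pool.Agent.Helper29.AN.not_vn_quot_gen N h1 (nil_of_lcs_le N c hc) h2
    have hne : S.Nonempty := by
      by_contra hemp
      rw [Finset.not_nonempty_iff_eq_empty] at hemp
      have hQ : ∀ x : Q, x = 1 := by
        intro x
        have hbot : Subgroup.closure (S : Set Γ) = ⊥ := by rw [hemp]; simp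
        obtain ⟨y, hy⟩ := hφ x
        have hy1 : y = 1 := Subtype.ext (Subgroup.mem_bot.1 (hbot.le y.2))
        rw [← hy, hy1, map_one]
      apply hv
      have : Subsingleton (P ⧸ ⁅N, N⁆) := by
        constructor
        intro x y
        obtain ⟨x, rfl⟩ := QuotientGroup.mk_surjective x
        obtain ⟨y, rfl⟩ := QuotientGroup.mk_surjective y
        obtain ⟨x, rfl⟩ := hθ x
        obtain ⟨y, rfl⟩ := hθ y
        have : x = y := Subtype.ext ((hQ _).trans (hQ _).symm)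
        rw [this]
      exact VN_of_subsingleton _
    exact an_fi hAN S hne hsymm φ hφ H f hf hH θ hθ N c hc hv
  · refine Pool.Agent.Helper94.GA.FI2.final_four S hsymm φ hφ H f hf hH θ hθ (Or.inr ?_)
    rcases h with h | h
    · exact Or.inl h
    · exact Or.inr (Or.inl h)

end Pool.Agent.Helper94.AN
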