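import Pool.Agent.Helper94.AN.Mats

/-!
# Nine largest multiplicities free (MP_d3128a_ag): creating slack
-/

set_option autoImplicit false

namespace Pool.Agent.Helper94.AN

open Finset Pool.Agent.Lead.Sh

/-- the modified coordinates -/
def cm (k i e η : ℕ) (c : ℕ → ℕ) (j : ℕ) : ℕ :=
  if j = 0 then c 0 + η else if j = i then c i - k * η else if j = 9 then c 9 - e * η else c j

lemma cm_spec {k i e η : ℕ} {c : ℕ → ℕ} (hi1 : 1 ≤ i) (hi8 : i ≤ 8) (h1 : k * η ≤ c i)
    (h2 : e * η ≤ c 9) : ∀ j < 10, c j + η * un 0 j = cm k i e η c j + η * wv k i e j := by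
  intro j _
  unfold cm wv un
  have e1 : η * k = k * η := mul_comm _ _
  have e2 : η * e = e * η := mul_comm _ _
  by_cases hj0 : j = 0
  · subst hj0
    rw [if_pos rfl, if_pos rfl, if_neg (by omega), if_neg (by omega)]
    simp
  · rw [if_neg hj0, if_neg hj0]
    by_cases hji : j = i
    · subst hji
      rw [if_pos rfl, if_pos rfl, if_neg (by omega)]
      rw [mul_zero, mul_one, mul_zero, add_zero, add_zero, e1]
      omega
    · rw [if_neg hji, if_neg hji]
      by_cases hj9 : j = 9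
      · subst hj9
        rw [if_pos rfl, if_pos rfl]
        rw [mul_zero, mul_zero, mul_one, zero_add, e2]
        omega
      · rw [if_neg hj9, if_neg hj9]
        simp

/-- the bounds for the change -/
lemma add_bd {u w : ℕ → ℕ}
    (hG : val G0 u 0 = 1 ∧ 1 ≤ val G0 w 0 ∧ val G0 w 0 ≤ 18 ∧
      ∀ r < 9, val G0 u (r + 1) = 0 ∧ val G0 w (r + 1) ≤ 6)
    {c c' : ℕ → ℕ} {η : ℕ} (h : ∀ j < 10, c j + η * u j = c' j + η * w j) :
    (val G0 c' 0 ≤ val G0 c 0 ∧ val G0 c 0 ≤ val G0 c' 0 + 17 * η) ∧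
      ∀ r < 9, val G0 c' (r + 1) ≤ val G0 c (r + 1) ∧ val G0 c (r + 1) ≤ val G0 c' (r + 1) + 6 * η := by
  have key : ∀ r, val G0 c r + η * val G0 u r = val G0 c' r + η * val G0 w r := by
    intro r
    unfold val
    rw [mul_sum, mul_sum, ← sum_add_distrib, ← sum_add_distrib]
    apply sum_congr rfl
    intro j hj
    have h1 := h j (mem_range.1 hj)
    calc ent G0 r j * c j + η * (ent G0 r j * u j) = ent G0 r j * (c j + η * u j) := by ring
      _ = ent G0 r j * (c' j + η * w j) := by rw [h1]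
      _ = _ := by ring
  obtain ⟨h1, h2, h3, h4⟩ := hG
  constructor
  · have k0 := key 0
    rw [h1, mul_one] at k0
    have h5 := Nat.mul_le_mul_left η h2
    have h6 := Nat.mul_le_mul_left η h3
    omega
  · intro r hr
    have k1 := key (r + 1)
    rw [(h4 r hr).1, mul_zero, add_zero] at k1
    have h6 := Nat.mul_le_mul_left η (h4 r hr).2
    omega

lemma add4 {c c' : ℕ → ℕ} {η : ℕ} {μ : ℕ → ℕ} {A : Finset ℕ}
    (h : ∀ j < 10, c' j + η * (un 0) j = c j + η * (wv 1 4 0) j) (hI : IndG G0 c μ A) :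
    IndG G0 c' μ A := by
  set c2 : ℕ → ℕ := fun j => if j = 0 then c' 0 else if j = 2 then c' 2 + η else c j with hc2
  have h1 : IndG G0 c2 μ A := by
    apply add2 (c := c) (η := η) _ hI
    intro j hj
    have hh := h j hj
    rw [hc2]
    simp only
    unfold wv un at hh ⊢
    by_cases hj0 : j = 0
    · subst hj0
      simp at hh ⊢
      exact hh
    · rw [if_neg hj0]
      rw [if_neg hj0] at hh ⊢
      by_cases hj2 : j = 2
      · subst hj2
        simp at hh ⊢
        omega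
      · rw [if_neg hj2, if_neg hj2]
        simp
  apply add4b (c := c2) (η := η) _ h1
  intro j hj
  have hh := h j hj
  rw [hc2]
  simp only
  unfold wv un at hh
  unfold un
  by_cases hj0 : j = 0
  · subst hj0
    simp
  · rw [if_neg hj0]
    rw [if_neg hj0] at hh
    by_cases hj2 : j = 2
    · subst hj2
      simp
    · rw [if_neg hj2, if_neg hj2]
      by_cases hj4 : j = 4
      · subst hj4
        simp at hh ⊢
        omega
      · rw [if_neg hj4]
        rw [if_neg hj4] at hh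
        simp at hh ⊢
        exact hh

/-- a move which creates slack -/
structure Mv (c c' : ℕ → ℕ) (η : ℕ) : Prop where
  sl : c' 0 = c 0 + η
  deg1 : val G0 c' 0 ≤ val G0 c 0
  deg2 : val G0 c 0 ≤ val G0 c' 0 + 17 * η
  mul1 : ∀ r < 9, val G0 c' (r + 1) ≤ val G0 c (r + 1)
  mul2 : ∀ r < 9, val G0 c (r + 1) ≤ val G0 c' (r + 1) + 6 * η
  ind : ∀ (μ : ℕ → ℕ) (A : Finset ℕ), IndG G0 c' μ A → IndG G0 c μ A

lemma mv_of {k i e η : ℕ} {c : ℕ → ℕ} (hi1 : 1 ≤ i) (hi8 : i ≤ 8) (h1 : k * η ≤ c i)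
    (h2 : e * η ≤ c 9)
    (hG : val G0 (un 0) 0 = 1 ∧ 1 ≤ val G0 (wv k i e) 0 ∧ val G0 (wv k i e) 0 ≤ 18 ∧
      ∀ r < 9, val G0 (un 0) (r + 1) = 0 ∧ val G0 (wv k i e) (r + 1) ≤ 6)
    (hadd : ∀ (μ : ℕ → ℕ) (A : Finset ℕ) (c1 c2 : ℕ → ℕ),
      (∀ j < 10, c2 j + η * (un 0) j = c1 j + η * (wv k i e) j) → IndG G0 c1 μ A → IndG G0 c2 μ A) :
    Mv c (cm k i e η c) η := by
  have hs := cm_spec hi1 hi8 h1 h2
  obtain ⟨⟨b1, b2⟩, b3⟩ := add_bd hG hs
  refine ⟨?_, b1, b2, fun r hr => (b3 r hr).1, fun r hr => (b3 r hr).2, ?_⟩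
  · unfold cm
    rw [if_pos rfl]
  · intro μ A hI
    exact hadd μ A _ _ hs hI

/-- one of the moves is possible -/
theorem exists_move {c : ℕ → ℕ} {η M : ℕ} (hM : M ≤ c 9)
    (h : (∃ i, 2 ≤ i ∧ i ≤ 8 ∧ 6 * η ≤ c i) ∨ (6 * η ≤ c 1 ∧ M + η ≤ c 9)) :
    ∃ c', Mv c c' η ∧ M ≤ c' 9 := by
  rcases h with ⟨i, hi2, hi8, hi⟩ | ⟨h1, h9⟩
  · have h9 : ∀ k, cm k i 0 η c 9 = c 9 := by
      intro k
      unfold cm
      rw [if_neg (by norm_num), if_neg (by omega), if_pos rfl]
      simp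
    have hlt : i = 2 ∨ i = 3 ∨ i = 4 ∨ i = 5 ∨ i = 6 ∨ i = 7 ∨ i = 8 := by omega
    rcases hlt with rfl | rfl | rfl | rfl | rfl | rfl | rfl
    · exact ⟨_, mv_of (k := 1) (i := 2) (e := 0) (by norm_num) (by norm_num) (by omega) (by omega)
        (by decide) (fun μ A c1 c2 => add2), by rw [h9]; exact hM⟩
    · exact ⟨_, mv_of (k := 1) (i := 3) (e := 0) (by norm_num) (by norm_num) (by omega) (by omega)
        (by decide) (fun μ A c1 c2 => add3), by rw [h9]; exact hM⟩
    · exact ⟨_, mv_of (k := 1) (i := 4) (e := 0) (by norm_num) (by norm_num) (by omega) (by omega)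
        (by decide) (fun μ A c1 c2 => add4), by rw [h9]; exact hM⟩
    · exact ⟨_, mv_of (k := 1) (i := 5) (e := 0) (by norm_num) (by norm_num) (by omega) (by omega)
        (by decide) (fun μ A c1 c2 => add5), by rw [h9]; exact hM⟩
    · exact ⟨_, mv_of (k := 2) (i := 6) (e := 0) (by norm_num) (by norm_num) (by omega) (by omega)
        (by decide) (fun μ A c1 c2 => add6), by rw [h9]; exact hM⟩
    · exact ⟨_, mv_of (k := 3) (i := 7) (e := 0) (by norm_num) (by norm_num) (by omega) (by omega)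
        (by decide) (fun μ A c1 c2 => add7), by rw [h9]; exact hM⟩
    · exact ⟨_, mv_of (k := 6) (i := 8) (e := 0) (by norm_num) (by norm_num) (by omega) (by omega)
        (by decide) (fun μ A c1 c2 => add8), by rw [h9]; exact hM⟩
  · refine ⟨_, mv_of (k := 2) (i := 1) (e := 1) (by norm_num) (by norm_num) (by omega) (by omega)
      (by decide) (fun μ A c1 c2 => add1), ?_⟩
    unfold cm
    rw [if_neg (by norm_num), if_neg (by norm_num), if_pos rfl]
    omega

end Pool.Agent.Helper94.AN
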