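import Pool.Agent.Helper94.AN.ASM2
import Pool.Agent.Helper94.AN.EIG
import Pool.Agent.Helper51.AN.Main
import Pool.Agent.Helper49.AN.HYP
import Pool.Agent.Helper49.AN.UNP
import Pool.Agent.Helper11.AN.VNA
import Pool.Agent.Helper37.AN.WIT
import Pool.Agent.Helper45.AN.FTN

/-!
# All packets of the project AN
-/

set_option autoImplicit false

namespace Pool.Agent.Helper94.AN

universe v

theorem an_stmt : AN_stmt.{v} :=
  Pool.Agent.Helper51.AN.an Pool.Agent.Helper49.AN.hyp
    (Pool.Agent.Helper11.AN.vna (Pool.Agent.Helper49.AN.unp Pool.Agent.Helper45.AN.ftn))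
    Pool.Agent.Helper37.AN.wit EIG GRW

end Pool.Agent.Helper94.AN
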