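import Pool.Agent.Helper55.UW.RL
import Pool.Agent.Helper94.AM.UWI
import Pool.Agent.Helper94.AM.Main

/-!
# Nine largest multiplicities free, all multiplicities (MP_d3128a_ag): the base theorem
-/

set_option autoImplicit false

namespace Pool.Agent.Helper94.AN

open Finset Pool.Agent.Lead.Sh
open Pool.Agent.Helper94.AM
open Helper18.Cusp (Concl)

/-- good points from the conclusion of the main theorems -/
theorem rank_of_concl {s : ℕ} {m : ℕ → ℕ} {d : ℕ} (h : Concl s m d) :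
    ∃ P : Fin s → Fin 3 → ℂ, (∀ i, P i 2 ≠ 0) ∧
      (Module.finrank ℂ ↥(Vsp s m d P) : ℤ) =
        max (((d + 2).choose 2 : ℤ) - ∑ i : Fin s, ((m (i : ℕ) + 1).choose 2 : ℤ)) 0 ∧
      Module.finrank ℂ ↥(Vsp s m d P) + (Mx d (rows m (range s)) (aff P)).rank =
        Nat.choose (d + 2) 2 := by
  obtain ⟨G, hG, h2⟩ := h
  have hne : G * ∏ i : Fin s, MvPolynomial.X (i, (2 : Fin 3)) ≠ 0 := by
    apply mul_ne_zero hG
    rw [prod_ne_zero_iff]
    intro i _; exact MvPolynomial.X_ne_zero _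
  obtain ⟨x, hx⟩ : ∃ x : Fin s × Fin 3 → ℂ,
      MvPolynomial.eval x (G * ∏ i : Fin s, MvPolynomial.X (i, (2 : Fin 3))) ≠ 0 := by
    by_contra hcon
    push Not at hcon
    exact hne (MvPolynomial.funext (fun x => by rw [hcon x, map_zero]))
  rw [map_mul, map_prod] at hx
  set P : Fin s → Fin 3 → ℂ := fun i j => x (i, j) with hP
  have hz : ∀ i, P i 2 ≠ 0 := by
    intro i
    have := (prod_ne_zero_iff.1 (right_ne_zero_of_mul hx)) i (mem_univ i)
    rwa [MvPolynomial.eval_X] at this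
  have h3 := h2 P (fun i h0 => hz i (by rw [h0]; rfl)) (left_ne_zero_of_mul hx)
  exact ⟨P, hz, h3, finrank_Vsp hz⟩

theorem ind_of_concl {s : ℕ} {m : ℕ → ℕ} {d : ℕ} (h : Concl s m d)
    (hle : ∑ k ∈ range s, (m k + 1).choose 2 ≤ (d + 2).choose 2) :
    Ind (triD 0 d) (rows m (range s)) := by
  obtain ⟨P, hz, h3, h4⟩ := rank_of_concl h
  have h5 : (∑ i : Fin s, ((m (i : ℕ) + 1).choose 2 : ℤ)) =
      ((∑ k ∈ range s, (m k + 1).choose 2 : ℕ) : ℤ) := by
    rw [Nat.cast_sum, Fin.sum_univ_eq_sum_range (fun i => (((m i + 1).choose 2 : ℕ) : ℤ)) s]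
  rw [h5] at h3
  have h6 : ((∑ k ∈ range s, (m k + 1).choose 2 : ℕ) : ℤ) ≤ ((d + 2).choose 2 : ℤ) := by
    exact_mod_cast hle
  rw [max_eq_left (by linarith)] at h3
  refine ⟨aff P, ind_of_rank ?_⟩
  rw [card_rows]
  omega

theorem inj_of_concl {s : ℕ} {m : ℕ → ℕ} {d : ℕ} (h : Concl s m d)
    (hle : (d + 2).choose 2 ≤ ∑ k ∈ range s, (m k + 1).choose 2) :
    Inj (triD 0 d) (rows m (range s)) := by
  obtain ⟨P, hz, h3, h4⟩ := rank_of_concl h
  have h5 : (∑ i : Fin s, ((m (i : ℕ) + 1).choose 2 : ℤ)) =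
      ((∑ k ∈ range s, (m k + 1).choose 2 : ℕ) : ℤ) := by
    rw [Nat.cast_sum, Fin.sum_univ_eq_sum_range (fun i => (((m i + 1).choose 2 : ℕ) : ℤ)) s]
  rw [h5] at h3
  have h6 : ((d + 2).choose 2 : ℤ) ≤ ((∑ k ∈ range s, (m k + 1).choose 2 : ℕ) : ℤ) := by
    exact_mod_cast hle
  rw [max_eq_right (by linarith)] at h3
  have h7 : Module.finrank ℂ ↥(Vsp s m d P) = 0 := by exact_mod_cast h3
  rw [h7, zero_add] at h4
  -- the kernel is trivial
  set Mt := Mx d (rows m (range s)) (aff P) with hMt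
  have h8 := LinearMap.finrank_range_add_finrank_ker Mt.mulVecLin
  rw [Module.finrank_fintype_fun_eq_card, Fintype.card_coe, card_triD] at h8
  have h9 : Module.finrank ℂ ↥(LinearMap.range Mt.mulVecLin) = (d + 2).choose 2 := h4
  have h10 : Module.finrank ℂ ↥(LinearMap.ker Mt.mulVecLin) = 0 := by omega
  have h11 : LinearMap.ker Mt.mulVecLin = ⊥ := Submodule.finrank_eq_zero.mp h10
  refine ⟨aff P, ?_⟩
  intro c hc p hp
  have h12 : (fun p : ↥(triD 0 d) => c p) ∈ LinearMap.ker Mt.mulVecLin := by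
    rw [LinearMap.mem_ker, Matrix.mulVecLin_apply]
    funext r
    rw [Matrix.mulVec, dotProduct, Pi.zero_apply]
    refine Eq.trans ?_ (hc r.1 r.2)
    rw [← sum_coe_sort (triD 0 d)]
    apply sum_congr rfl
    intro q _
    rw [mul_comm]; rfl
  rw [h11, Submodule.mem_bot] at h12
  exact congrFun h12 ⟨p, hp⟩

/-- twice the room left by the nine largest multiplicities -/
noncomputable def V2 (m : ℕ → ℕ) (d : ℕ) : ℝ :=
  ((d : ℝ) + 1) * (d + 2) - ∑ i ∈ range 9, (m i : ℝ) * (m i + 1)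

/-- the nine largest multiplicities -/
structure Nine (m : ℕ → ℕ) (M d : ℕ) : Prop where
  anti : ∀ i j, i ≤ j → j < 9 → m j ≤ m i
  big : M ≤ m 8
  red : m 0 + m 1 + m 2 ≤ d

/-- the base theorem -/
def UNB (C : ℝ) : Prop := ∀ (A : Finset ℕ) (m : ℕ → ℕ) (M d : ℕ),
  (∀ k ∈ A, 9 ≤ k ∧ 1 ≤ m k ∧ m k ≤ M) → Nine m M d → 1 ≤ M →
  (m 0 : ℝ) + C * M * (1 + Real.log M) ^ 3 ≤ d →
  (C * M ^ 2 * (1 + Real.log M) ^ 6 ≤ V2 m d → (UU m A : ℝ) ≤ V2 m d →
    Ind (triD 0 d) (rows m (range 9 ∪ A))) ∧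
  ((C * M ^ 2 * (1 + Real.log M) ^ 6 ≤ V2 m d ∨ C * M ^ 2 * (1 + Real.log M) ^ 6 ≤ UU m A) →
    V2 m d ≤ (UU m A : ℝ) → Inj (triD 0 d) (rows m (range 9 ∪ A)))

/-- the theorem of project UN -/
def UNF (C : ℝ) : Prop := ∀ (s : ℕ) (m : ℕ → ℕ) (d : ℕ), Antitone m →
    (∀ i, s ≤ i → m i = 0) → m 0 + m 1 + m 2 ≤ d →
    (3 * d ≤ ∑ i ∈ range 9, m i ∨
      ((m 0 : ℝ) + C * m 9 * (1 + Real.log (m 9)) ^ 3 ≤ d ∧
        (C * (m 9) ^ 2 * (1 + Real.log (m 9)) ^ 6 +
            ∑ i ∈ range 9, ((m i + 1).choose 2 : ℝ) ≤ ((d + 2).choose 2 : ℝ) ∨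
          C * (m 9) ^ 2 * (1 + Real.log (m 9)) ^ 6 ≤ ∑ i ∈ Ico 9 s, (m i : ℝ) ^ 2))) →
    Concl s m d

lemma V2_eq (m : ℕ → ℕ) (d : ℕ) : V2 m d =
    2 * (((d + 2).choose 2 : ℕ) : ℝ) - 2 * ((∑ i ∈ range 9, (m i + 1).choose 2 : ℕ) : ℝ) := by
  unfold V2
  have h1 : 2 * (d + 2).choose 2 = (d + 1) * (d + 2) := two_choose (d + 1)
  have h2 : (2 : ℝ) * (((d + 2).choose 2 : ℕ) : ℝ) = ((d : ℝ) + 1) * (d + 2) := by
    exact_mod_cast h1
  have h3 : (2 : ℝ) * ((∑ i ∈ range 9, (m i + 1).choose 2 : ℕ) : ℝ) =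
      ∑ i ∈ range 9, (m i : ℝ) * (m i + 1) := by
    rw [Nat.cast_sum, mul_sum]
    apply sum_congr rfl
    intro i _
    have := two_choose (m i)
    exact_mod_cast this
  rw [h2, h3]

/-- monotonicity of the bounds -/
lemma mono_log {a b : ℕ} (h : a ≤ b) (n : ℕ) : (1 + Real.log a) ^ n ≤ (1 + Real.log b) ^ n := by
  have h0 : 0 ≤ Real.log (a : ℝ) := Real.log_natCast_nonneg a
  apply pow_le_pow_left₀ (by linarith)
  rcases Nat.eq_zero_or_pos a with ha | ha
  · rw [ha]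
    have : 0 ≤ Real.log (b : ℝ) := Real.log_natCast_nonneg b
    simpa using this
  · have : Real.log (a : ℝ) ≤ Real.log b :=
      Real.log_le_log (by exact_mod_cast ha) (by exact_mod_cast h)
    linarith

theorem unb_of {C : ℝ} (hC : 0 < C) (hU : UNF C) : UNB (4 * C) := by
  classical
  intro A m M d hA hN hM hd
  obtain ⟨f, g, hf, hg, hmo⟩ := Pool.Agent.Helper55.UW.exists_enum m A
  obtain ⟨n, hn⟩ : ∃ n, n = A.card := ⟨_, rfl⟩
  rw [← hn] at hf hg hmo
  set m' : ℕ → ℕ := fun i => if i < 9 then m i else if i < 9 + n then m (f (n - 1 - (i - 9))) else 0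
    with hm'
  have e9 : ∀ i < 9, m' i = m i := by
    intro i hi
    rw [hm']
    simp only
    rw [if_pos hi]
  have e10 : ∀ c < n, m' (9 + c) = m (f (n - 1 - c)) := by
    intro c hc
    rw [hm']
    simp only
    rw [if_neg (by omega), if_pos (by omega), Nat.add_sub_cancel_left]
  have e11 : ∀ i, 9 + n ≤ i → m' i = 0 := by
    intro i hi
    rw [hm']
    simp only
    rw [if_neg (by omega), if_neg (by omega)]
  have hAM : ∀ c < n, m (f c) ≤ M := fun c hc => (hA _ (hf c hc).1).2.2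
  have hanti : Antitone m' := by
    intro i j hij
    rcases Nat.lt_or_ge j 9 with h1 | h1
    · rw [e9 j h1, e9 i (by omega)]
      exact hN.anti i j hij h1
    · rcases Nat.lt_or_ge j (9 + n) with h2 | h2
      · obtain ⟨c, rfl⟩ : ∃ c, j = 9 + c := ⟨j - 9, by omega⟩
        rw [e10 c (by omega)]
        rcases Nat.lt_or_ge i 9 with h3 | h3
        · rw [e9 i h3]
          refine (hAM _ (by omega)).trans (hN.big.trans (hN.anti i 8 (by omega) (by norm_num)))
        · obtain ⟨b, rfl⟩ : ∃ b, i = 9 + b := ⟨i - 9, by omega⟩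
          rw [e10 b (by omega)]
          exact hmo _ _ (by omega) (by omega)
      · rw [e11 j h2]
        exact Nat.zero_le _
  have h9M : m' 9 ≤ M := by
    rcases Nat.eq_zero_or_pos n with h | h
    · rw [e11 9 (by omega)]
      exact Nat.zero_le _
    · have := e10 0 h
      rw [Nat.add_zero] at this
      rw [this]
      exact hAM _ (by omega)
  have hsum9 : ∑ i ∈ range 9, (m' i + 1).choose 2 = ∑ i ∈ range 9, (m i + 1).choose 2 := by
    apply sum_congr rfl
    intro i hi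
    rw [e9 i (mem_range.1 hi)]
  have htail : ∀ F : ℕ → ℕ, ∑ i ∈ Ico 9 (9 + n), F (m' i) = ∑ k ∈ A, F (m k) := by
    intro F
    refine sum_nbij' (fun i => f (n - 1 - (i - 9))) (fun k => 9 + (n - 1 - g k)) ?_ ?_ ?_ ?_ ?_
    · intro i hi
      rw [mem_Ico] at hi
      exact (hf _ (by omega)).1
    · intro k hk
      have := (hg k hk).1
      rw [mem_Ico]
      omega
    · intro i hi
      rw [mem_Ico] at hi
      rw [(hf _ (by omega : n - 1 - (i - 9) < n)).2]
      omega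
    · intro k hk
      have h1 := hg k hk
      rw [Nat.add_sub_cancel_left, show n - 1 - (n - 1 - g k) = g k by omega]
      exact h1.2
    · intro i hi
      rw [mem_Ico] at hi
      obtain ⟨c, rfl⟩ : ∃ c, i = 9 + c := ⟨i - 9, by omega⟩
      rw [e10 c (by omega), Nat.add_sub_cancel_left]
  have htot : ∑ k ∈ range (9 + n), (m' k + 1).choose 2 =
      ∑ i ∈ range 9, (m i + 1).choose 2 + ∑ k ∈ A, (m k + 1).choose 2 := by
    rw [← sum_range_add_sum_Ico _ (show 9 ≤ 9 + n by omega), hsum9,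
      htail (fun x => (x + 1).choose 2)]
  have htr := Pool.Agent.Helper55.UW.rx_gen (D := triD 0 d) (m := m') (m' := m)
    (s := range (9 + n)) (t := range 9 ∪ A)
    (f := fun i => if i < 9 then i else f (n - 1 - (i - 9)))
    (g := fun k => if k < 9 then k else 9 + (n - 1 - g k)) (by
      intro i hi
      rw [mem_range] at hi
      by_cases h : i < 9
      · rw [if_pos h, if_pos h, e9 i h]
        exact ⟨mem_union_left _ (mem_range.2 h), rfl, rfl⟩
      · have h1 := hf (n - 1 - (i - 9)) (by omega)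
        have h2 := (hA _ h1.1).1
        rw [if_neg h, if_neg (by omega), h1.2]
        refine ⟨mem_union_right _ h1.1, by omega, ?_⟩
        obtain ⟨c, rfl⟩ : ∃ c, i = 9 + c := ⟨i - 9, by omega⟩
        rw [e10 c (by omega), Nat.add_sub_cancel_left]) (by
      intro k hk
      by_cases h : k < 9
      · rw [if_pos h, if_pos h]
        exact ⟨mem_range.2 (by omega), rfl⟩
      · have hkA : k ∈ A := by
          rcases mem_union.1 hk with h1 | h1
          · exact absurd (mem_range.1 h1) h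
          · exact h1
        have h1 := hg k hkA
        rw [if_neg h, if_neg (by omega), Nat.add_sub_cancel_left,
          show n - 1 - (n - 1 - g k) = g k by omega]
        exact ⟨mem_range.2 (by omega), h1.2⟩)
  have hMr : (1 : ℝ) ≤ M := by exact_mod_cast hM
  have h9r : (m' 9 : ℝ) ≤ M := by exact_mod_cast h9M
  have hb1 : C * (m' 9 : ℝ) * (1 + Real.log (m' 9)) ^ 3 ≤ C * M * (1 + Real.log M) ^ 3 := by
    have h1 := mono_log h9M 3
    have h2 : 0 ≤ Real.log (m' 9 : ℝ) := Real.log_natCast_nonneg _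
    apply mul_le_mul (mul_le_mul_of_nonneg_left h9r hC.le) h1 (by positivity) (by positivity)
  have hb2 : C * (m' 9 : ℝ) ^ 2 * (1 + Real.log (m' 9)) ^ 6 ≤
      C * M ^ 2 * (1 + Real.log M) ^ 6 := by
    have h1 := mono_log h9M 6
    have h2 : 0 ≤ Real.log (m' 9 : ℝ) := Real.log_natCast_nonneg _
    have h3 : (m' 9 : ℝ) ^ 2 ≤ M ^ 2 := pow_le_pow_left₀ (Nat.cast_nonneg _) h9r 2
    apply mul_le_mul (mul_le_mul_of_nonneg_left h3 hC.le) h1 (by positivity) (by positivity)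
  have hlM : 0 ≤ Real.log (M : ℝ) := Real.log_natCast_nonneg _
  have hpos1 : 0 ≤ C * M * (1 + Real.log M) ^ 3 := by positivity
  have hpos2 : 0 ≤ C * M ^ 2 * (1 + Real.log M) ^ 6 := by positivity
  have hd' : (m' 0 : ℝ) + C * m' 9 * (1 + Real.log (m' 9)) ^ 3 ≤ d := by
    rw [e9 0 (by norm_num)]
    have e : 4 * C * (M : ℝ) * (1 + Real.log M) ^ 3 = 4 * (C * M * (1 + Real.log M) ^ 3) := by ring
    rw [e] at hd
    linarith
  have hred : m' 0 + m' 1 + m' 2 ≤ d := by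
    rw [e9 0 (by norm_num), e9 1 (by norm_num), e9 2 (by norm_num)]
    exact hN.red
  have hUU : (UU m A : ℝ) = 2 * ((∑ k ∈ A, (m k + 1).choose 2 : ℕ) : ℝ) := by
    have := UU_tt m A
    unfold tt at this
    rw [this]
    push_cast
    ring
  have ealt : 4 * C * (M : ℝ) ^ 2 * (1 + Real.log M) ^ 6 =
      4 * (C * M ^ 2 * (1 + Real.log M) ^ 6) := by ring
  have hroom : 4 * C * (M : ℝ) ^ 2 * (1 + Real.log M) ^ 6 ≤ V2 m d →
      C * (m' 9) ^ 2 * (1 + Real.log (m' 9)) ^ 6 +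
        ∑ i ∈ range 9, ((m' i + 1).choose 2 : ℝ) ≤ ((d + 2).choose 2 : ℝ) := by
    intro h
    rw [ealt, V2_eq] at h
    have e : ∑ i ∈ range 9, ((m' i + 1).choose 2 : ℝ) =
        ((∑ i ∈ range 9, (m i + 1).choose 2 : ℕ) : ℝ) := by
      rw [← hsum9, Nat.cast_sum]
    rw [e]
    linarith
  constructor
  · intro h1 h2
    apply htr.2
    apply ind_of_concl (hU (9 + n) m' d hanti e11 hred (Or.inr ⟨hd', Or.inl (hroom h1)⟩))
    rw [htot]
    rw [V2_eq, hUU] at h2
    have h3 : ((∑ i ∈ range 9, (m i + 1).choose 2 : ℕ) : ℝ) +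
        ((∑ k ∈ A, (m k + 1).choose 2 : ℕ) : ℝ) ≤ (((d + 2).choose 2 : ℕ) : ℝ) := by linarith
    exact_mod_cast h3
  · intro h1 h2
    apply htr.1
    apply inj_of_concl (hU (9 + n) m' d hanti e11 hred (Or.inr ⟨hd', ?_⟩))
    · rw [htot]
      rw [V2_eq, hUU] at h2
      have h3 : (((d + 2).choose 2 : ℕ) : ℝ) ≤ ((∑ i ∈ range 9, (m i + 1).choose 2 : ℕ) : ℝ) +
        ((∑ k ∈ A, (m k + 1).choose 2 : ℕ) : ℝ) := by linarith
      exact_mod_cast h3
    · rcases h1 with h1 | h1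
      · exact Or.inl (hroom h1)
      · right
        rw [ealt] at h1
        have h3 : ∑ i ∈ Ico 9 (9 + n), (m' i : ℝ) ^ 2 = ((∑ k ∈ A, m k ^ 2 : ℕ) : ℝ) := by
          rw [← htail (fun x => x ^ 2)]
          push_cast
          rfl
        rw [h3]
        have h4 : (UU m A : ℝ) ≤ 2 * ((∑ k ∈ A, m k ^ 2 : ℕ) : ℝ) := by
          have h5 : UU m A ≤ 2 * ∑ k ∈ A, m k ^ 2 := by
            unfold UU
            rw [mul_sum]
            apply sum_le_sum
            intro k _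
            nlinarith
          exact_mod_cast h5
        linarith

end Pool.Agent.Helper94.AN
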