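import Pool.Agent.Helper94.AN.Base
import Pool.Agent.Helper94.AM.Greedy

/-!
# Nine largest multiplicities free, all multiplicities (MP_d3128a_ag): clusters of small points, the
points of a set `T` being fixed
-/

set_option autoImplicit false

namespace Pool.Agent.Helper94.AN

open Finset Pool.Agent.Lead.Sh
open Pool.Agent.Helper94.AM

theorem clusters_ind {T : Finset ℕ} {a L0 W w M d : ℕ} (ha : 1 ≤ a) (haL : L0 ≤ a) (haM : a ≤ M)
    (hw : ∀ j < L0, j * (j + 1) ≤ w) (hwW : w < W) (had : a ≤ d + 1)
    (hcl : ∀ (B : Finset ℕ) (m : ℕ → ℕ), (∀ k ∈ B, 1 ≤ m k ∧ m k < L0) → UU m B ≤ W →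
      Ind (triD 0 (a - 1)) (rows m B))
    (X : ℕ) (m0 : ℕ → ℕ)
    (hX : ∀ (A : Finset ℕ) (m : ℕ → ℕ), (∀ k ∈ T, m k = m0 k) → Disjoint T A →
      (∀ k ∈ A, L0 ≤ m k ∧ 1 ≤ m k ∧ m k ≤ M) →
      (W - w) * UU m A ≤ X + (W - w) * (a * (a + 1)) → Ind (triD 0 d) (rows m (T ∪ A))) :
    ∀ (A : Finset ℕ) (m : ℕ → ℕ), (∀ k ∈ T, m k = m0 k) → Disjoint T A →
      (∀ k ∈ A, 1 ≤ m k ∧ m k ≤ M) →
      (W - w) * UU m (A.filter (fun i => L0 ≤ m i)) +
        a * (a + 1) * UU m (A.filter (fun i => m i < L0)) ≤ X →
      Ind (triD 0 d) (rows m (T ∪ A)) := by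
  suffices H : ∀ (c : ℕ) (A : Finset ℕ) (m : ℕ → ℕ), (A.filter (fun i => m i < L0)).card = c →
      (∀ k ∈ T, m k = m0 k) → Disjoint T A →
      (∀ k ∈ A, 1 ≤ m k ∧ m k ≤ M) →
      (W - w) * UU m (A.filter (fun i => L0 ≤ m i)) +
        a * (a + 1) * UU m (A.filter (fun i => m i < L0)) ≤ X →
      Ind (triD 0 d) (rows m (T ∪ A)) from fun A m => H _ A m rfl
  intro c
  induction c using Nat.strong_induction_on with
  | _ c ih =>
    intro A m hc hT hTA hA hΦ
    set S := A.filter (fun i => m i < L0) with hS
    set Lg := A.filter (fun i => L0 ≤ m i) with hLg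
    have hSA : S ⊆ A := filter_subset _ _
    -- replacing a cluster
    have hrep : ∀ B ⊆ A, ∀ k ∈ B, Ind (triD 0 (a - 1)) (rows m B) →
        Ind (triD 0 d) (rows (Function.update m k a) (T ∪ insert k (A \ B))) →
        Ind (triD 0 d) (rows m (T ∪ A)) := by
      intro B hBA k hk h1 h2
      have hTB : Disjoint T B := hTA.mono_right hBA
      apply cluster_ind (hBA.trans subset_union_right) hk ha had h1
      have e : insert k ((T ∪ A) \ B) = T ∪ insert k (A \ B) := by
        rw [union_sdiff_distrib, sdiff_eq_self_of_disjoint hTB, union_insert]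
      rw [e]
      exact h2
    have hTu : ∀ k ∈ A, ∀ j ∈ T, Function.update m k a j = m0 j := by
      intro k hk j hj
      rw [Function.update_of_ne, hT j hj]
      rintro rfl
      exact disjoint_left.mp hTA hj hk
    have hTd : ∀ B ⊆ A, ∀ k ∈ B, Disjoint T (insert k (A \ B)) := by
      intro B hBA k hk
      apply hTA.mono_right
      intro x hx
      rcases mem_insert.mp hx with h | h
      · rw [h]; exact hBA hk
      · exact (mem_sdiff.mp h).1
    rcases S.eq_empty_or_nonempty with h0 | ⟨k0, hk0⟩
    · -- no small points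
      have hall : ∀ k ∈ A, L0 ≤ m k := by
        intro k hk
        by_contra h
        have : k ∈ S := mem_filter.mpr ⟨hk, by omega⟩
        rw [h0] at this
        exact absurd this (notMem_empty k)
      have hLA : Lg = A := filter_true_of_mem hall
      apply hX A m hT hTA (fun k hk => ⟨hall k hk, hA k hk⟩)
      rw [hLA] at hΦ
      omega
    · have hAS : ∀ k ∈ A \ S, L0 ≤ m k := by
        intro k hk
        rw [mem_sdiff] at hk
        by_contra h
        exact hk.2 (mem_filter.mpr ⟨hk.1, by omega⟩)
      by_cases hW : UU m S ≤ W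
      · -- one cluster
        have hkn : k0 ∉ A \ S := fun h => (mem_sdiff.mp h).2 hk0
        apply hrep S hSA k0 hk0
          (hcl S m (fun k hk => ⟨(hA k (hSA hk)).1, (mem_filter.mp hk).2⟩) hW)
        apply hX _ _ (hTu k0 (hSA hk0)) (hTd S hSA k0 hk0)
        · intro k hk
          rcases mem_insert.mp hk with h | h
          · rw [h, Function.update_self]
            exact ⟨haL, ha, haM⟩
          · rw [Function.update_of_ne (fun h' => hkn (by rw [← h']; exact h))]
            exact ⟨hAS k h, hA k (mem_sdiff.mp h).1⟩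
        · rw [UU_insert hkn]
          have e : A \ S = Lg := by
            ext i
            rw [mem_sdiff, hS, hLg, mem_filter, mem_filter]
            constructor
            · rintro ⟨h1, h2⟩
              refine ⟨h1, ?_⟩
              by_contra h3
              exact h2 ⟨h1, by omega⟩
            · rintro ⟨h1, h2⟩
              exact ⟨h1, fun h3 => by omega⟩
          rw [e, mul_add]
          have : (W - w) * UU m Lg ≤ X := le_trans (Nat.le_add_right _ _) hΦ
          omega
      · -- a full cluster
        push Not at hW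
        obtain ⟨B, hBS, hB1, hB2⟩ := greedy (fun j => m j * (m j + 1)) w (W - w) S
          (fun k hk => hw (m k) (mem_filter.mp hk).2) (by
            show W - w ≤ UU m S
            omega)
        change W - w ≤ UU m B at hB1
        change UU m B ≤ W - w + w at hB2
        have hBne : B.Nonempty := by
          rw [nonempty_iff_ne_empty]
          rintro rfl
          have : UU m ∅ = 0 := by simp [UU]
          omega
        obtain ⟨k, hk⟩ := hBne
        have hBA : B ⊆ A := hBS.trans hSA
        obtain ⟨f1, f2, f3, f4⟩ := filters haL hBS hk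
        have hkn : k ∉ A \ B := fun h => (mem_sdiff.mp h).2 hk
        apply hrep B hBA k hk
          (hcl B m (fun k hk => ⟨(hA k (hBA hk)).1, (mem_filter.mp (hBS hk)).2⟩) (by omega))
        apply ih (S \ B).card _ _ _ (by rw [f1]) (hTu k (hBA hk)) (hTd B hBA k hk) _ _
        · rw [← hc]
          apply card_lt_card
          exact ⟨sdiff_subset, fun h => (mem_sdiff.mp (h (hBS hk))).2 hk⟩
        · intro i hi
          rcases mem_insert.mp hi with h | h
          · rw [h, Function.update_self]
            exact ⟨ha, haM⟩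
          · rw [Function.update_of_ne (fun h' => hkn (by rw [← h']; exact h))]
            exact hA i (mem_sdiff.mp h).1
        · rw [f1, f2, UU_insert f3, UU_update f4]
          have h3 := UU_sdiff (m := m) hBS
          have h4 : a * (a + 1) * UU m S = a * (a + 1) * UU m (S \ B) + a * (a + 1) * UU m B := by
            rw [← h3, mul_add]
          have h5 : (W - w) * (a * (a + 1)) ≤ a * (a + 1) * UU m B := by
            rw [mul_comm]
            exact Nat.mul_le_mul_left _ hB1
          rw [mul_add]
          change (W - w) * (a * (a + 1)) + (W - w) * UU m Lg + a * (a + 1) * UU m (S \ B) ≤ X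
          omega

theorem clusters_inj {T : Finset ℕ} {a L0 W w M d : ℕ} (ha : 1 ≤ a) (haL : L0 ≤ a) (haM : a ≤ M)
    (hw : ∀ j < L0, j * (j + 1) ≤ w) (hW1 : 1 ≤ W) (had : a ≤ d + 1)
    (hcl : ∀ (B : Finset ℕ) (m : ℕ → ℕ), (∀ k ∈ B, 1 ≤ m k ∧ m k < L0) → W ≤ UU m B →
      Inj (triD 0 (a - 1)) (rows m B))
    (X : ℕ) (m0 : ℕ → ℕ)
    (hX : ∀ (A : Finset ℕ) (m : ℕ → ℕ), (∀ k ∈ T, m k = m0 k) → Disjoint T A →
      (∀ k ∈ A, L0 ≤ m k ∧ 1 ≤ m k ∧ m k ≤ M) →
      X ≤ (W + w) * UU m A + a * (a + 1) * W → Inj (triD 0 d) (rows m (T ∪ A))) :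
    ∀ (A : Finset ℕ) (m : ℕ → ℕ), (∀ k ∈ T, m k = m0 k) → Disjoint T A →
      (∀ k ∈ A, 1 ≤ m k ∧ m k ≤ M) →
      X ≤ (W + w) * UU m (A.filter (fun i => L0 ≤ m i)) +
        a * (a + 1) * UU m (A.filter (fun i => m i < L0)) →
      Inj (triD 0 d) (rows m (T ∪ A)) := by
  suffices H : ∀ (c : ℕ) (A : Finset ℕ) (m : ℕ → ℕ), (A.filter (fun i => m i < L0)).card = c →
      (∀ k ∈ T, m k = m0 k) → Disjoint T A →
      (∀ k ∈ A, 1 ≤ m k ∧ m k ≤ M) →
      X ≤ (W + w) * UU m (A.filter (fun i => L0 ≤ m i)) +
        a * (a + 1) * UU m (A.filter (fun i => m i < L0)) →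
      Inj (triD 0 d) (rows m (T ∪ A)) from fun A m => H _ A m rfl
  intro c
  induction c using Nat.strong_induction_on with
  | _ c ih =>
    intro A m hc hT hTA hA hΦ
    set S := A.filter (fun i => m i < L0) with hS
    set Lg := A.filter (fun i => L0 ≤ m i) with hLg
    have hSA : S ⊆ A := filter_subset _ _
    -- replacing a cluster
    have hrep : ∀ B ⊆ A, ∀ k ∈ B, Inj (triD 0 (a - 1)) (rows m B) →
        Inj (triD 0 d) (rows (Function.update m k a) (T ∪ insert k (A \ B))) →
        Inj (triD 0 d) (rows m (T ∪ A)) := by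
      intro B hBA k hk h1 h2
      have hTB : Disjoint T B := hTA.mono_right hBA
      apply cluster_inj (hBA.trans subset_union_right) hk ha had h1
      have e : insert k ((T ∪ A) \ B) = T ∪ insert k (A \ B) := by
        rw [union_sdiff_distrib, sdiff_eq_self_of_disjoint hTB, union_insert]
      rw [e]
      exact h2
    by_cases hW : UU m S ≤ W
    · -- drop the small points
      have h1 : Inj (triD 0 d) (rows m (T ∪ Lg)) := by
        apply hX Lg m hT (hTA.mono_right (filter_subset _ _))
        · intro k hk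
          have := mem_filter.mp hk
          exact ⟨this.2, hA k this.1⟩
        · have : a * (a + 1) * UU m S ≤ a * (a + 1) * W := Nat.mul_le_mul_left _ hW
          omega
      exact h1.mono subset_rfl (rows_mono (union_subset_union_right (filter_subset _ _)))
    · push Not at hW
      obtain ⟨B, hBS, hB1, hB2⟩ := greedy (fun j => m j * (m j + 1)) w W S
        (fun k hk => hw (m k) (mem_filter.mp hk).2) (by
          show W ≤ UU m S
          omega)
      change W ≤ UU m B at hB1
      change UU m B ≤ W + w at hB2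
      have hBne : B.Nonempty := by
        rw [nonempty_iff_ne_empty]
        rintro rfl
        have : UU m ∅ = 0 := by simp [UU]
        omega
      obtain ⟨k, hk⟩ := hBne
      have hBA : B ⊆ A := hBS.trans hSA
      obtain ⟨f1, f2, f3, f4⟩ := filters haL hBS hk
      have hkn : k ∉ A \ B := fun h => (mem_sdiff.mp h).2 hk
      apply hrep B hBA k hk
        (hcl B m (fun k hk => ⟨(hA k (hBA hk)).1, (mem_filter.mp (hBS hk)).2⟩) hB1)
      apply ih (S \ B).card _ _ _ (by rw [f1]) _ _ _ _
      · rw [← hc]
        apply card_lt_card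
        exact ⟨sdiff_subset, fun h => (mem_sdiff.mp (h (hBS hk))).2 hk⟩
      · intro j hj
        rw [Function.update_of_ne, hT j hj]
        rintro rfl
        exact disjoint_left.mp hTA hj (hBA hk)
      · apply hTA.mono_right
        intro x hx
        rcases mem_insert.mp hx with h | h
        · rw [h]; exact hBA hk
        · exact (mem_sdiff.mp h).1
      · intro i hi
        rcases mem_insert.mp hi with h | h
        · rw [h, Function.update_self]
          exact ⟨ha, haM⟩
        · rw [Function.update_of_ne (fun h' => hkn (by rw [← h']; exact h))]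
          exact hA i (mem_sdiff.mp h).1
      · rw [f1, f2, UU_insert f3, UU_update f4]
        have h3 := UU_sdiff (m := m) hBS
        have h4 : a * (a + 1) * UU m S = a * (a + 1) * UU m (S \ B) + a * (a + 1) * UU m B := by
          rw [← h3, mul_add]
        have h5 : a * (a + 1) * UU m B ≤ (W + w) * (a * (a + 1)) := by
          rw [mul_comm (W + w)]
          exact Nat.mul_le_mul_left _ hB2
        rw [mul_add]
        change X ≤ (W + w) * (a * (a + 1)) + (W + w) * UU m Lg + a * (a + 1) * UU m (S \ B)
        omega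

end Pool.Agent.Helper94.AN
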