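import Pool.Agent.Helper94.AM.Cluster

/-!
# Cremona transformations of systems of conditions (MP_d3128a_ag): translations, corners
-/

set_option autoImplicit false

namespace Pool.Agent.Helper94.AN

open Finset Pool.Agent.Lead.Sh
open Pool.Agent.Helper94.AM (E_origin wt_one)

/-- lower sets of monomials -/
def Low (D : Finset (ℕ × ℕ)) : Prop := ∀ p ∈ D, ∀ q : ℕ × ℕ, q.1 ≤ p.1 → q.2 ≤ p.2 → q ∈ D

lemma vdm (p o : ℕ) (x u : ℂ) :
    ∑ q ∈ range (p + 1), ((p.choose q : ℂ) * u ^ (p - q)) * ((q.choose o : ℂ) * x ^ (q - o)) =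
      (p.choose o : ℂ) * (x + u) ^ (p - o) := by
  have h1 : ((Polynomial.X + Polynomial.C x) + Polynomial.C u : Polynomial ℂ) ^ p =
      (Polynomial.X + Polynomial.C (x + u)) ^ p := by
    rw [Polynomial.C_add, add_assoc]
  rw [add_pow] at h1
  have h2 := congrArg (fun f => Polynomial.coeff f o) h1
  simp only [Polynomial.finset_sum_coeff] at h2
  rw [Polynomial.coeff_X_add_C_pow] at h2
  rw [mul_comm ((p.choose o : ℂ)), ← h2]
  apply sum_congr rfl
  intro q _
  have h3 : ((Polynomial.X + Polynomial.C x) ^ q * Polynomial.C u ^ (p - q) *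
      ((p.choose q : ℕ) : Polynomial ℂ) : Polynomial ℂ) =
      Polynomial.C (u ^ (p - q) * (p.choose q : ℂ)) * (Polynomial.X + Polynomial.C x) ^ q := by
    rw [Polynomial.C_mul, Polynomial.C_pow, map_natCast]
    ring
  rw [h3, Polynomial.coeff_C_mul, Polynomial.coeff_X_add_C_pow]
  ring

lemma E_add {D : Finset (ℕ × ℕ)} (hD : Low D) {p : ℕ × ℕ} (hp : p ∈ D) (o : ℕ × ℕ) (x y u v : ℂ) :
    ∑ q ∈ D, E q p u v * E o q x y = E o p (x + u) (y + v) := by
  have hbox : range (p.1 + 1) ×ˢ range (p.2 + 1) ⊆ D := by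
    intro q hq
    rw [mem_product, mem_range, mem_range] at hq
    exact hD p hp q (by omega) (by omega)
  rw [← sum_subset hbox]
  · rw [sum_product]
    have h1 : ∀ a ∈ range (p.1 + 1), ∑ b ∈ range (p.2 + 1), E (a, b) p u v * E o (a, b) x y =
        (((p.1.choose a : ℂ) * u ^ (p.1 - a)) * ((a.choose o.1 : ℂ) * x ^ (a - o.1))) *
          ((p.2.choose o.2 : ℂ) * (y + v) ^ (p.2 - o.2)) := by
      intro a _
      rw [← vdm p.2 o.2 y v, mul_sum]
      apply sum_congr rfl
      intro b _
      unfold E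
      ring
    rw [sum_congr rfl h1, ← sum_mul, vdm p.1 o.1 x u]
    unfold E
    ring
  · intro q _ hq
    rw [mem_product, mem_range, mem_range] at hq
    have h1 : p.1 < q.1 ∨ p.2 < q.2 := by omega
    unfold E
    rcases h1 with h | h
    · rw [Nat.choose_eq_zero_of_lt h]
      simp
    · rw [Nat.choose_eq_zero_of_lt h]
      simp

/-- translation of the points -/
lemma inj_translate {D : Finset (ℕ × ℕ)} (hD : Low D) {R : Finset Row} {P : ℕ → ℂ × ℂ}
    (h : InjAt D R P) (v : ℂ × ℂ) : InjAt D R (fun k => P k - v) := by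
  intro c hc d hd
  set g : ℕ × ℕ → ℂ := fun q => ∑ p ∈ D, c p * E q p (-v.1) (-v.2) with hg
  have hg0 : ∀ q ∈ D, g q = 0 := by
    apply h g
    intro r hr
    have h1 : ∑ q ∈ D, g q * E r.2 q (P r.1).1 (P r.1).2 =
        ∑ p ∈ D, c p * E r.2 p ((P r.1).1 - v.1) ((P r.1).2 - v.2) := by
      rw [hg]
      simp only [sum_mul]
      rw [sum_comm]
      apply sum_congr rfl
      intro p hp
      rw [sub_eq_add_neg, sub_eq_add_neg, ← E_add hD hp, mul_sum]
      apply sum_congr rfl
      intro q _
      ring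
    rw [h1]
    exact hc r hr
  have h2 : ∑ q ∈ D, g q * E d q v.1 v.2 = c d := by
    rw [hg]
    simp only [sum_mul]
    rw [sum_comm]
    have h3 : ∀ p ∈ D, ∑ q ∈ D, c p * E q p (-v.1) (-v.2) * E d q v.1 v.2 =
        if p = d then c d else 0 := by
      intro p hp
      have h4 := E_add hD hp d v.1 v.2 (-v.1) (-v.2)
      rw [add_neg_cancel, add_neg_cancel, E_origin] at h4
      have h5 : ∑ q ∈ D, c p * E q p (-v.1) (-v.2) * E d q v.1 v.2 =
          c p * ∑ q ∈ D, E q p (-v.1) (-v.2) * E d q v.1 v.2 := by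
        rw [mul_sum]
        apply sum_congr rfl
        intro q _
        ring
      rw [h5, h4]
      by_cases h6 : p = d
      · rw [if_pos h6.symm, if_pos h6, h6, mul_one]
      · rw [if_neg (fun h => h6 h.symm), if_neg h6, mul_zero]
    rw [sum_congr rfl h3, sum_ite_eq', if_pos hd]
  rw [← h2]
  apply sum_eq_zero
  intro q hq
  rw [hg0 q hq, zero_mul]

/-- a point at the origin removes a corner -/
theorem corner_low {D : Finset (ℕ × ℕ)} (hD : Low D) {s : Finset ℕ} {m : ℕ → ℕ} {k : ℕ}
    (h : Inj D (rows m s)) :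
    Inj (D.filter (fun p => m k ≤ p.1 + p.2)) (rows m (s.erase k)) := by
  obtain ⟨P0, hP0⟩ := h
  have hP := inj_translate hD hP0 (P0 k)
  set P : ℕ → ℂ × ℂ := fun j => P0 j - P0 k with hPdef
  have hPk : P k = 0 := sub_self _
  refine ⟨P, ?_⟩
  intro c hc p hp
  have hp' := mem_filter.1 hp
  have key := hP (fun q => if q ∈ D.filter (fun p => m k ≤ p.1 + p.2) then c q else 0) ?_ p hp'.1
  · rw [if_pos hp] at key
    exact key
  · intro r hr
    rw [mem_rows] at hr
    have hsum : ∑ q ∈ D, (if q ∈ D.filter (fun p => m k ≤ p.1 + p.2) then c q else 0) *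
        E r.2 q (P r.1).1 (P r.1).2 =
        ∑ q ∈ D.filter (fun p => m k ≤ p.1 + p.2), c q * E r.2 q (P r.1).1 (P r.1).2 := by
      rw [← sum_subset (filter_subset (fun p : ℕ × ℕ => m k ≤ p.1 + p.2) D)]
      · apply sum_congr rfl
        intro q hq
        rw [if_pos hq]
      · intro q _ hq
        rw [if_neg hq, zero_mul]
    rw [hsum]
    by_cases h1 : r.1 = k
    · rw [h1, hPk]
      apply sum_eq_zero
      intro q hq
      have hq' := (mem_filter.1 hq).2
      show c q * E r.2 q 0 0 = 0
      rw [E_origin, if_neg, mul_zero]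
      intro h2
      rw [← h2] at hq'
      have h3 := hr.2
      rw [h1] at h3
      omega
    · apply hc
      rw [mem_rows, mem_erase]
      exact ⟨⟨h1, hr.1⟩, hr.2⟩

/-- the corner is filled by a point -/
theorem corner_glue {D : Finset (ℕ × ℕ)} {s : Finset ℕ} {m : ℕ → ℕ} {k : ℕ} (hk : k ∉ s)
    (h : Inj (D.filter (fun p => m k ≤ p.1 + p.2)) (rows m s)) :
    Inj D (rows m (insert k s)) := by
  rcases Nat.eq_zero_or_pos (m k) with h0 | h0
  · have e : D.filter (fun p => m k ≤ p.1 + p.2) = D := by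
      apply filter_true_of_mem
      intro p _
      omega
    rw [e] at h
    exact h.mono subset_rfl (rows_mono (subset_insert _ _))
  · have h1 : Inj (D.filter (fun p => p.1 + p.2 < m k)) (rows m {k}) := by
      refine ⟨fun _ => 0, ?_⟩
      intro c hc p hp
      have hp' := mem_filter.1 hp
      have h2 := hc (k, p) (by
        rw [mem_rows]
        exact ⟨mem_singleton_self k, hp'.2⟩)
      have h3 : ∀ q ∈ D.filter (fun p => p.1 + p.2 < m k), c q * E p q (0 : ℂ) 0 =
          if q = p then c p else 0 := by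
        intro q _
        rw [E_origin]
        by_cases h4 : q = p
        · rw [if_pos h4.symm, if_pos h4, h4, mul_one]
        · rw [if_neg (fun h => h4 h.symm), if_neg h4, mul_zero]
      change ∑ q ∈ D.filter (fun p => p.1 + p.2 < m k), c q * E p q (0 : ℂ) 0 = 0 at h2
      rw [sum_congr rfl h3, sum_ite_eq', if_pos hp] at h2
      exact h2
    have h2 := Inj.glue (w := (1, 1)) (c' := m k - 1) h1 h (by
      intro p hp
      rw [mem_filter] at hp
      rw [wt_one]
      omega) (by
      intro p hp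
      rw [mem_filter] at hp
      rw [wt_one]
      omega) (by
      intro r hr r' hr'
      rw [mem_rows, mem_singleton] at hr
      rw [mem_rows] at hr'
      intro h
      rw [← h, hr.1] at hr'
      exact hk hr'.1)
    have e1 : D.filter (fun p => p.1 + p.2 < m k) ∪ D.filter (fun p => m k ≤ p.1 + p.2) = D := by
      ext p
      rw [mem_union, mem_filter, mem_filter]
      constructor
      · rintro (h | h)
        · exact h.1
        · exact h.1
      · intro h
        rcases Nat.lt_or_ge (p.1 + p.2) (m k) with h3 | h3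
        · exact Or.inl ⟨h, h3⟩
        · exact Or.inr ⟨h, h3⟩
    have e2 : rows m {k} ∪ rows m s = rows m (insert k s) := by
      rw [← rows_union, insert_eq]
    rw [e1, e2] at h2
    exact h2

end Pool.Agent.Helper94.AN
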