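import Pool.Agent.Helper94.AN.Cr1
import Pool.Agent.Helper39.EW.Inv
import Pool.Agent.Helper34.EW.CP
import Pool.Agent.Helper9.EW.Sw

/-!
# Cremona transformations of systems of conditions (MP_d3128a_ag): the map `(x, y) ↦ (1/x, y)`
-/

set_option autoImplicit false

namespace Pool.Agent.Helper94.AN

open Finset Pool.Agent.Lead.Sh Pool.Agent.Helper18.SG Pool.Agent.Helper18.EW
open Pool.Agent.Helper75.SG (Van van_zero van_mul van_one van_pow van_mono expand)

/-- the identity for one monomial -/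
lemma flip_mono (N B : ℕ) (d : ℕ × ℕ) (hd : d.1 ≤ N) (hB : d.2 ≤ B) (x0 y0 u0 c : ℂ)
    (hu : u0 * x0 = 1) :
    (MvPolynomial.C c * ((MvPolynomial.X 0 + MvPolynomial.C x0) ^ d.1 *
      (MvPolynomial.X 1 + MvPolynomial.C y0) ^ d.2) : MvPolynomial (Fin 2) ℂ) =
    ∑ i ∈ range (N + 1), ∑ j ∈ range (B + 1),
      MvPolynomial.C (c * E (i, j) (N - d.1, d.2) u0 y0) *
        ((MvPolynomial.X 0 + MvPolynomial.C x0) ^ (N - i) *
          ((-(MvPolynomial.C u0 * MvPolynomial.X 0)) ^ i * MvPolynomial.X 1 ^ j)) := by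
  set x : MvPolynomial (Fin 2) ℂ := MvPolynomial.X 0 + MvPolynomial.C x0 with hx
  set p : MvPolynomial (Fin 2) ℂ := -(MvPolynomial.C u0 * MvPolynomial.X 0) with hp
  have h1 : (1 : MvPolynomial (Fin 2) ℂ) = MvPolynomial.C u0 * x + p := by
    have h0 : (MvPolynomial.C u0 * MvPolynomial.C x0 : MvPolynomial (Fin 2) ℂ) = 1 := by
      rw [← map_mul, hu, map_one]
    rw [hx, hp, mul_add, h0]
    ring
  have h3 : (MvPolynomial.C c * (x ^ d.1 * (MvPolynomial.X 1 + MvPolynomial.C y0) ^ d.2) :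
      MvPolynomial (Fin 2) ℂ) = MvPolynomial.C c * (x ^ d.1 *
        ((MvPolynomial.C u0 * x + p) ^ (N - d.1) * (MvPolynomial.C y0 + MvPolynomial.X 1) ^ d.2)) := by
    rw [← h1, one_pow, one_mul, add_comm (MvPolynomial.X 1)]
  rw [h3, expand (MvPolynomial.C u0 * x) p (N - d.1) N (by omega),
    expand (MvPolynomial.C y0) (MvPolynomial.X 1) d.2 B hB, Finset.sum_mul_sum, Finset.mul_sum,
    Finset.mul_sum]
  refine Finset.sum_congr rfl fun i _ => ?_
  rw [Finset.mul_sum, Finset.mul_sum]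
  refine Finset.sum_congr rfl fun j _ => ?_
  rcases lt_or_ge (N - d.1) i with hi | hi
  · simp [E, Nat.choose_eq_zero_of_lt hi]
  have h4 : N - i = d.1 + (N - d.1 - i) := by omega
  rw [h4, pow_add]
  simp only [E, map_mul, map_pow, map_natCast]
  ring_nf

/-- the transfer of the conditions -/
lemma flip_cond (N B : ℕ) (D : Finset (ℕ × ℕ)) (hD : ∀ d ∈ D, d.1 ≤ N) (hB : ∀ d ∈ D, d.2 ≤ B)
    (μ : ℕ) (x0 y0 u0 : ℂ) (hu : u0 * x0 = 1) (c : ℕ × ℕ → ℂ)
    (hc : ∀ o : ℕ × ℕ, o.1 + o.2 < μ → ∑ d ∈ D, c d * E o (N - d.1, d.2) u0 y0 = 0)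
    (o : ℕ × ℕ) (ho : o.1 + o.2 < μ) : ∑ d ∈ D, c d * E o d x0 y0 = 0 := by
  have h1 : ∑ d ∈ D, c d * E o d x0 y0 = MvPolynomial.coeff (ex o)
      (∑ d ∈ D, MvPolynomial.C (c d) * ((MvPolynomial.X 0 + MvPolynomial.C x0) ^ d.1 *
      (MvPolynomial.X 1 + MvPolynomial.C y0) ^ d.2) : MvPolynomial (Fin 2) ℂ) := by
    rw [MvPolynomial.coeff_sum]
    refine Finset.sum_congr rfl fun d _ => ?_
    rw [MvPolynomial.coeff_C_mul, Pool.Agent.Helper89.SG.coeff_prod]
  have key : (∑ d ∈ D, MvPolynomial.C (c d) * ((MvPolynomial.X 0 + MvPolynomial.C x0) ^ d.1 *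
      (MvPolynomial.X 1 + MvPolynomial.C y0) ^ d.2) : MvPolynomial (Fin 2) ℂ) =
      ∑ i ∈ range (N + 1), ∑ j ∈ range (B + 1),
      MvPolynomial.C (∑ d ∈ D, c d * E (i, j) (N - d.1, d.2) u0 y0) *
        ((MvPolynomial.X 0 + MvPolynomial.C x0) ^ (N - i) *
          ((-(MvPolynomial.C u0 * MvPolynomial.X 0)) ^ i * MvPolynomial.X 1 ^ j)) := by
    rw [Finset.sum_congr rfl fun d hd => flip_mono N B d (hD d hd) (hB d hd) x0 y0 u0 (c d) hu,
      Finset.sum_comm]
    refine Finset.sum_congr rfl fun i _ => ?_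
    rw [Finset.sum_comm]
    refine Finset.sum_congr rfl fun j _ => ?_
    rw [map_sum, Finset.sum_mul]
  rw [h1, key, MvPolynomial.coeff_sum]
  refine Finset.sum_eq_zero fun i _ => ?_
  rw [MvPolynomial.coeff_sum]
  refine Finset.sum_eq_zero fun j _ => ?_
  rw [MvPolynomial.coeff_C_mul]
  rcases lt_or_ge (i + j) μ with h | h
  · rw [hc (i, j) h, zero_mul]
  · have hp1 : Van 1 (-(MvPolynomial.C u0 * MvPolynomial.X 0) : MvPolynomial (Fin 2) ℂ) := by
      apply van_one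
      simp
    have hq1 : Van 1 (MvPolynomial.X 1 : MvPolynomial (Fin 2) ℂ) := by
      apply van_one
      simp
    have h2 := van_mul (van_zero ((MvPolynomial.X 0 + MvPolynomial.C x0) ^ (N - i)))
      (van_mul (van_pow hp1 i) (van_pow hq1 j))
    rw [zero_add] at h2
    rw [van_mono h h2 (ex o) ?_, mul_zero]
    have : (ex o).degree = o.1 + o.2 := by
      rw [ex, map_add, Finsupp.degree_single, Finsupp.degree_single]
    omega

theorem flip_inj {N : ℕ} {D : Finset (ℕ × ℕ)} {m : ℕ → ℕ} {s : Finset ℕ} (hN : ∀ x ∈ D, x.1 ≤ N)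
    (hI : Inj D (rows m s)) : Inj (D.image (fun x => (N - x.1, x.2))) (rows m s) := by
  obtain ⟨P, hP, hne⟩ := Pool.Agent.Helper34.EW.goalCP.2 D (rows m s) hI
  obtain ⟨B, hB⟩ : ∃ B : ℕ, ∀ d ∈ D, d.2 ≤ B := by
    refine ⟨D.sup (fun d => d.2), fun d hd => ?_⟩
    exact Finset.le_sup (f := fun d : ℕ × ℕ => d.2) hd
  refine ⟨fun k => ((P k).1⁻¹, (P k).2), ?_⟩
  intro c hc
  have hinj : Set.InjOn (fun x : ℕ × ℕ => (N - x.1, x.2)) (D : Set (ℕ × ℕ)) := by
    intro a ha b hb hab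
    have h1 := congrArg Prod.fst hab
    have h2 := congrArg Prod.snd hab
    simp only at h1 h2
    have h3 := hN a ha
    have h4 := hN b hb
    exact Prod.ext (by omega) h2
  have h1 : ∀ d ∈ D, c (N - d.1, d.2) = 0 := by
    apply hP (fun d => c (N - d.1, d.2))
    intro r hr
    have hr' := (mem_rows m s r).1 hr
    refine flip_cond N B D hN hB (m r.1) (P r.1).1 (P r.1).2 (P r.1).1⁻¹
      (inv_mul_cancel₀ (hne r.1)) _ ?_ r.2 hr'.2
    intro o ho
    have h2 := hc (r.1, o) ((mem_rows m s _).2 ⟨hr'.1, ho⟩)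
    rw [Finset.sum_image hinj] at h2
    exact h2
  intro d hd
  obtain ⟨d', hd', rfl⟩ := Finset.mem_image.1 hd
  exact h1 d' hd'

/-- the region of the polynomials of degree at most `d` with given multiplicities at the three
coordinate points -/
def Rg (d a b c : ℕ) : Finset (ℕ × ℕ) :=
  (triD 0 d).filter (fun p => a ≤ p.1 + p.2 ∧ p.1 + b ≤ d ∧ p.2 + c ≤ d)

lemma mem_Rg {d a b c : ℕ} {p : ℕ × ℕ} :
    p ∈ Rg d a b c ↔ p.1 + p.2 ≤ d ∧ a ≤ p.1 + p.2 ∧ p.1 + b ≤ d ∧ p.2 + c ≤ d := by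
  unfold Rg
  rw [mem_filter, mem_triD]
  constructor
  · rintro ⟨⟨_, h1⟩, h2⟩
    exact ⟨h1, h2⟩
  · rintro ⟨h1, h2⟩
    exact ⟨⟨Nat.zero_le _, h1⟩, h2⟩

lemma Rg_zero (d : ℕ) : Rg d 0 0 0 = triD 0 d := by
  ext p
  rw [mem_Rg, mem_triD]
  omega

lemma Rg_low (d b c : ℕ) : Low (Rg d 0 b c) := by
  intro p hp q h1 h2
  rw [mem_Rg] at hp ⊢
  omega

lemma Rg_corner (d a b c : ℕ) : (Rg d 0 b c).filter (fun p => a ≤ p.1 + p.2) = Rg d a b c := by
  ext p
  rw [mem_filter, mem_Rg, mem_Rg]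
  omega

lemma Rg_swap {d a b c : ℕ} {m : ℕ → ℕ} {s : Finset ℕ} (h : Inj (Rg d a b c) (rows m s)) :
    Inj (Rg d a c b) (rows m s) := by
  have h1 := Pool.Agent.Helper9.EW.goalSw (Rg d a b c) m s h
  have e : (Rg d a b c).image (fun x => (x.2, x.1)) = Rg d a c b := by
    ext p
    rw [mem_image, mem_Rg]
    constructor
    · rintro ⟨x, hx, rfl⟩
      rw [mem_Rg] at hx
      simp only
      omega
    · intro hp
      refine ⟨(p.2, p.1), ?_, rfl⟩
      rw [mem_Rg]
      simp only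
      omega
  rw [e] at h1
  exact h1

lemma Rg_rot {d a b c : ℕ} {m : ℕ → ℕ} {s : Finset ℕ} (h : Inj (Rg d a b c) (rows m s)) :
    Inj (Rg d b a c) (rows m s) := by
  have h1 := Pool.Agent.Helper39.EW.goalInv Pool.Agent.Helper34.EW.goalCP d (Rg d a b c) m s
    (fun x hx => (mem_Rg.1 hx).1) h
  have e : (Rg d a b c).image (fun x => (d - x.1 - x.2, x.2)) = Rg d b a c := by
    ext p
    rw [mem_image, mem_Rg]
    constructor
    · rintro ⟨x, hx, rfl⟩
      rw [mem_Rg] at hx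
      simp only
      omega
    · intro hp
      refine ⟨(d - p.1 - p.2, p.2), ?_, ?_⟩
      · rw [mem_Rg]
        simp only
        omega
      · exact Prod.ext (by simp only; omega) rfl
  rw [e] at h1
  exact h1

/-- the quadratic transformation -/
lemma Rg_cr {d a b c d' a' b' c' : ℕ} {m : ℕ → ℕ} {s : Finset ℕ} (h0 : d' + a + b + c = 2 * d)
    (ha : a' + b + c = d) (hb : b' + a + c = d) (hc : c' + a + b = d)
    (h : Inj (Rg d a b c) (rows m s)) : Inj (Rg d' a' b' c') (rows m s) := by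
  have h1 := flip_inj (N := d - b) (fun x hx => by
    rw [mem_Rg] at hx
    omega) h
  have h2 := Pool.Agent.Helper9.EW.goalSw _ m s h1
  have h3 := flip_inj (N := d - c) (fun x hx => by
    rw [mem_image] at hx
    obtain ⟨y, hy, rfl⟩ := hx
    rw [mem_image] at hy
    obtain ⟨z, hz, rfl⟩ := hy
    rw [mem_Rg] at hz
    simp only
    omega) h2
  have h4 := Pool.Agent.Helper9.EW.goalSw _ m s h3
  have e : ((((Rg d a b c).image (fun x => (d - b - x.1, x.2))).image (fun x => (x.2, x.1))).image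
      (fun x => (d - c - x.1, x.2))).image (fun x => (x.2, x.1)) = Rg d' a' b' c' := by
    rw [image_image, image_image, image_image]
    ext p
    rw [mem_image, mem_Rg]
    constructor
    · rintro ⟨x, hx, rfl⟩
      rw [mem_Rg] at hx
      simp only [Function.comp]
      omega
    · intro hp
      refine ⟨(d - b - p.1, d - c - p.2), ?_, ?_⟩
      · rw [mem_Rg]
        simp only
        omega
      · simp only [Function.comp]
        exact Prod.ext (by simp only; omega) (by simp only; omega)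
  rw [e] at h4
  exact h4

end Pool.Agent.Helper94.AN
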