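import Pool.Agent.Helper94.AN.Cr2
import Pool.Agent.Helper65.EW.GLd

/-!
# Cremona transformations of systems of conditions (MP_d3128a_ag): the theorem
-/

set_option autoImplicit false

namespace Pool.Agent.Helper94.AN

open Finset Pool.Agent.Lead.Sh
open Pool.Agent.Helper59.EW (LI indAt_iff)

/-- the numbers of a quadratic transformation at the points `i`, `j`, `k` -/
structure Qd (i j k : ℕ) (d : ℕ) (m : ℕ → ℕ) (d' : ℕ) (m' : ℕ → ℕ) : Prop where
  ij : i ≠ j
  ik : i ≠ k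
  jk : j ≠ k
  e0 : d' + m i + m j + m k = 2 * d
  ei : m' i + m j + m k = d
  ej : m' j + m i + m k = d
  ek : m' k + m i + m j = d
  eo : ∀ l, l ≠ i → l ≠ j → l ≠ k → m' l = m l

lemma rows_congr' {m m' : ℕ → ℕ} {s : Finset ℕ} (h : ∀ k ∈ s, m' k = m k) : rows m' s = rows m s :=
  Pool.Agent.Helper65.EW.rows_eq h

theorem cr_inj {i j k d d' : ℕ} {m m' : ℕ → ℕ} (h : Qd i j k d m d' m') {s : Finset ℕ}
    (hi : i ∈ s) (hj : j ∈ s) (hk : k ∈ s) (hI : Inj (triD 0 d) (rows m s)) :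
    Inj (triD 0 d') (rows m' s) := by
  classical
  obtain ⟨hij, hik, hjk, e0, ei, ej, ek, eo⟩ := h
  rw [← Rg_zero] at hI ⊢
  -- the three corners
  have h1 := corner_low (k := i) (Rg_low d 0 0) hI
  rw [Rg_corner] at h1
  have h2 := corner_low (k := j) (Rg_low d (m i) 0) (Rg_rot h1)
  rw [Rg_corner] at h2
  -- `Rg d (m j) (m i) 0`
  have h3 : Inj (Rg d 0 (m i) (m j)) (rows m ((s.erase i).erase j)) := Rg_swap (Rg_rot (Rg_swap h2))
  have h4 := corner_low (k := k) (Rg_low d (m i) (m j)) h3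
  rw [Rg_corner] at h4
  set s3 := ((s.erase i).erase j).erase k with hs3
  have h5 : Inj (Rg d' (m' k) (m' i) (m' j)) (rows m s3) :=
    Rg_cr (by omega) (by omega) (by omega) (by omega) h4
  have h6 : rows m s3 = rows m' s3 := by
    symm
    apply rows_congr'
    intro l hl
    rw [hs3, mem_erase, mem_erase, mem_erase] at hl
    exact eo l hl.2.2.1 hl.2.1 hl.1
  rw [h6] at h5
  have hk3 : k ∉ s3 := by rw [hs3, mem_erase]; exact fun h => h.1 rfl
  have e3 : insert k s3 = (s.erase i).erase j := by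
    rw [hs3]
    apply insert_erase
    rw [mem_erase, mem_erase]
    exact ⟨hjk.symm, hik.symm, hk⟩
  rw [← Rg_corner] at h5
  have h7 := corner_glue hk3 h5
  rw [e3] at h7
  -- `Rg d' 0 (m' i) (m' j)`
  have h8 : Inj (Rg d' (m' j) (m' i) 0) (rows m' ((s.erase i).erase j)) :=
    Rg_swap (Rg_rot (Rg_swap h7))
  rw [← Rg_corner] at h8
  have hj3 : j ∉ (s.erase i).erase j := by rw [mem_erase]; exact fun h => h.1 rfl
  have h9 := corner_glue hj3 h8
  rw [insert_erase (show j ∈ s.erase i by rw [mem_erase]; exact ⟨hij.symm, hj⟩)] at h9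
  have h10 : Inj (Rg d' (m' i) 0 0) (rows m' (s.erase i)) := Rg_rot h9
  rw [← Rg_corner] at h10
  have hi3 : i ∉ s.erase i := by rw [mem_erase]; exact fun h => h.1 rfl
  have h11 := corner_glue hi3 h10
  rw [insert_erase hi] at h11
  exact h11

/-- the expected dimension is not changed -/
lemma Qd.sum {i j k d d' : ℕ} {m m' : ℕ → ℕ} (h : Qd i j k d m d' m') {s : Finset ℕ}
    (hi : i ∈ s) (hj : j ∈ s) (hk : k ∈ s) :
    ((d' : ℤ) + 1) * (d' + 2) - ∑ l ∈ s, (m' l : ℤ) * (m' l + 1) =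
      ((d : ℤ) + 1) * (d + 2) - ∑ l ∈ s, (m l : ℤ) * (m l + 1) := by
  classical
  obtain ⟨hij, hik, hjk, e0, ei, ej, ek, eo⟩ := h
  have hsplit : ∀ f : ℕ → ℤ, ∑ l ∈ s, f l = f i + (f j + (f k +
      ∑ l ∈ ((s.erase i).erase j).erase k, f l)) := by
    intro f
    rw [add_sum_erase ((s.erase i).erase j) f (by
        rw [mem_erase, mem_erase]
        exact ⟨hjk.symm, hik.symm, hk⟩),
      add_sum_erase (s.erase i) f (by rw [mem_erase]; exact ⟨hij.symm, hj⟩),
      add_sum_erase s f hi]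
  rw [hsplit, hsplit (fun l => (m l : ℤ) * (m l + 1))]
  have h1 : ∑ l ∈ ((s.erase i).erase j).erase k, (m' l : ℤ) * (m' l + 1) =
      ∑ l ∈ ((s.erase i).erase j).erase k, (m l : ℤ) * (m l + 1) := by
    apply sum_congr rfl
    intro l hl
    rw [mem_erase, mem_erase, mem_erase] at hl
    rw [eo l hl.2.2.1 hl.2.1 hl.1]
  rw [h1]
  have e0' : (d' : ℤ) = 2 * d - m i - m j - m k := by omega
  have ei' : (m' i : ℤ) = d - m j - m k := by omega
  have ej' : (m' j : ℤ) = d - m i - m k := by omega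
  have ek' : (m' k : ℤ) = d - m i - m j := by omega
  rw [e0', ei', ej', ek']
  ring

lemma two_card_rows (m : ℕ → ℕ) (s : Finset ℕ) :
    (2 * (rows m s).card : ℤ) = ∑ l ∈ s, (m l : ℤ) * (m l + 1) := by
  rw [card_rows]
  push_cast
  rw [mul_sum]
  apply sum_congr rfl
  intro l _
  have := Pool.Agent.Helper94.AM.two_choose_succ (m l)
  exact_mod_cast this

lemma two_card_tri (d : ℕ) : (2 * (triD 0 d).card : ℤ) = ((d : ℤ) + 1) * (d + 2) := by
  rw [card_triD]
  have := Pool.Agent.Helper94.AM.two_choose_succ (d + 1)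
  have h2 : 2 * (d + 2).choose 2 = (d + 1) * (d + 2) := this
  exact_mod_cast h2

theorem cr_ind {i j k d d' : ℕ} {m m' : ℕ → ℕ} (h : Qd i j k d m d' m') {s : Finset ℕ}
    (hi : i ∈ s) (hj : j ∈ s) (hk : k ∈ s) (hI : Ind (triD 0 d) (rows m s)) :
    Ind (triD 0 d') (rows m' s) := by
  classical
  have hc : (rows m s).card ≤ (triD 0 d).card := by
    obtain ⟨P, hP⟩ := hI
    exact LI.card_le ((indAt_iff _ _ P).1 hP)
  obtain ⟨m2, s2, p1, p2, _, p4, p5⟩ := Pool.Agent.Helper65.EW.add_many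
    ((triD 0 d).card - (rows m s).card) (triD 0 d) m s s hI (by omega)
  have hsq : (rows m2 s2).card = (triD 0 d).card := by omega
  have hInj : Inj (triD 0 d) (rows m2 s2) := by
    obtain ⟨P, hP⟩ := p4
    refine ⟨P, ?_⟩
    have h1 := LI.square ((indAt_iff _ _ P).1 hP) hsq
    intro c hc' p hp
    exact h1 c hc' p hp
  -- the transformed multiplicities
  set m3 : ℕ → ℕ := fun l => if l ∈ s then m' l else m2 l with hm3
  have hq : Qd i j k d m2 d' m3 := by
    obtain ⟨hij, hik, hjk, e0, ei, ej, ek, eo⟩ := h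
    have q1 : ∀ l ∈ s, m2 l = m l := fun l hl => p2 l (mem_union_left _ hl)
    have q2 : ∀ l ∈ s, m3 l = m' l := fun l hl => by rw [hm3]; exact if_pos hl
    refine ⟨hij, hik, hjk, ?_, ?_, ?_, ?_, ?_⟩
    · rw [q1 i hi, q1 j hj, q1 k hk]; exact e0
    · rw [q2 i hi, q1 j hj, q1 k hk]; exact ei
    · rw [q2 j hj, q1 i hi, q1 k hk]; exact ej
    · rw [q2 k hk, q1 i hi, q1 j hj]; exact ek
    · intro l h1 h2 h3
      by_cases hl : l ∈ s
      · rw [q2 l hl, q1 l hl]; exact eo l h1 h2 h3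
      · rw [hm3]; exact if_neg hl
  have hInj2 := cr_inj hq (p1 hi) (p1 hj) (p1 hk) hInj
  have hsq2 : (rows m3 s2).card = (triD 0 d').card := by
    have h1 := hq.sum (p1 hi) (p1 hj) (p1 hk)
    have h2 := two_card_rows m3 s2
    have h3 := two_card_rows m2 s2
    have h4 := two_card_tri d
    have h5 := two_card_tri d'
    have h6 : ((rows m2 s2).card : ℤ) = (triD 0 d).card := by exact_mod_cast hsq
    have h7 : ((rows m3 s2).card : ℤ) = (triD 0 d').card := by linarith
    exact_mod_cast h7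
  obtain ⟨P, hP⟩ := hInj2
  have hInd : Ind (triD 0 d') (rows m3 s2) := ⟨P, hP.ind hsq2⟩
  have e : rows m' s = rows m3 s := by
    symm
    apply rows_congr'
    intro l hl
    rw [hm3]
    exact if_pos hl
  rw [e]
  exact hInd.mono subset_rfl (rows_mono p1)

end Pool.Agent.Helper94.AN
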