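import Pool.Agent.Helper94.AN.Base
import Pool.Agent.Helper94.AM.Cluster

/-!
# Nine largest multiplicities free, all multiplicities (MP_d3128a_ag): the division step
-/

set_option autoImplicit false

namespace Pool.Agent.Helper94.AN

open Finset Pool.Agent.Lead.Sh
open Pool.Agent.Helper94.AM

lemma Nine.le {m : ℕ → ℕ} {M d : ℕ} (h : Nine m M d) {i : ℕ} (hi : i < 9) : m i ≤ d := by
  have h1 := h.anti 0 i (Nat.zero_le _) hi
  have h2 := h.red
  omega

lemma Nine.ge {m : ℕ → ℕ} {M d : ℕ} (h : Nine m M d) {i : ℕ} (hi : i < 9) : M ≤ m i :=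
  h.big.trans (h.anti i 8 (by omega) (by norm_num))

lemma V2_congr {m m' : ℕ → ℕ} {d : ℕ} (h : ∀ k ∈ range 9, m' k = m k) : V2 m' d = V2 m d := by
  unfold V2
  congr 1
  apply sum_congr rfl
  intro i hi
  rw [h i hi]

lemma Nine.congr {m m' : ℕ → ℕ} {M d : ℕ} (h : Nine m M d) (e : ∀ k ∈ range 9, m' k = m k) :
    Nine m' M d := by
  refine ⟨?_, ?_, ?_⟩
  · intro i j hij hj
    rw [e i (mem_range.2 (by omega)), e j (mem_range.2 hj)]
    exact h.anti i j hij hj
  · rw [e 8 (mem_range.2 (by norm_num))]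
    exact h.big
  · rw [e 0 (mem_range.2 (by norm_num)), e 1 (mem_range.2 (by norm_num)),
      e 2 (mem_range.2 (by norm_num))]
    exact h.red

/-- rounding -/
def up (q x : ℕ) : ℕ := (x + (q - 1)) / q

lemma up_spec {q : ℕ} (hq : 1 ≤ q) (x : ℕ) : x ≤ q * up q x ∧ q * up q x ≤ x + (q - 1) := by
  unfold up
  have h1 := Nat.div_add_mod (x + (q - 1)) q
  have h2 := Nat.mod_lt (x + (q - 1)) (show 0 < q by omega)
  omega

lemma up_mono {q : ℕ} {x y : ℕ} (h : x ≤ y) : up q x ≤ up q y := by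
  unfold up
  exact Nat.div_le_div_right (by omega)

lemma up_pos {q : ℕ} (hq : 1 ≤ q) {x : ℕ} (hx : 1 ≤ x) : 1 ≤ up q x := by
  have h := (up_spec hq x).1
  by_contra h1
  have : up q x = 0 := by omega
  rw [this, mul_zero] at h
  omega

lemma up_le {q : ℕ} (hq : 1 ≤ q) {x y : ℕ} (h : x ≤ q * y) : up q x ≤ y := by
  have h1 := (up_spec hq x).2
  by_contra h2
  have h3 : q * (y + 1) ≤ q * up q x := Nat.mul_le_mul_left q (by omega)
  rw [mul_add, mul_one] at h3
  omega

/-- rounding the nine largest multiplicities and the degree -/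
lemma V2_round {m : ℕ → ℕ} {M d q : ℕ} (hN : Nine m M d) (hq : 1 ≤ q) (hqd : q ≤ d) :
    V2 m d - 48 * q * d ≤ (q : ℝ) ^ 2 *
      ((((d + 1) / q : ℕ) : ℝ) * (((d + 1) / q : ℕ) + 1) -
        ∑ i ∈ range 9, (up q (m i) : ℝ) * (up q (m i) + 1)) := by
  set D : ℕ := (d + 1) / q with hD
  have hD2 : d + 1 < q * D + q := by
    have h1 := Nat.div_add_mod (d + 1) q
    have h2 := Nat.mod_lt (d + 1) (show 0 < q by omega)
    rw [← hD] at h1
    omega
  have hqr : (1 : ℝ) ≤ q := by exact_mod_cast hq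
  have hqdr : (q : ℝ) ≤ d := by exact_mod_cast hqd
  have hd1 : (1 : ℝ) ≤ d := by linarith
  have hD2r : (d : ℝ) + 2 ≤ q * D + q := by
    have : d + 2 ≤ q * D + q := by omega
    exact_mod_cast this
  have h9 : ((d : ℝ) + 2 - q) * (d + 2) ≤ (q : ℝ) ^ 2 * (D * (D + 1)) := by
    have hqD : (0 : ℝ) ≤ q * D := by positivity
    calc ((d : ℝ) + 2 - q) * (d + 2) ≤ (q * D) * (d + 2) := by
          apply mul_le_mul_of_nonneg_right _ (by positivity)
          linarith
      _ ≤ (q * D) * (q * D + q) := mul_le_mul_of_nonneg_left hD2r hqD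
      _ = (q : ℝ) ^ 2 * (D * (D + 1)) := by ring
  have hterm : ∀ i ∈ range 9, (q : ℝ) ^ 2 * ((up q (m i) : ℝ) * (up q (m i) + 1)) ≤
      (m i : ℝ) * (m i + 1) + 5 * q * d := by
    intro i hi
    have h1 := (up_spec hq (m i)).2
    have h2 : (q : ℝ) * up q (m i) ≤ m i + q := by
      have : q * up q (m i) ≤ m i + q := by omega
      exact_mod_cast this
    have h3 : (m i : ℝ) ≤ d := by exact_mod_cast hN.le (mem_range.1 hi)
    have h4 : (0 : ℝ) ≤ m i := Nat.cast_nonneg _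
    have h5 : (0 : ℝ) ≤ (q : ℝ) * up q (m i) := by positivity
    calc (q : ℝ) ^ 2 * ((up q (m i) : ℝ) * (up q (m i) + 1))
        = (q * up q (m i)) * (q * up q (m i) + q) := by ring
      _ ≤ (m i + q) * (m i + q + q) := by
          apply mul_le_mul h2 (by linarith) (by linarith) (by linarith)
      _ = (m i : ℝ) * m i + 3 * q * m i + 2 * q * q := by ring
      _ ≤ (m i : ℝ) * (m i + 1) + 5 * q * d := by
          have h6 : (q : ℝ) * m i ≤ q * d := mul_le_mul_of_nonneg_left h3 (by linarith)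
          have h7 : (q : ℝ) * q ≤ q * d := mul_le_mul_of_nonneg_left hqdr (by linarith)
          nlinarith
  have hsum := sum_le_sum hterm
  rw [← mul_sum, sum_add_distrib, sum_const, card_range, nsmul_eq_mul] at hsum
  have h10 : ((9 : ℕ) : ℝ) * (5 * q * d) = 45 * (q * d) := by
    push_cast
    ring
  rw [h10] at hsum
  unfold V2
  rw [mul_sub]
  have h11 : ((d : ℝ) + 1) * (d + 2) - 3 * (q * d) ≤ ((d : ℝ) + 2 - q) * (d + 2) := by nlinarith
  have h12 : (48 : ℝ) * q * d = 45 * (q * d) + 3 * (q * d) := by ring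
  rw [h12]
  linarith

/-- division by `q` -/
theorem div_ind {K : ℝ} (hK : 0 < K) (hU : UNB K) {A : Finset ℕ} {m : ℕ → ℕ} {L M d q : ℕ} {ℓ : ℝ}
    (hq : 1 ≤ q) (hqM : q ≤ M) (hL : 1 ≤ L) (hA : ∀ k ∈ A, 9 ≤ k ∧ L ≤ m k ∧ m k ≤ M)
    (hN : Nine m M d) (hsl : m 0 + m 1 + m 2 + 5 * q ≤ d)
    (hℓ : (1 + Real.log (up q M)) ≤ ℓ)
    (hd : 2 * K * M * ℓ ^ 3 + m 0 + 3 * q ≤ d)
    (hV : 4 * K * M ^ 2 * ℓ ^ 6 + 48 * q * d ≤ V2 m d)
    (hUV : (1 + 2 * (q : ℝ) / L) ^ 2 * UU m A ≤ V2 m d - 48 * q * d) :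
    Ind (triD 0 d) (rows m (range 9 ∪ A)) := by
  have hM1 : 1 ≤ M := hq.trans hqM
  have hMd : M ≤ d := (hN.ge (show 0 < 9 by norm_num)).trans (hN.le (by norm_num))
  have hqd : q ≤ d := hqM.trans hMd
  set D : ℕ := (d + 1) / q with hD
  have hD1 : q * D ≤ d + 1 := Nat.mul_div_le (d + 1) q
  have hD2 : d + 1 < q * D + q := by
    have h1 := Nat.div_add_mod (d + 1) q
    have h2 := Nat.mod_lt (d + 1) (show 0 < q by omega)
    rw [← hD] at h1
    omega
  have hDpos : 1 ≤ D := by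
    rw [hD, Nat.le_div_iff_mul_le (by omega)]
    omega
  set g : ℕ → ℕ := fun k => up q (m k) with hg
  have hqr : (1 : ℝ) ≤ q := by exact_mod_cast hq
  have hDr : (((D - 1 : ℕ) : ℕ) : ℝ) = (D : ℝ) - 1 := by
    rw [Nat.cast_sub hDpos, Nat.cast_one]
  have hNg : Nine g (up q M) (D - 1) := by
    refine ⟨?_, up_mono hN.big, ?_⟩
    · intro i j hij hj
      exact up_mono (hN.anti i j hij hj)
    · have h0 := (up_spec hq (m 0)).2
      have h1 := (up_spec hq (m 1)).2
      have h2 := (up_spec hq (m 2)).2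
      have h3 : q * (g 0 + g 1 + g 2) ≤ q * (D - 1) := by
        have h4 : q * (D - 1) + q = q * D := by
          obtain ⟨D', hD'⟩ : ∃ D', D = D' + 1 := ⟨D - 1, by omega⟩
          rw [hD', Nat.add_sub_cancel]
          ring
        show q * (up q (m 0) + up q (m 1) + up q (m 2)) ≤ q * (D - 1)
        rw [mul_add, mul_add]
        omega
      exact Nat.le_of_mul_le_mul_left h3 (by omega)
  have hAg : ∀ k ∈ A, 9 ≤ k ∧ 1 ≤ g k ∧ g k ≤ up q M := by
    intro k hk
    obtain ⟨h1, h2, h3⟩ := hA k hk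
    exact ⟨h1, up_pos hq (by omega), up_mono h3⟩
  have hℓ0 : (0 : ℝ) ≤ Real.log (up q M) := Real.log_natCast_nonneg _
  have hℓ1 : (1 : ℝ) ≤ ℓ := by linarith
  have hqM2 : (q : ℝ) * up q M ≤ 2 * M := by
    have h1 := (up_spec hq M).2
    have h2 : q * up q M ≤ 2 * M := by omega
    exact_mod_cast h2
  have hl3 : (1 + Real.log (up q M)) ^ 3 ≤ ℓ ^ 3 := pow_le_pow_left₀ (by linarith) hℓ 3
  have hl6 : (1 + Real.log (up q M)) ^ 6 ≤ ℓ ^ 6 := pow_le_pow_left₀ (by linarith) hℓ 6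
  have hD2r : (d : ℝ) + 2 ≤ q * D + q := by
    have : d + 2 ≤ q * D + q := by omega
    exact_mod_cast this
  have hdg : (g 0 : ℝ) + K * (up q M) * (1 + Real.log (up q M)) ^ 3 ≤ ((D - 1 : ℕ) : ℝ) := by
    rw [hDr]
    have h1 : (q : ℝ) * ((g 0 : ℝ) + K * (up q M) * (1 + Real.log (up q M)) ^ 3) ≤
        q * ((D : ℝ) - 1) := by
      have h2 : (q : ℝ) * g 0 ≤ m 0 + q := by
        have h3 := (up_spec hq (m 0)).2
        have : q * g 0 ≤ m 0 + q := by
          show q * up q (m 0) ≤ m 0 + q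
          omega
        exact_mod_cast this
      have h4 : (q : ℝ) * (K * (up q M) * (1 + Real.log (up q M)) ^ 3) ≤ 2 * K * M * ℓ ^ 3 := by
        calc (q : ℝ) * (K * (up q M) * (1 + Real.log (up q M)) ^ 3)
            = K * (q * up q M) * (1 + Real.log (up q M)) ^ 3 := by ring
          _ ≤ K * (2 * M) * ℓ ^ 3 := by
              apply mul_le_mul (mul_le_mul_of_nonneg_left hqM2 hK.le) hl3 (by positivity)
                (by positivity)
          _ = _ := by ring
      rw [mul_add, mul_sub, mul_one]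
      linarith
    exact le_of_mul_le_mul_left h1 (by linarith)
  have hV2g : V2 g (D - 1) = (D : ℝ) * (D + 1) -
      ∑ i ∈ range 9, (up q (m i) : ℝ) * (up q (m i) + 1) := by
    unfold V2
    rw [hDr]
    have : ((D : ℝ) - 1 + 1) * (D - 1 + 2) = D * (D + 1) := by ring
    rw [this]
  have hround := V2_round hN hq hqd
  rw [← hD, ← hV2g] at hround
  have hq2 : (0 : ℝ) < (q : ℝ) ^ 2 := by positivity
  have hVg : K * (up q M) ^ 2 * (1 + Real.log (up q M)) ^ 6 ≤ V2 g (D - 1) := by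
    have h1 : (q : ℝ) ^ 2 * (K * (up q M) ^ 2 * (1 + Real.log (up q M)) ^ 6) ≤
        (q : ℝ) ^ 2 * V2 g (D - 1) := by
      refine le_trans ?_ hround
      have h2 : (q : ℝ) ^ 2 * (K * (up q M) ^ 2 * (1 + Real.log (up q M)) ^ 6) ≤
          4 * K * M ^ 2 * ℓ ^ 6 := by
        calc (q : ℝ) ^ 2 * (K * (up q M) ^ 2 * (1 + Real.log (up q M)) ^ 6)
            = K * (q * up q M) ^ 2 * (1 + Real.log (up q M)) ^ 6 := by ring
          _ ≤ K * (2 * M) ^ 2 * ℓ ^ 6 := by
              apply mul_le_mul _ hl6 (by positivity) (by positivity)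
              apply mul_le_mul_of_nonneg_left _ hK.le
              exact pow_le_pow_left₀ (by positivity) hqM2 2
          _ = _ := by ring
      linarith
    exact le_of_mul_le_mul_left h1 hq2
  -- the conditions of the small points
  set η : ℝ := 2 * q / L with hη
  have hLr : (1 : ℝ) ≤ L := by exact_mod_cast hL
  have hη0 : 0 ≤ η := by positivity
  have hηL : η * L = 2 * q := by
    rw [hη]
    field_simp
  have hterm : ∀ k ∈ A, (q : ℝ) ^ 2 * (g k * (g k + 1)) ≤ (1 + η) ^ 2 * (m k * (m k + 1)) := by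
    intro k hk
    have h2 := (up_spec hq (m k)).2
    have hqm : (q : ℝ) * g k ≤ m k + q := by
      have : q * g k ≤ m k + q := by
        show q * up q (m k) ≤ m k + q
        omega
      exact_mod_cast this
    have hmL : (L : ℝ) ≤ m k := by exact_mod_cast (hA k hk).2.1
    have hmk : (0 : ℝ) ≤ m k := by linarith
    have hm0k : (0 : ℝ) ≤ g k := Nat.cast_nonneg _
    have h3 : 2 * (q : ℝ) ≤ η * m k := by
      rw [← hηL]
      exact mul_le_mul_of_nonneg_left hmL hη0
    have h4 : (q : ℝ) * g k ≤ (1 + η) * m k := by linarith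
    have h5 : (q : ℝ) * (g k + 1) ≤ (1 + η) * (m k + 1) := by
      have : (q : ℝ) * (g k + 1) = q * g k + q := by ring
      rw [this]
      nlinarith
    calc (q : ℝ) ^ 2 * (g k * (g k + 1)) = (q * g k) * (q * (g k + 1)) := by ring
      _ ≤ ((1 + η) * m k) * ((1 + η) * (m k + 1)) := by
          apply mul_le_mul h4 h5 (by positivity) (by positivity)
      _ = (1 + η) ^ 2 * (m k * (m k + 1)) := by ring
  have hsum : (q : ℝ) ^ 2 * (UU g A : ℝ) ≤ (1 + η) ^ 2 * (UU m A : ℝ) := by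
    unfold UU
    push_cast
    rw [mul_sum, mul_sum]
    exact sum_le_sum hterm
  have hUg : (UU g A : ℝ) ≤ V2 g (D - 1) := by
    apply le_of_mul_le_mul_left _ hq2
    exact hsum.trans (hUV.trans hround)
  have h13 : Ind (triD 0 (D - 1)) (rows g (range 9 ∪ A)) :=
    (hU A g (up q M) (D - 1) hAg hNg (up_pos hq hM1) hdg).1 hVg hUg
  have h14 := ind_mul hDpos h13 (by
    intro k hk
    rcases mem_union.1 hk with h | h
    · exact up_pos hq (hM1.trans (hN.ge (mem_range.1 h)))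
    · exact (hAg k h).2.1) hq
  apply h14.mono
  · intro p hp
    rw [mem_triD] at hp ⊢
    omega
  · intro r hr
    rw [mem_rows] at hr ⊢
    have h15 : m r.1 ≤ q * g r.1 := (up_spec hq (m r.1)).1
    exact ⟨hr.1, by omega⟩

end Pool.Agent.Helper94.AN
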