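import Pool.Agent.Helper94.GA.FI

/-!
# Index `f` wrapper with an arbitrary constant
-/

set_option autoImplicit false

namespace Pool.Agent.Helper94.AN

open Pointwise Filter Topology
open Pool.Agent.Helper11.Gap (Sym)
open Pool.Agent.Helper94.GA

universe u v w

/-- The general index `f` wrapper. -/
theorem fi_wrap {Γ : Type u} [Group Γ] [DecidableEq Γ] (S : Finset Γ) (hne : S.Nonempty)
    (hsymm : ∀ s ∈ S, s⁻¹ ∈ S) {Q : Type v} [Group Q]
    (φ : Subgroup.closure (S : Set Γ) →* Q) (hφ : Function.Surjective φ) (H : Subgroup Q) (f : ℕ)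
    (hf : 0 < f) (hH : H.index = f) {P : Type w} [Group P] (θ : H →* P)
    (hθ : Function.Surjective θ) (C₀ : ℝ) (hC₀ : 0 < C₀)
    (main : ∀ (Γ' : Type u) [Group Γ'] [DecidableEq Γ'] (S' : Finset Γ'), S'.Nonempty →
      (∀ s ∈ S', s⁻¹ ∈ S') → ∀ ψ : Subgroup.closure (S' : Set Γ') →* P, Function.Surjective ψ →
      ∃ ρ : ℝ, Tendsto (fun n : ℕ => Real.log ((S' ^ n).card : ℝ) / n) atTop (𝓝 ρ) ∧
        ∃ lam : ℂ, lam ≠ 0 ∧ IsIntegral ℤ lam ∧ IsIntegral ℤ lam⁻¹ ∧
          (∀ k : ℕ, 0 < k → lam ^ k ≠ 1) ∧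
          (1 / C₀) *
            min 1 (Real.log ((minpoly ℤ lam).map (Int.castRingHom ℂ)).mahlerMeasure) ≤ ρ) :
    ∃ ρ : ℝ, Tendsto (fun n : ℕ => Real.log ((S ^ n).card : ℝ) / n) atTop (𝓝 ρ) ∧
      ∃ lam : ℂ, lam ≠ 0 ∧ IsIntegral ℤ lam ∧ IsIntegral ℤ lam⁻¹ ∧
        (∀ k : ℕ, 0 < k → lam ^ k ≠ 1) ∧
        (1 / (C₀ * (2 * f - 1))) *
          min 1 (Real.log ((minpoly ℤ lam).map (Int.castRingHom ℂ)).mahlerMeasure) ≤ ρ := by
  classical
  subst hH
  obtain ⟨ρ, hρ⟩ := Pool.Agent.Helper11.Gap.exists_rate S hne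
  refine ⟨ρ, hρ, ?_⟩
  obtain ⟨C, hC⟩ : ∃ C : Subgroup Γ, C = Subgroup.closure (S : Set Γ) := ⟨_, rfl⟩
  subst hC
  set T : Finset (Subgroup.closure (S : Set Γ)) :=
    Finset.subtype (fun x => x ∈ Subgroup.closure (S : Set Γ)) (insert 1 S) with hTdef
  have hTmem : ∀ x : Subgroup.closure (S : Set Γ), x ∈ T ↔ (x : Γ) = 1 ∨ (x : Γ) ∈ S := by
    intro x
    rw [hTdef, Finset.mem_subtype, Finset.mem_insert]
  have hTsym : Sym T := by
    constructor
    · rw [hTmem]; exact Or.inl rfl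
    · intro x hx
      rw [hTmem] at hx ⊢
      rcases hx with hx | hx
      · left; rw [Subgroup.coe_inv, hx, inv_one]
      · right; exact hsymm _ hx
  have hgen : Subgroup.closure (T : Set (Subgroup.closure (S : Set Γ))) = ⊤ := by
    rw [eq_top_iff, ← Subgroup.closure_closure_coe_preimage (k := (S : Set Γ))]
    apply Subgroup.closure_mono
    intro x hx
    rw [Finset.mem_coe, hTmem]
    exact Or.inr hx
  have himg : T.image (Subgroup.closure (S : Set Γ)).subtype = insert 1 S := by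
    ext x
    rw [Finset.mem_image]
    constructor
    · rintro ⟨y, hy, rfl⟩
      rw [hTmem] at hy
      rw [Finset.mem_insert]
      exact hy
    · intro hx
      rw [Finset.mem_insert] at hx
      have hxC : x ∈ Subgroup.closure (S : Set Γ) := by
        rcases hx with rfl | hx
        · exact Subgroup.one_mem _
        · exact Subgroup.subset_closure hx
      exact ⟨⟨x, hxC⟩, (hTmem _).2 hx, rfl⟩
  have hindex : (H.comap φ).index = H.index := Subgroup.index_comap_of_surjective H hφ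
  have hcomap0 : (H.comap φ).index ≠ 0 := by rw [hindex]; exact hf.ne'
  obtain ⟨T', hT', hgen', hmem⟩ := Pool.Agent.Helper84.RO.exists_gen hTsym hgen (H.comap φ) hcomap0
  rw [hindex] at hmem
  -- the quotient map
  obtain ⟨ψ, hψ⟩ : ∃ ψ : Subgroup.closure (T' : Set (H.comap φ)) →* P,
      ψ = (θ.comp (φ.subgroupComap H)).comp
        (Subgroup.closure (T' : Set (H.comap φ))).subtype := ⟨_, rfl⟩
  have hψs : Function.Surjective ψ := by
    intro q
    obtain ⟨x, rfl⟩ := hθ q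
    obtain ⟨y, rfl⟩ := φ.subgroupComap_surjective_of_surjective H hφ x
    refine ⟨⟨y, by rw [hgen']; exact Subgroup.mem_top _⟩, ?_⟩
    rw [hψ]
    rfl
  obtain ⟨ρ', hρ', lam, hl0, hl1, hl2, hl3, hl4⟩ :=
    main (H.comap φ) T' ⟨1, hT'.one⟩ (fun s hs => hT'.inv s hs) ψ hψs
  refine ⟨lam, hl0, hl1, hl2, hl3, ?_⟩
  obtain ⟨F, hFdef⟩ : ∃ F : ℕ, F = 2 * H.index - 1 := ⟨_, rfl⟩
  have hF : 0 < F := by omega
  have hcast : (2 * (H.index : ℝ) - 1) = F := by
    rw [hFdef, Nat.cast_sub (by omega)]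
    push_cast
    ring
  have hcard : ∀ n, (T' ^ n).card ≤ 2 * (S ^ (F * n + 1)).card := by
    intro n
    have h1 : (T' ^ n).image (H.comap φ).subtype ⊆ T ^ (F * n) := by
      have h1 : (T' ^ n).image (H.comap φ).subtype = (T'.image (H.comap φ).subtype) ^ n :=
        Finset.image_pow _ _ _
      rw [h1, pow_mul T]
      apply Finset.pow_subset_pow_left
      intro x hx
      obtain ⟨y, hy, rfl⟩ := Finset.mem_image.1 hx
      rw [hFdef]
      exact hmem y hy
    have h2 : (T' ^ n).card ≤ (T ^ (F * n)).card := by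
      rw [← Finset.card_image_of_injective (T' ^ n) (H.comap φ).subtype_injective]
      exact Finset.card_le_card h1
    have h3 : ((insert 1 S) ^ (F * n)).card = (T ^ (F * n)).card := by
      rw [← himg, ← Finset.image_pow,
        Finset.card_image_of_injective _ (Subgroup.closure (S : Set Γ)).subtype_injective]
    rw [← h3] at h2
    exact h2.trans (Pool.Agent.Helper11.Gap.card_insert_pow_le S hne hsymm (F * n))
  have hle : ρ' ≤ F * ρ := by
    refine rate_compare (fun n => Real.log ((T' ^ n).card : ℝ)) (fun n => Real.log ((S ^ n).card : ℝ))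
      F hF ρ' ρ hρ' hρ fun n => ?_
    have h1 : (0 : ℝ) < ((T' ^ n).card : ℝ) := by
      exact_mod_cast (Finset.card_pos.2 ⟨1, hT'.one_mem_pow n⟩)
    have h2 : (0 : ℝ) < ((S ^ (F * n + 1)).card : ℝ) := by
      exact_mod_cast (hne.pow).card_pos
    show Real.log ((T' ^ n).card : ℝ) ≤ Real.log 2 + Real.log ((S ^ (F * n + 1)).card : ℝ)
    rw [← Real.log_mul (by norm_num) h2.ne']
    apply Real.log_le_log h1
    exact_mod_cast hcard n
  have hF' : (0 : ℝ) < F := by exact_mod_cast hF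
  rw [hcast]
  have h9 : (1 / C₀) * min 1 (Real.log ((minpoly ℤ lam).map (Int.castRingHom ℂ)).mahlerMeasure) ≤
      F * ρ := hl4.trans hle
  have e : (1 / (C₀ * (F : ℝ))) *
      min 1 (Real.log ((minpoly ℤ lam).map (Int.castRingHom ℂ)).mahlerMeasure) =
      ((1 / C₀) * min 1 (Real.log ((minpoly ℤ lam).map (Int.castRingHom ℂ)).mahlerMeasure)) / F := by
    field_simp
  rw [e, div_le_iff₀ hF']
  linarith [mul_comm (F : ℝ) ρ]


end Pool.Agent.Helper94.AN
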