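import Pool.Agent.Helper94.AN.HI
import Pool.Agent.Helper94.AN.Clu
import Pool.Agent.Helper94.AM.WindI

/-!
# Nine largest multiplicities free, all multiplicities (MP_d3128a_ag): independent conditions above
the window, with slack: the theorem
-/

set_option autoImplicit false

namespace Pool.Agent.Helper94.AN

open Finset Pool.Agent.Lead.Sh
open Pool.Agent.Helper94.AM

theorem hin {K : ℝ} (hK : 1 ≤ K) (hU : UNB K) (hUW : UWI) : HIN (10 ^ 8 * K) := by
  intro A m M d t hA hN hM1 ht hd hV hsl hUV
  have hMr : (1 : ℝ) ≤ M := by exact_mod_cast hM1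
  have hMdn : M ≤ d := (hN.ge (show 0 < 9 by norm_num)).trans (hN.le (by norm_num))
  have hMd : (M : ℝ) ≤ d := by exact_mod_cast hMdn
  have hK0 : 0 < K := by linarith
  have hVnn : 0 ≤ V2 m d := le_trans (by positivity) hV
  have hd0 : (0 : ℝ) ≤ d := Nat.cast_nonneg _
  have hS0 : 0 ≤ (d : ℝ) * M + V2 m d := by positivity
  by_cases hcase : (M : ℝ) ≤ Real.exp (10 * t)
  · -- the base theorem
    obtain ⟨h1, h2⟩ := base_bd hK0 ht hcase
    apply (hU A m M d hA hN hM1 (by linarith)).1 (by linarith)
    have h3 : 0 ≤ Real.exp (-t) * (d * M + V2 m d) := mul_nonneg (Real.exp_pos _).le hS0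
    linarith
  push Not at hcase
  obtain ⟨L0, a, l1, l2, a1, a2, a3, l3, l4, a4, a5, hlast⟩ := params2 ht hcase
  set X : ℝ := Real.exp t with hX
  have hX0 : 0 < X := Real.exp_pos t
  have hX1 : (1024 : ℝ) ≤ X := big3 ht
  have hX10 : Real.exp (10 * t) = X ^ 10 := by
    rw [hX, ← Real.exp_nat_mul]
    norm_num
  have hεX : Real.exp (-t) = 1 / X := by
    rw [Real.exp_neg, one_div]
  have hM0 : (0 : ℝ) < M := by linarith
  have hcase' := hcase
  rw [hX10] at hcase
  have har : (1 : ℝ) ≤ a := by exact_mod_cast a1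
  have haa : (0 : ℝ) < (a : ℝ) * (a + 1) := by positivity
  set Tr : ℝ := (1 - 1 / (16 * X)) * ((a : ℝ) * (a + 1)) with hTr
  have h16X : 1 / (16 * X) ≤ 1 / 2 := by
    apply one_div_le_one_div_of_le (by norm_num)
    linarith
  have hTr0 : 0 ≤ Tr := by
    rw [hTr]
    apply mul_nonneg _ haa.le
    linarith
  set W : ℕ := ⌊Tr⌋₊ with hW
  have w1 : (W : ℝ) ≤ Tr := Nat.floor_le hTr0
  have w2 : Tr < W + 1 := Nat.lt_floor_add_one _
  set w : ℕ := L0 * L0 with hw
  -- sizes
  have s1 : 1 + (L0 : ℝ) * L0 ≤ 1 / (16 * X) * ((a : ℝ) * (a + 1)) := by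
    have b1 : (L0 : ℝ) * L0 ≤ (2 * M / X ^ 4) * (2 * M / X ^ 4) :=
      mul_le_mul l4 l4 (Nat.cast_nonneg _) (by positivity)
    have b2 : ((M : ℝ) / X ^ 2) * (M / X ^ 2) ≤ a * (a + 1) := by
      apply mul_le_mul a4 (by linarith) (by positivity) (by linarith)
    have b3 : 1 / (16 * X) * (((M : ℝ) / X ^ 2) * (M / X ^ 2)) ≤
        1 / (16 * X) * ((a : ℝ) * (a + 1)) := mul_le_mul_of_nonneg_left b2 (by positivity)
    refine le_trans ?_ b3
    set Y : ℝ := (M : ℝ) ^ 2 / X ^ 5 with hY
    have b4 : 1 / (16 * X) * (((M : ℝ) / X ^ 2) * (M / X ^ 2)) = Y / 16 := by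
      rw [hY]; field_simp
    have b5 : (2 * (M : ℝ) / X ^ 4) * (2 * M / X ^ 4) = 4 * Y / X ^ 3 := by
      rw [hY]; field_simp; ring
    have b6 : 32 ≤ Y := by
      rw [hY, le_div_iff₀ (by positivity)]
      have c1 : (X ^ 10) ^ 2 ≤ (M : ℝ) ^ 2 := pow_le_pow_left₀ (by positivity) hcase.le 2
      refine le_trans ?_ c1
      have c2 : (X ^ 10) ^ 2 = X ^ 15 * X ^ 5 := by ring
      rw [c2]
      apply mul_le_mul_of_nonneg_right _ (by positivity)
      calc (32 : ℝ) ≤ X ^ 1 := by rw [pow_one]; linarith
        _ ≤ X ^ 15 := pow_le_pow_right₀ (by linarith) (by norm_num)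
    have b7 : 4 * Y / X ^ 3 ≤ Y / 32 := by
      rw [div_le_div_iff₀ (by positivity) (by norm_num)]
      have c1 : (128 : ℝ) ≤ X ^ 3 := by
        calc (128 : ℝ) ≤ X ^ 1 := by rw [pow_one]; linarith only [hX1]
          _ ≤ X ^ 3 := pow_le_pow_right₀ (by linarith only [hX1]) (by norm_num)
      have c2 := mul_le_mul_of_nonneg_left c1 (show (0 : ℝ) ≤ Y by linarith only [b6])
      linarith only [c2]
    rw [b4]
    rw [b5] at b1
    linarith
  have hw' : (w : ℝ) = L0 * L0 := by rw [hw]; push_cast; ring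
  have hTr2 : Tr = (a : ℝ) * (a + 1) - 1 / (16 * X) * ((a : ℝ) * (a + 1)) := by
    rw [hTr]; ring
  have s2 : (1 - 1 / (8 * X)) * ((a : ℝ) * (a + 1)) ≤ (W : ℝ) - w := by
    have e1 : (1 - 1 / (8 * X)) * ((a : ℝ) * (a + 1)) =
        Tr - 1 / (16 * X) * ((a : ℝ) * (a + 1)) := by
      rw [hTr2]; field_simp; ring
    rw [e1, hw']
    linarith
  have h8X : 1 / (8 * X) ≤ 1 / 2 := by
    apply one_div_le_one_div_of_le (by norm_num)
    linarith
  have hwW : w < W := by
    have : (w : ℝ) < W := by
      have e1 : 0 < (1 - 1 / (8 * X)) * ((a : ℝ) * (a + 1)) := by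
        apply mul_pos _ haa
        linarith
      linarith
    exact_mod_cast this
  have hWa : W ≤ a * (a + 1) := by
    have : (W : ℝ) ≤ (a : ℝ) * (a + 1) := by
      refine w1.trans ?_
      rw [hTr2]
      have : 0 ≤ 1 / (16 * X) * ((a : ℝ) * (a + 1)) := by positivity
      linarith
    exact_mod_cast this
  have hdisj : Disjoint (range 9) A := by
    rw [disjoint_left]
    intro x hx hxA
    have h1 := mem_range.1 hx
    have h2 := (hA x hxA).1
    omega
  apply clusters_ind (T := range 9) a1 a2 a3 (L0 := L0) (W := W) (w := w) (M := M) (d := d) _ hwW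
    (by omega) _ (a * (a + 1) * UU m A) m _ A m (fun _ _ => rfl) hdisj
    (fun k hk => (hA k hk).2)
  · -- the value of the potential
    have h1 := UU_filter m A L0
    have h2 : (W - w) * UU m (A.filter (fun i => L0 ≤ m i)) ≤
        a * (a + 1) * UU m (A.filter (fun i => L0 ≤ m i)) :=
      Nat.mul_le_mul_right _ (by omega)
    calc _ ≤ a * (a + 1) * UU m (A.filter (fun i => L0 ≤ m i)) +
          a * (a + 1) * UU m (A.filter (fun i => m i < L0)) := Nat.add_le_add_right h2 _
      _ = a * (a + 1) * UU m A := by rw [← mul_add, h1]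
  · intro j hj
    calc j * (j + 1) ≤ L0 * L0 := Nat.mul_le_mul hj.le (by omega)
      _ = w := rfl
  · -- clusters
    intro B m' hB hBW
    apply hi hUW L0 l1 B m' (a - 1) (t + 3)
    · intro k hk
      exact ⟨(hB k hk).1, (hB k hk).2.le⟩
    · linarith
    · refine le_trans ?_ hlast
      apply mul_le_mul_of_nonneg_right _ (Nat.cast_nonneg _)
      apply mul_le_mul_of_nonneg_right _ (by positivity)
      exact pow_le_pow_right₀ (by norm_num) (by norm_num)
    · have h1 : (UU m' B : ℝ) ≤ W := by exact_mod_cast hBW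
      refine h1.trans (w1.trans ?_)
      rw [hTr, Nat.cast_sub a1, Nat.cast_one]
      have e1 : ((a : ℝ) - 1 + 1) * (a - 1 + 2) = a * (a + 1) := by ring
      rw [e1]
      apply mul_le_mul_of_nonneg_right _ haa.le
      have e2 : Real.exp (-(t + 3)) ≤ 1 / (16 * X) := by
        rw [Real.exp_neg, ← one_div]
        apply one_div_le_one_div_of_le (by positivity)
        rw [Real.exp_add, mul_comm]
        exact mul_le_mul_of_nonneg_left exp_three hX0.le
      linarith
  · -- large points
    intro A' m' hT' hTA' hA' hΦ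
    have e0 : m' 0 = m 0 := hT' 0 (mem_range.2 (by norm_num))
    have e1 : m' 1 = m 1 := hT' 1 (mem_range.2 (by norm_num))
    have e2 : m' 2 = m 2 := hT' 2 (mem_range.2 (by norm_num))
    have eV : V2 m' d = V2 m d := V2_congr hT'
    apply step_large hK hU ht hcase' l1 l3 (L0 := L0) (A := A') (m := m') (M := M) (d := d)
    · intro k hk
      refine ⟨?_, (hA' k hk).1, (hA' k hk).2.2⟩
      by_contra h
      exact disjoint_left.mp hTA' (mem_range.2 (by omega)) hk
    · exact hN.congr hT'
    · rw [e0]; exact hd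
    · rw [eV]; exact hV
    · rw [e0, e1, e2]; exact hsl
    · rw [eV]
      have h1 : ((W : ℝ) - w) * UU m' A' ≤
          (a * (a + 1)) * UU m A + (W - w) * (a * (a + 1)) := by
        have h2 : (((W - w) * UU m' A' : ℕ) : ℝ) ≤
            ((a * (a + 1) * UU m A + (W - w) * (a * (a + 1)) : ℕ) : ℝ) := by exact_mod_cast hΦ
        have h3 : ((W - w : ℕ) : ℝ) = (W : ℝ) - w := Nat.cast_sub hwW.le
        push_cast at h2
        rw [h3] at h2
        exact h2
      set N' : ℝ := (UU m' A' : ℝ) with hN'
      set N0 : ℝ := (UU m A : ℝ) with hN0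
      set aa : ℝ := (a : ℝ) * (a + 1) with haa'
      have hN00 : 0 ≤ N0 := Nat.cast_nonneg _
      -- `a (a + 1)` is small
      have h4 : aa ≤ 1 / (4 * X) * (d * M) := by
        have c1 : aa ≤ 2 * ((a : ℝ) * a) := by
          rw [haa']
          nlinarith only [har]
        have c2 : (a : ℝ) * a ≤ (2 * M / X ^ 2) * (2 * M / X ^ 2) :=
          mul_le_mul a5 a5 (by linarith) (by positivity)
        have c3 : (M : ℝ) * M ≤ d * M := mul_le_mul_of_nonneg_right hMd hM0.le
        have c4 : (2 * (M : ℝ) / X ^ 2) * (2 * M / X ^ 2) = 4 * (M * M) / X ^ 4 := by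
          field_simp
          ring
        have c5 : 4 * ((M : ℝ) * M) / X ^ 4 ≤ 1 / (8 * X) * (M * M) := by
          rw [div_le_iff₀ (by positivity)]
          have c6 : 1 / (8 * X) * ((M : ℝ) * M) * X ^ 4 = (M * M) * (X ^ 3 / 8) := by
            field_simp
          rw [c6]
          have c7 : (64 : ℝ) ≤ X ^ 3 := by
            calc (64 : ℝ) ≤ X ^ 1 := by rw [pow_one]; linarith
              _ ≤ X ^ 3 := pow_le_pow_right₀ (by linarith) (by norm_num)
          have c8 : 0 ≤ (M : ℝ) * M := by positivity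
          nlinarith only [c7, c8]
        have c6 : 1 / (8 * X) * ((M : ℝ) * M) ≤ 1 / (8 * X) * (d * M) :=
          mul_le_mul_of_nonneg_left c3 (by positivity)
        have c7 : 2 * (1 / (8 * X) * ((d : ℝ) * M)) = 1 / (4 * X) * (d * M) := by
          field_simp
          ring
        rw [c4] at c2
        linarith
      -- the main estimate
      have hN0V : N0 ≤ V2 m d := by
        have h3 : 0 ≤ Real.exp (-t) * (d * M + V2 m d) := mul_nonneg (Real.exp_pos _).le hS0
        linarith
      have h5 : N' - aa ≤ N0 + 1 / (4 * X) * V2 m d := by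
        by_cases h6 : N' ≤ aa
        · have : 0 ≤ N0 + 1 / (4 * X) * V2 m d := by positivity
          linarith
        · push Not at h6
          have h7 : (1 - 1 / (8 * X)) * aa * (N' - aa) ≤ aa * N0 := by
            calc (1 - 1 / (8 * X)) * aa * (N' - aa) ≤ ((W : ℝ) - w) * (N' - aa) := by
                  apply mul_le_mul_of_nonneg_right s2
                  linarith
              _ ≤ aa * N0 := by
                  rw [mul_sub]
                  linarith
          have h8 : (1 - 1 / (8 * X)) * (N' - aa) ≤ N0 := by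
            have h9 : aa * ((1 - 1 / (8 * X)) * (N' - aa)) ≤ aa * N0 := by
              calc aa * ((1 - 1 / (8 * X)) * (N' - aa)) = (1 - 1 / (8 * X)) * aa * (N' - aa) := by
                    ring
                _ ≤ _ := h7
            exact le_of_mul_le_mul_left h9 haa
          have h9 : N0 ≤ (1 - 1 / (8 * X)) * (N0 + 1 / (4 * X) * N0) := by
            have e3 : (1 - 1 / (8 * X)) * (N0 + 1 / (4 * X) * N0) =
                N0 + N0 * (1 / (8 * X) * (1 - 1 / (4 * X))) := by
              field_simp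
              ring
            rw [e3]
            have e4 : 1 / (4 * X) ≤ 1 := by
              rw [div_le_one (by positivity)]
              linarith
            have e5 : 0 ≤ N0 * (1 / (8 * X) * (1 - 1 / (4 * X))) := by
              apply mul_nonneg hN00
              apply mul_nonneg (by positivity)
              linarith
            linarith
          have h10 : 0 < 1 - 1 / (8 * X) := by linarith
          have h11 : N' - aa ≤ N0 + 1 / (4 * X) * N0 := le_of_mul_le_mul_left (h8.trans h9) h10
          have h12 : 1 / (4 * X) * N0 ≤ 1 / (4 * X) * V2 m d :=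
            mul_le_mul_of_nonneg_left hN0V (by positivity)
          linarith
      rw [hεX] at hUV
      have e3 : 1 / X * (d * M + V2 m d) = 4 * (1 / (4 * X) * (d * M)) +
          4 * (1 / (4 * X) * V2 m d) := by
        field_simp
      have e4 : 1 / (2 * X) * (d * M + V2 m d) = 2 * (1 / (4 * X) * (d * M)) +
          2 * (1 / (4 * X) * V2 m d) := by
        field_simp
        ring
      rw [e3] at hUV
      rw [e4]
      have h13 : 0 ≤ 1 / (4 * X) * ((d : ℝ) * M) := by positivity
      have h14 : 0 ≤ 1 / (4 * X) * V2 m d := by positivity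
      linarith

end Pool.Agent.Helper94.AN
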