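import Pool.Agent.Helper94.AN.HJ2
import Pool.Agent.Helper94.AN.HI2
import Pool.Agent.Helper94.AM.WindJ

/-!
# Nine largest multiplicities free, all multiplicities (MP_d3128a_ag): emptiness below the window, the
theorem
-/

set_option autoImplicit false

namespace Pool.Agent.Helper94.AN

open Finset Pool.Agent.Lead.Sh
open Pool.Agent.Helper94.AM

theorem hjn {K : ℝ} (hK : 1 ≤ K) (hU : UNB K) (hUW : UWI) : HJN (10 ^ 11 * K) := by
  intro A m M d t hA hN hM1 ht hd hV hUV
  have hMr : (1 : ℝ) ≤ M := by exact_mod_cast hM1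
  have hMdn : M ≤ d := (hN.ge (show 0 < 9 by norm_num)).trans (hN.le (by norm_num))
  have hMd : (M : ℝ) ≤ d := by exact_mod_cast hMdn
  have hK0 : 0 < K := by linarith
  have hd0 : (0 : ℝ) ≤ d := Nat.cast_nonneg _
  have hV2 := hN.V2_ge
  have hS0 : 0 ≤ (d : ℝ) * M + V2 m d := by
    have : 0 ≤ (d : ℝ) * M := by positivity
    linarith
  have ht0 : (0 : ℝ) < t := by linarith
  have ht3 : (1 : ℝ) ≤ t ^ 3 := one_le_pow₀ (by linarith)
  have ht6 : (1 : ℝ) ≤ t ^ 6 := one_le_pow₀ (by linarith)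
  have hKM : 0 ≤ K * t ^ 3 * M := by positivity
  have hKM2 : (M : ℝ) ^ 2 ≤ K * t ^ 6 * M ^ 2 := by
    have h1 : (1 : ℝ) ≤ K * t ^ 6 := one_le_mul_of_one_le_of_one_le hK ht6
    exact le_mul_of_one_le_left (by positivity) h1
  have c3 : (10 : ℝ) ^ 11 * K * t ^ 3 * M = 10 ^ 11 * (K * t ^ 3 * M) := by ring
  have c6 : (10 : ℝ) ^ 11 * K * t ^ 6 * M ^ 2 = 10 ^ 11 * (K * t ^ 6 * M ^ 2) := by ring
  rw [c3] at hd
  rw [c6] at hV
  by_cases hcase : (M : ℝ) ≤ Real.exp (10 * t)
  · -- the base theorem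
    obtain ⟨h1, h2⟩ := base_bd hK0 ht hcase
    have d3 : (10 : ℝ) ^ 8 * K * t ^ 3 * M = 10 ^ 8 * (K * t ^ 3 * M) := by ring
    have d6 : (10 : ℝ) ^ 8 * K * t ^ 6 * M ^ 2 = 10 ^ 8 * (K * t ^ 6 * M ^ 2) := by ring
    rw [d3] at h1
    rw [d6] at h2
    apply (hU A m M d hA hN hM1 (by linarith)).2
    · have h4 : 0 ≤ K * t ^ 6 * (M : ℝ) ^ 2 := le_trans (by positivity) hKM2
      rcases hV with h | h
      · left; linarith
      · right; linarith
    · have h3 : 0 ≤ Real.exp (-t) * (d * M + V2 m d) := mul_nonneg (Real.exp_pos _).le hS0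
      linarith
  push Not at hcase
  obtain ⟨L0, a, l1, l2, a1, a2, a3, l3, l4, a4, a5, hlast⟩ := params2 ht hcase
  set X : ℝ := Real.exp t with hX
  have hX0 : 0 < X := Real.exp_pos t
  have hX1 : (1024 : ℝ) ≤ X := big3 ht
  have hX10 : Real.exp (10 * t) = X ^ 10 := by
    rw [hX, ← Real.exp_nat_mul]
    norm_num
  have hεX : Real.exp (-t) = 1 / X := by
    rw [Real.exp_neg, one_div]
  have hM0 : (0 : ℝ) < M := by linarith
  have hcase' := hcase
  rw [hX10] at hcase
  have har : (1 : ℝ) ≤ a := by exact_mod_cast a1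
  have haa : (0 : ℝ) < (a : ℝ) * (a + 1) := by positivity
  set Tr : ℝ := (1 + 1 / (16 * X)) * ((a : ℝ) * (a + 1)) with hTr
  have hTr0 : 0 < Tr := by positivity
  set W : ℕ := ⌈Tr⌉₊ with hW
  have w1 : Tr ≤ (W : ℝ) := Nat.le_ceil _
  have w2 : (W : ℝ) < Tr + 1 := Nat.ceil_lt_add_one hTr0.le
  set w : ℕ := L0 * L0 with hw
  -- sizes
  have s1 : 1 + (L0 : ℝ) * L0 ≤ 1 / (16 * X) * ((a : ℝ) * (a + 1)) := by
    have b1 : (L0 : ℝ) * L0 ≤ (2 * M / X ^ 4) * (2 * M / X ^ 4) :=
      mul_le_mul l4 l4 (Nat.cast_nonneg _) (by positivity)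
    have b2 : ((M : ℝ) / X ^ 2) * (M / X ^ 2) ≤ a * (a + 1) := by
      apply mul_le_mul a4 (by linarith) (by positivity) (by linarith)
    have b3 : 1 / (16 * X) * (((M : ℝ) / X ^ 2) * (M / X ^ 2)) ≤
        1 / (16 * X) * ((a : ℝ) * (a + 1)) := mul_le_mul_of_nonneg_left b2 (by positivity)
    refine le_trans ?_ b3
    set Y : ℝ := (M : ℝ) ^ 2 / X ^ 5 with hY
    have b4 : 1 / (16 * X) * (((M : ℝ) / X ^ 2) * (M / X ^ 2)) = Y / 16 := by
      rw [hY]; field_simp
    have b5 : (2 * (M : ℝ) / X ^ 4) * (2 * M / X ^ 4) = 4 * Y / X ^ 3 := by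
      rw [hY]; field_simp; ring
    have b6 : 32 ≤ Y := by
      rw [hY, le_div_iff₀ (by positivity)]
      have c1 : (X ^ 10) ^ 2 ≤ (M : ℝ) ^ 2 := pow_le_pow_left₀ (by positivity) hcase.le 2
      refine le_trans ?_ c1
      have c2 : (X ^ 10) ^ 2 = X ^ 15 * X ^ 5 := by ring
      rw [c2]
      apply mul_le_mul_of_nonneg_right _ (by positivity)
      calc (32 : ℝ) ≤ X ^ 1 := by rw [pow_one]; linarith
        _ ≤ X ^ 15 := pow_le_pow_right₀ (by linarith) (by norm_num)
    have b7 : 4 * Y / X ^ 3 ≤ Y / 32 := by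
      rw [div_le_div_iff₀ (by positivity) (by norm_num)]
      have c1 : (128 : ℝ) ≤ X ^ 3 := by
        calc (128 : ℝ) ≤ X ^ 1 := by rw [pow_one]; linarith only [hX1]
          _ ≤ X ^ 3 := pow_le_pow_right₀ (by linarith only [hX1]) (by norm_num)
      have c2 := mul_le_mul_of_nonneg_left c1 (show (0 : ℝ) ≤ Y by linarith only [b6])
      linarith only [c2]
    rw [b4]
    rw [b5] at b1
    linarith
  have hw' : (w : ℝ) = L0 * L0 := by rw [hw]; push_cast; ring
  have hTr2 : Tr = (a : ℝ) * (a + 1) + 1 / (16 * X) * ((a : ℝ) * (a + 1)) := by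
    rw [hTr]; ring
  have s2 : (W : ℝ) + w ≤ (1 + 1 / (8 * X)) * ((a : ℝ) * (a + 1)) := by
    have e1 : (1 + 1 / (8 * X)) * ((a : ℝ) * (a + 1)) =
        Tr + 1 / (16 * X) * ((a : ℝ) * (a + 1)) := by
      rw [hTr2]; field_simp; ring
    rw [e1, hw']
    linarith
  have h8X : 1 / (8 * X) ≤ 1 / 2 := by
    apply one_div_le_one_div_of_le (by norm_num)
    linarith
  have hWa : a * (a + 1) ≤ W := by
    have : (a : ℝ) * (a + 1) ≤ W := by
      refine le_trans ?_ w1
      rw [hTr2]
      have : 0 ≤ 1 / (16 * X) * ((a : ℝ) * (a + 1)) := by positivity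
      linarith
    exact_mod_cast this
  have hW1 : 1 ≤ W := by
    exact le_trans (Nat.mul_pos a1 (Nat.succ_pos a)) hWa
  have hdisj : Disjoint (range 9) A := by
    rw [disjoint_left]
    intro x hx hxA
    have h1 := mem_range.1 hx
    have h2 := (hA x hxA).1
    omega
  apply clusters_inj (T := range 9) a1 a2 a3 (L0 := L0) (W := W) (w := w) (M := M) (d := d) _ hW1
    (by omega) _ (a * (a + 1) * UU m A) m _ A m (fun _ _ => rfl) hdisj
    (fun k hk => (hA k hk).2)
  · -- the value of the potential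
    have h1 := UU_filter m A L0
    have h2 : a * (a + 1) * UU m (A.filter (fun i => L0 ≤ m i)) ≤
        (W + w) * UU m (A.filter (fun i => L0 ≤ m i)) :=
      Nat.mul_le_mul_right _ (by omega)
    calc a * (a + 1) * UU m A = a * (a + 1) * UU m (A.filter (fun i => L0 ≤ m i)) +
          a * (a + 1) * UU m (A.filter (fun i => m i < L0)) := by rw [← mul_add, h1]
      _ ≤ _ := Nat.add_le_add_right h2 _
  · intro j hj
    calc j * (j + 1) ≤ L0 * L0 := Nat.mul_le_mul hj.le (by omega)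
      _ = w := rfl
  · -- clusters
    intro B m' hB hBW
    apply hj hUW L0 l1 B m' (a - 1) (t + 3)
    · intro k hk
      exact ⟨(hB k hk).1, (hB k hk).2.le⟩
    · linarith
    · refine le_trans ?_ hlast
      apply mul_le_mul_of_nonneg_right _ (Nat.cast_nonneg _)
      apply mul_le_mul_of_nonneg_right _ (by positivity)
      exact pow_le_pow_right₀ (by norm_num) (by norm_num)
    · have h1 : (W : ℝ) ≤ (UU m' B : ℝ) := by exact_mod_cast hBW
      refine le_trans ?_ (w1.trans h1)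
      rw [hTr, Nat.cast_sub a1, Nat.cast_one]
      have e1 : ((a : ℝ) - 1 + 1) * (a - 1 + 2) = a * (a + 1) := by ring
      rw [e1]
      apply mul_le_mul_of_nonneg_right _ haa.le
      have e2 : Real.exp (-(t + 3)) ≤ 1 / (16 * X) := by
        rw [Real.exp_neg, ← one_div]
        apply one_div_le_one_div_of_le (by positivity)
        rw [Real.exp_add, mul_comm]
        exact mul_le_mul_of_nonneg_left exp_three hX0.le
      linarith
  · -- large points
    intro A' m' hT' hTA' hA' hΦ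
    have e0 : m' 0 = m 0 := hT' 0 (mem_range.2 (by norm_num))
    have eV : V2 m' d = V2 m d := V2_congr hT'
    have h1 : (a * (a + 1)) * (UU m A : ℝ) ≤
        ((W : ℝ) + w) * UU m' A' + (a * (a + 1)) * W := by
      have h2 : ((a * (a + 1) * UU m A : ℕ) : ℝ) ≤
          (((W + w) * UU m' A' + a * (a + 1) * W : ℕ) : ℝ) := by exact_mod_cast hΦ
      push_cast at h2
      exact h2
    obtain ⟨N', hN'⟩ : ∃ N' : ℝ, N' = (UU m' A' : ℝ) := ⟨_, rfl⟩
    obtain ⟨N0, hN0⟩ : ∃ N0 : ℝ, N0 = (UU m A : ℝ) := ⟨_, rfl⟩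
    obtain ⟨V, hVdef⟩ : ∃ V, V = V2 m d := ⟨_, rfl⟩
    rw [← hN', ← hN0] at h1
    rw [← hN0, ← hVdef, hεX] at hUV
    rw [← hN0, ← hVdef] at hV
    rw [← hVdef] at hV2
    set aa : ℝ := (a : ℝ) * (a + 1) with haa'
    have hN'0 : 0 ≤ N' := by rw [hN']; exact Nat.cast_nonneg _
    have hN00 : 0 ≤ N0 := by rw [hN0]; exact Nat.cast_nonneg _
    -- `a (a + 1)` is small
    have h4' : aa ≤ 1 / (16 * X) * (M * M) := by
      have c1 : aa ≤ 2 * ((a : ℝ) * a) := by
        rw [haa']
        nlinarith only [har]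
      have c2 : (a : ℝ) * a ≤ (2 * M / X ^ 2) * (2 * M / X ^ 2) :=
        mul_le_mul a5 a5 (by linarith) (by positivity)
      have c4 : (2 * (M : ℝ) / X ^ 2) * (2 * M / X ^ 2) = 4 * (M * M) / X ^ 4 := by
        field_simp
        ring
      have c5 : 4 * ((M : ℝ) * M) / X ^ 4 ≤ 1 / (32 * X) * (M * M) := by
        rw [div_le_iff₀ (by positivity)]
        have c6 : 1 / (32 * X) * ((M : ℝ) * M) * X ^ 4 = (M * M) * (X ^ 3 / 32) := by
          field_simp
        rw [c6]
        have c7 : (128 : ℝ) ≤ X ^ 3 := by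
          calc (128 : ℝ) ≤ X ^ 1 := by rw [pow_one]; linarith
            _ ≤ X ^ 3 := pow_le_pow_right₀ (by linarith) (by norm_num)
        have c8 : 0 ≤ (M : ℝ) * M := by positivity
        nlinarith only [c7, c8]
      have c7 : 2 * (1 / (32 * X) * ((M : ℝ) * M)) = 1 / (16 * X) * (M * M) := by
        field_simp
        ring
      rw [c4] at c2
      linarith
    have h4 : aa ≤ 1 / (16 * X) * (d * M) := by
      refine h4'.trans ?_
      apply mul_le_mul_of_nonneg_left _ (by positivity)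
      exact mul_le_mul_of_nonneg_right hMd hM0.le
    have hW2 : (W : ℝ) ≤ 2 * aa := by
      have h5 : (W : ℝ) ≤ (W : ℝ) + w := by
        have : (0 : ℝ) ≤ w := Nat.cast_nonneg _
        linarith
      refine h5.trans (s2.trans ?_)
      apply mul_le_mul_of_nonneg_right _ haa.le
      linarith
    have h5 : N0 ≤ (1 + 1 / (8 * X)) * N' + W := by
      have h6 : aa * N0 ≤ aa * ((1 + 1 / (8 * X)) * N' + W) := by
        calc aa * N0 ≤ ((W : ℝ) + w) * N' + aa * W := h1
          _ ≤ ((1 + 1 / (8 * X)) * aa) * N' + aa * W := by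
              apply add_le_add_left
              exact mul_le_mul_of_nonneg_right s2 hN'0
          _ = _ := by ring
      exact le_of_mul_le_mul_left h6 haa
    -- `N' ≥ (1 - 1 / (8 X)) N0 - 2 aa`
    have h6 : (1 - 1 / (8 * X)) * N0 - 2 * aa ≤ N' := by
      have f1 : 0 ≤ 1 / (8 * X) := by positivity
      have f2 : (1 - 1 / (8 * X)) * N0 ≤ (1 - 1 / (8 * X)) * ((1 + 1 / (8 * X)) * N' + W) :=
        mul_le_mul_of_nonneg_left h5 (by linarith)
      have f3 : (1 - 1 / (8 * X)) * ((1 + 1 / (8 * X)) * N' + W) =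
          N' - (1 / (8 * X)) ^ 2 * N' + W - 1 / (8 * X) * W := by ring
      have f4 : 0 ≤ (1 / (8 * X)) ^ 2 * N' := by positivity
      have f5 : 0 ≤ 1 / (8 * X) * (W : ℝ) := by positivity
      rw [f3] at f2
      linarith
    have hSX : 1 / X * (d * M + V) = 16 * (1 / (16 * X) * (d * M)) + 16 * (1 / (16 * X) * V) := by
      field_simp
    have hSX2 : 1 / (2 * X) * (d * M + V) =
        8 * (1 / (16 * X) * (d * M)) + 8 * (1 / (16 * X) * V) := by
      field_simp
      ring
    have hdMX : 0 ≤ 1 / (16 * X) * ((d : ℝ) * M) := by positivity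
    have hVX : 0 ≤ 1 / (16 * X) * V := by
      apply mul_nonneg (by positivity)
      linarith
    have h7 : V + 1 / (2 * X) * (d * M + V) ≤ N' := by
      refine le_trans ?_ h6
      rw [hSX2]
      rw [hSX] at hUV
      have f1 : (1 - 1 / (8 * X)) * (V + (16 * (1 / (16 * X) * (d * M)) + 16 * (1 / (16 * X) * V)))
          ≤ (1 - 1 / (8 * X)) * N0 := mul_le_mul_of_nonneg_left hUV (by linarith)
      have f2 : 1 / (8 * X) * V = 2 * (1 / (16 * X) * V) := by
        field_simp
        ring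
      have f3 : 1 / (8 * X) * (1 / (16 * X) * (d * M)) ≤ 1 / 16 * (1 / (16 * X) * ((d : ℝ) * M)) := by
        apply mul_le_mul_of_nonneg_right _ hdMX
        apply one_div_le_one_div_of_le (by norm_num)
        linarith
      have f4 : 1 / (8 * X) * (1 / (16 * X) * V) ≤ 1 / 16 * (1 / (16 * X) * V) := by
        apply mul_le_mul_of_nonneg_right _ hVX
        apply one_div_le_one_div_of_le (by norm_num)
        linarith
      have f5 : (1 - 1 / (8 * X)) *
          (V + (16 * (1 / (16 * X) * (d * M)) + 16 * (1 / (16 * X) * V))) =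
          V + (16 * (1 / (16 * X) * (d * M)) + 16 * (1 / (16 * X) * V)) - (1 / (8 * X) * V +
          16 * (1 / (8 * X) * (1 / (16 * X) * (d * M))) +
          16 * (1 / (8 * X) * (1 / (16 * X) * V))) := by ring
      rw [f5, f2] at f1
      linarith
    apply bez_large (hin hK hU hUW) ht hcase' l1 l3 (L0 := L0) (A := A') (m := m') (M := M) (d := d)
    · intro k hk
      refine ⟨?_, (hA' k hk).1, (hA' k hk).2.2⟩
      by_contra h
      exact disjoint_left.mp hTA' (mem_range.2 (by omega)) hk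
    · exact hN.congr hT'
    · rw [e0]
      have : 8 * (10 ^ 8 * K) * t ^ 3 * (M : ℝ) = (8 * 10 ^ 8) * (K * t ^ 3 * M) := by ring
      rw [this]
      linarith
    · rw [eV, ← hN', ← hVdef]
      have f6 : 64 * (10 ^ 8 * K) * t ^ 6 * (M : ℝ) ^ 2 = (64 * 10 ^ 8) * (K * t ^ 6 * M ^ 2) := by
        ring
      rw [f6]
      have f7 : 0 ≤ K * t ^ 6 * (M : ℝ) ^ 2 := le_trans (by positivity) hKM2
      rcases hV with h | h
      · left; linarith
      · right
        refine le_trans ?_ h6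
        have f8 : 1 / (8 * X) * N0 ≤ 1 / 2 * N0 := mul_le_mul_of_nonneg_right h8X hN00
        have f9 : aa ≤ (M : ℝ) ^ 2 := by
          refine h4'.trans ?_
          have : 1 / (16 * X) ≤ 1 := by
            rw [div_le_one (by positivity)]
            linarith
          have f11 := mul_le_mul_of_nonneg_right this (mul_nonneg hM0.le hM0.le)
          linarith only [f11]
        have f10 : (1 - 1 / (8 * X)) * N0 = N0 - 1 / (8 * X) * N0 := by ring
        rw [f10]
        linarith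
    · rw [eV, ← hN', ← hVdef]
      exact h7

end Pool.Agent.Helper94.AN
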