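import Pool.Agent.Helper94.AN.HS2
import Pool.Agent.Helper43.UN.Final
import Pool.Agent.Lead.RwMain
import Pool.Agent.Helper94.AN.HJ3

/-!
# Nine largest multiplicities free, all multiplicities (MP_d3128a_ag): the final theorem
-/

set_option autoImplicit false

namespace Pool.Agent.Helper94.AN

open Finset Pool.Agent.Lead.Sh
open Pool.Agent.Helper94.AM
open Helper18.Cusp (Concl)

lemma UNB.mono {K K' : ℝ} (h : UNB K) (hK : K ≤ K') : UNB K' := by
  intro A m M d hA hN hM hd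
  have hl : 0 ≤ Real.log (M : ℝ) := Real.log_natCast_nonneg _
  have hM0 : (0 : ℝ) ≤ M := Nat.cast_nonneg _
  have h1 : K * M * (1 + Real.log M) ^ 3 ≤ K' * M * (1 + Real.log M) ^ 3 := by
    apply mul_le_mul_of_nonneg_right _ (by positivity)
    exact mul_le_mul_of_nonneg_right hK hM0
  have h2 : K * M ^ 2 * (1 + Real.log M) ^ 6 ≤ K' * M ^ 2 * (1 + Real.log M) ^ 6 := by
    apply mul_le_mul_of_nonneg_right _ (by positivity)
    exact mul_le_mul_of_nonneg_right hK (by positivity)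
  obtain ⟨g1, g2⟩ := h A m M d hA hN hM (by linarith)
  refine ⟨fun h3 => g1 (h2.trans h3), fun h3 => g2 ?_⟩
  rcases h3 with h3 | h3
  · exact Or.inl (h2.trans h3)
  · exact Or.inr (h2.trans h3)

/-- the largest admissible parameter -/
lemma exists_par {A1 A2 θ : ℝ} (hθ : 0 < θ) (h1 : θ ^ 3 ≤ A1) (h2 : θ ^ 6 ≤ A2) :
    ∃ θ' : ℝ, θ ≤ θ' ∧ θ' ^ 3 ≤ A1 ∧ θ' ^ 6 ≤ A2 ∧ (A1 ≤ θ' ^ 3 ∨ A2 ≤ θ' ^ 6) := by
  have hA1 : 0 ≤ A1 := le_trans (by positivity) h1
  have hA2 : 0 ≤ A2 := le_trans (by positivity) h2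
  set x : ℝ := A1 ^ (1 / 3 : ℝ) with hx
  set y : ℝ := A2 ^ (1 / 6 : ℝ) with hy
  have hx0 : 0 ≤ x := Real.rpow_nonneg hA1 _
  have hy0 : 0 ≤ y := Real.rpow_nonneg hA2 _
  have hx3 : x ^ 3 = A1 := by
    rw [hx, ← Real.rpow_natCast, ← Real.rpow_mul hA1]
    norm_num
  have hy6 : y ^ 6 = A2 := by
    rw [hy, ← Real.rpow_natCast, ← Real.rpow_mul hA2]
    norm_num
  have hθx : θ ≤ x := by
    rw [← hx3] at h1
    exact le_of_pow_le_pow_left₀ (by norm_num) hx0 h1
  have hθy : θ ≤ y := by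
    rw [← hy6] at h2
    exact le_of_pow_le_pow_left₀ (by norm_num) hy0 h2
  rcases le_total x y with h | h
  · refine ⟨x, hθx, hx3.le, ?_, Or.inl hx3.ge⟩
    rw [← hy6]
    exact pow_le_pow_left₀ hx0 h 6
  · refine ⟨y, hθy, ?_, hy6.le, Or.inr hy6.ge⟩
    rw [← hx3]
    exact pow_le_pow_left₀ hy0 h 3

/-- the room in terms of `d - m 0` -/
lemma V2_le (m : ℕ → ℕ) (d : ℕ) : V2 m d ≤ 2 * ((d : ℝ) + 1) * ((d : ℝ) - m 0 + 1) ∨ d < m 0 := by
  by_cases h : m 0 ≤ d
  · left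
    have h1 : (m 0 : ℝ) * (m 0 + 1) ≤ ∑ i ∈ range 9, (m i : ℝ) * (m i + 1) := by
      apply single_le_sum (f := fun i => (m i : ℝ) * (m i + 1)) (fun i _ => by positivity)
      exact mem_range.2 (by norm_num)
    have h2 : (m 0 : ℝ) ≤ d := by exact_mod_cast h
    have h3 : (0 : ℝ) ≤ m 0 := Nat.cast_nonneg _
    unfold V2
    nlinarith
  · right
    omega

/-- the sums over the small points -/
lemma tail_facts {m : ℕ → ℕ} {s : ℕ} (hs : ∀ i, s ≤ i → m i = 0) (h9 : 1 ≤ m 9) :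
    rows m (range 9 ∪ (Ico 9 s).filter (fun k => 1 ≤ m k)) = rows m (range s) ∧
    (UU m ((Ico 9 s).filter (fun k => 1 ≤ m k)) : ℝ) =
      2 * ((∑ k ∈ Ico 9 s, (m k + 1).choose 2 : ℕ) : ℝ) := by
  have hs9 : 9 < s := by
    by_contra h
    have := hs 9 (by omega)
    omega
  constructor
  · ext r
    rw [mem_rows, mem_rows, mem_union, mem_range, mem_filter, mem_Ico, mem_range]
    constructor
    · rintro ⟨h1, h2⟩
      refine ⟨?_, h2⟩
      rcases h1 with h1 | h1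
      · omega
      · omega
    · rintro ⟨h1, h2⟩
      refine ⟨?_, h2⟩
      by_cases h3 : r.1 < 9
      · exact Or.inl h3
      · exact Or.inr ⟨⟨by omega, h1⟩, by omega⟩
  · have h1 : UU m ((Ico 9 s).filter (fun k => 1 ≤ m k)) =
        2 * ∑ k ∈ Ico 9 s, (m k + 1).choose 2 := by
      unfold UU
      rw [sum_filter, mul_sum]
      apply sum_congr rfl
      intro k _
      rw [Pool.Agent.Helper94.AM.two_choose_succ]
      by_cases h : 1 ≤ m k
      · rw [if_pos h]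
      · rw [if_neg h]
        have : m k = 0 := by omega
        rw [this, zero_mul]
    rw [h1]
    push_cast
    ring

/-- the hypotheses of the final theorem -/
def Hyp (c C : ℝ) (s : ℕ) (m : ℕ → ℕ) (d : ℕ) : Prop :=
  m 9 = 0 ∨ 3 * d ≤ ∑ i ∈ range 9, m i ∨
    ∃ θ : ℝ, C ≤ θ ∧ (m 0 : ℝ) + θ ^ 3 * m 9 ≤ d ∧
      (θ ^ 6 * (m 9) ^ 2 + ∑ i ∈ range 9, ((m i + 1).choose 2 : ℝ) ≤ ((d + 2).choose 2 : ℝ) ∨
        θ ^ 6 * (m 9) ^ 2 ≤ ∑ i ∈ Ico 9 s, ((m i + 1).choose 2 : ℝ)) ∧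
      ((m 9 : ℝ) ≤ Real.exp (c * θ) ∨ Real.exp (-(c * θ)) * (d * m 9) ≤
        |((d + 2).choose 2 : ℝ) - ∑ i ∈ range s, ((m i + 1).choose 2 : ℝ)|)

theorem main_exp : ∃ c C : ℝ, 0 < c ∧ 0 < C ∧ ∀ (s : ℕ) (m : ℕ → ℕ) (d : ℕ), Antitone m →
    (∀ i, s ≤ i → m i = 0) → m 0 + m 1 + m 2 ≤ d → Hyp c C s m d → Concl s m d := by
  obtain ⟨C0, hC0, hF⟩ := Pool.Agent.Helper43.UN.main_nine
  have hUNF : UNF C0 := hF
  set K : ℝ := max (4 * C0) 1 with hK
  have hK1 : 1 ≤ K := le_max_right _ _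
  have hU : UNB K := (unb_of hC0 hUNF).mono (le_max_left _ _)
  have hUW : UWI := uwi Helper18.UW.gCore
  have hIS := his hK1 hU hUW
  have hJN := hjn hK1 hU hUW
  set C1 : ℝ := 10 ^ 11 * K with hC1
  have hC1K : K ≤ C1 := by
    rw [hC1]
    nlinarith
  have hC11 : 1 ≤ C1 := by linarith
  have hC1C0 : C0 ≤ C1 := by
    have : 4 * C0 ≤ K := le_max_left _ _
    linarith
  have hC10 : 0 < C1 := by linarith
  set u0 : ℝ := 1612800 * C1 ^ 6 + 512 with hu0
  have hC16 : (1 : ℝ) ≤ C1 ^ 6 := one_le_pow₀ hC11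
  refine ⟨1 / (2 * C1), 2 * C1 * u0, by positivity, by positivity, ?_⟩
  intro s m d hm hs hd hH
  rcases hH with h9 | h9 | ⟨θ, hθ, hdθ, hVθ, hcase⟩
  · -- at most nine points
    apply hF s m d hm hs hd
    right
    rw [h9, Nat.cast_zero]
    constructor
    · have : m 0 ≤ d := by omega
      have : (m 0 : ℝ) ≤ d := by exact_mod_cast this
      simpa using this
    · right
      have h1 : C0 * (0 : ℝ) ^ 2 * (1 + Real.log 0) ^ 6 = 0 := by norm_num
      rw [h1]
      positivity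
  · exact hF s m d hm hs hd (Or.inl h9)
  by_cases h9 : m 9 = 0
  · apply hF s m d hm hs hd
    right
    rw [h9, Nat.cast_zero]
    constructor
    · have : m 0 ≤ d := by omega
      have : (m 0 : ℝ) ≤ d := by exact_mod_cast this
      simpa using this
    · right
      have h1 : C0 * (0 : ℝ) ^ 2 * (1 + Real.log 0) ^ 6 = 0 := by norm_num
      rw [h1]
      positivity
  have hM1 : 1 ≤ m 9 := by omega
  have hM1r : (1 : ℝ) ≤ m 9 := by exact_mod_cast hM1
  have hu01 : 512 ≤ u0 := by rw [hu0]; nlinarith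
  have hθ0 : 0 < θ := lt_of_lt_of_le (by positivity) hθ
  set A := (Ico 9 s).filter (fun k => 1 ≤ m k) with hA
  obtain ⟨hrows, hUU⟩ := tail_facts hs hM1
  rw [← hA] at hrows hUU
  have hAt : ∀ k ∈ A, 9 ≤ k ∧ 1 ≤ m k ∧ m k ≤ m 9 := by
    intro k hk
    rw [hA, mem_filter, mem_Ico] at hk
    exact ⟨hk.1.1, hk.2, hm hk.1.1⟩
  have hN : Nine m (m 9) d := ⟨fun i j hij _ => hm hij, hm (by norm_num), hd⟩
  have hs9 : 9 ≤ s := by
    by_contra h
    have := hs 9 (by omega)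
    omega
  have hm0d : m 0 ≤ d := by omega
  -- the quantities
  obtain ⟨V, hV⟩ : ∃ V : ℝ, V = (((d + 2).choose 2 : ℕ) : ℝ) -
      ((∑ i ∈ range 9, (m i + 1).choose 2 : ℕ) : ℝ) := ⟨_, rfl⟩
  obtain ⟨T, hT⟩ : ∃ T : ℝ, T = ((∑ k ∈ Ico 9 s, (m k + 1).choose 2 : ℕ) : ℝ) := ⟨_, rfl⟩
  have hV2 : V2 m d = 2 * V := by rw [V2_eq, hV]; ring
  rw [← hT] at hUU
  have hV1 : 1 ≤ V := by
    have := hN.V2_ge
    rw [hV2] at this
    linarith
  have hT0 : 0 ≤ T := by rw [hT]; exact Nat.cast_nonneg _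
  have hsplit : ∑ i ∈ range s, (m i + 1).choose 2 =
      ∑ i ∈ range 9, (m i + 1).choose 2 + ∑ k ∈ Ico 9 s, (m k + 1).choose 2 :=
    (sum_range_add_sum_Ico _ hs9).symm
  have hVT : ((d + 2).choose 2 : ℝ) - ∑ i ∈ range s, ((m i + 1).choose 2 : ℝ) = V - T := by
    have h1 : ∑ i ∈ range s, ((m i + 1).choose 2 : ℝ) =
        ((∑ i ∈ range s, (m i + 1).choose 2 : ℕ) : ℝ) := by rw [Nat.cast_sum]
    rw [h1, hsplit, hV, hT]
    push_cast
    ring
  have hVθ' : θ ^ 6 * (m 9) ^ 2 ≤ V ∨ θ ^ 6 * (m 9) ^ 2 ≤ T := by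
    rcases hVθ with h | h
    · left
      have h1 : ∑ i ∈ range 9, ((m i + 1).choose 2 : ℝ) =
          ((∑ i ∈ range 9, (m i + 1).choose 2 : ℕ) : ℝ) := by rw [Nat.cast_sum]
      rw [h1] at h
      rw [hV]
      linarith
    · right
      have h1 : ∑ i ∈ Ico 9 s, ((m i + 1).choose 2 : ℝ) =
          ((∑ i ∈ Ico 9 s, (m i + 1).choose 2 : ℕ) : ℝ) := by rw [Nat.cast_sum]
      rw [h1] at h
      rw [hT]
      exact h
  rw [hVT] at hcase
  rcases hcase with hcase | hcase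
  · -- small multiplicities
    apply hF s m d hm hs hd
    right
    have hcθ : 1 ≤ 1 / (2 * C1) * θ := by
      have h1 : 1 / (2 * C1) * (2 * C1 * u0) ≤ 1 / (2 * C1) * θ :=
        mul_le_mul_of_nonneg_left hθ (by positivity)
      have h2 : 1 / (2 * C1) * (2 * C1 * u0) = u0 := by field_simp
      linarith
    have hlog0 : 0 ≤ Real.log (m 9 : ℝ) := Real.log_natCast_nonneg _
    have hlog : 1 + Real.log (m 9) ≤ 1 / C1 * θ := by
      have h1 : Real.log (m 9) ≤ 1 / (2 * C1) * θ := by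
        rw [Real.log_le_iff_le_exp (by linarith)]
        exact hcase
      have h2 : 1 / C1 * θ = 1 / (2 * C1) * θ + 1 / (2 * C1) * θ := by
        field_simp
        ring
      linarith
    have hpow : ∀ n : ℕ, 1 ≤ n → C0 * (1 + Real.log (m 9)) ^ n ≤ θ ^ n := by
      intro n hn
      have h1 : (1 + Real.log (m 9)) ^ n ≤ (1 / C1 * θ) ^ n :=
        pow_le_pow_left₀ (by linarith) hlog n
      have h2 : C0 * (1 / C1) ^ n ≤ 1 := by
        have h3 : (1 / C1) ^ n ≤ (1 / C1) ^ 1 := by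
          apply pow_le_pow_of_le_one (by positivity) _ hn
          rw [div_le_one hC10]
          exact hC11
        rw [pow_one] at h3
        have h4 : C0 * (1 / C1) ^ n ≤ C0 * (1 / C1) := mul_le_mul_of_nonneg_left h3 hC0.le
        have h5 : C0 * (1 / C1) ≤ 1 := by
          rw [mul_one_div, div_le_one hC10]
          exact hC1C0
        linarith
      calc C0 * (1 + Real.log (m 9)) ^ n ≤ C0 * (1 / C1 * θ) ^ n :=
            mul_le_mul_of_nonneg_left h1 hC0.le
        _ = (C0 * (1 / C1) ^ n) * θ ^ n := by rw [mul_pow]; ring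
        _ ≤ 1 * θ ^ n := mul_le_mul_of_nonneg_right h2 (by positivity)
        _ = θ ^ n := one_mul _
    constructor
    · have h1 : C0 * (m 9 : ℝ) * (1 + Real.log (m 9)) ^ 3 ≤ θ ^ 3 * m 9 := by
        calc C0 * (m 9 : ℝ) * (1 + Real.log (m 9)) ^ 3 = (C0 * (1 + Real.log (m 9)) ^ 3) * m 9 := by
              ring
          _ ≤ θ ^ 3 * m 9 := mul_le_mul_of_nonneg_right (hpow 3 (by norm_num)) (by linarith)
      linarith
    · have h1 : C0 * (m 9 : ℝ) ^ 2 * (1 + Real.log (m 9)) ^ 6 ≤ θ ^ 6 * (m 9) ^ 2 := by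
        calc C0 * (m 9 : ℝ) ^ 2 * (1 + Real.log (m 9)) ^ 6 =
              (C0 * (1 + Real.log (m 9)) ^ 6) * (m 9) ^ 2 := by ring
          _ ≤ θ ^ 6 * (m 9) ^ 2 := mul_le_mul_of_nonneg_right (hpow 6 (by norm_num)) (by positivity)
      rcases hVθ' with h | h
      · left
        have h2 : ∑ i ∈ range 9, ((m i + 1).choose 2 : ℝ) =
            ((∑ i ∈ range 9, (m i + 1).choose 2 : ℕ) : ℝ) := by rw [Nat.cast_sum]
        rw [h2]
        linarith
      · right
        refine h1.trans (h.trans ?_)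
        have h2 : ∑ k ∈ Ico 9 s, (m k + 1).choose 2 ≤ ∑ k ∈ Ico 9 s, m k ^ 2 := by
          apply sum_le_sum
          intro k _
          have h3 := Pool.Agent.Helper94.AM.two_choose_succ (m k)
          nlinarith [Nat.zero_le (m k), sq_nonneg ((m k : ℤ) - 1)]
        rw [hT]
        have h3 : ((∑ k ∈ Ico 9 s, (m k + 1).choose 2 : ℕ) : ℝ) ≤
            ((∑ k ∈ Ico 9 s, m k ^ 2 : ℕ) : ℝ) := by exact_mod_cast h2
        refine h3.trans (le_of_eq ?_)
        push_cast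
        rfl
  · -- outside the window
    have hM0 : (0 : ℝ) < m 9 := by linarith
    have hM2 : (0 : ℝ) < (m 9 : ℝ) ^ 2 := by positivity
    have hA1 : θ ^ 3 ≤ ((d : ℝ) - m 0) / m 9 := by
      rw [le_div_iff₀ hM0]
      linarith
    have hA2 : θ ^ 6 ≤ max V T / (m 9) ^ 2 := by
      rw [le_div_iff₀ hM2]
      rcases hVθ' with h | h
      · exact h.trans (le_max_left _ _)
      · exact h.trans (le_max_right _ _)
    obtain ⟨θ1, t1, t2, t3, t4⟩ := exists_par hθ0 hA1 hA2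
    rw [le_div_iff₀ hM0] at t2
    rw [le_div_iff₀ hM2] at t3
    have hθ10 : 0 < θ1 := lt_of_lt_of_le hθ0 t1
    have hθ1 : 2 * C1 * u0 ≤ θ1 := hθ.trans t1
    set u : ℝ := 1 / (2 * C1) * θ1 with hu
    have hθu : θ1 = 2 * C1 * u := by rw [hu]; field_simp
    have hu1 : u0 ≤ u := by
      have h1 : 1 / (2 * C1) * (2 * C1 * u0) ≤ u := mul_le_mul_of_nonneg_left hθ1 (by positivity)
      have h2 : 1 / (2 * C1) * (2 * C1 * u0) = u0 := by field_simp
      linarith
    have hu512 : 512 ≤ u := by linarith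
    have hθ11 : 1 ≤ θ1 := by
      rw [hθu]
      nlinarith only [hu512, hC1K, hK1]
    have hθ6 : (1 : ℝ) ≤ θ1 ^ 6 := one_le_pow₀ hθ11
    -- `9 θ⁶ ≤ 2 exp u`
    have hexp : 9 * θ1 ^ 6 ≤ 2 * Real.exp u := by
      have h4 : u ^ 7 / (Nat.factorial 7 : ℝ) ≤ Real.exp u :=
        Real.pow_div_factorial_le_exp u (by linarith) 7
      have h7 : (Nat.factorial 7 : ℝ) = 5040 := by norm_num [Nat.factorial]
      rw [h7] at h4
      have h8 : 320 * C1 ^ 6 * u ^ 6 ≤ u ^ 7 / 5040 := by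
        rw [le_div_iff₀ (by norm_num)]
        have h9 : 1612800 * C1 ^ 6 ≤ u := by
          rw [hu0] at hu1
          linarith
        have h10 : (1612800 * C1 ^ 6) * u ^ 6 ≤ u * u ^ 6 :=
          mul_le_mul_of_nonneg_right h9 (by positivity)
        calc 320 * C1 ^ 6 * u ^ 6 * 5040 = (1612800 * C1 ^ 6) * u ^ 6 := by ring
          _ ≤ u * u ^ 6 := h10
          _ = u ^ 7 := by ring
      have h9 : θ1 ^ 6 = 64 * (C1 ^ 6 * u ^ 6) := by rw [hθu]; ring
      have h10 : 0 ≤ C1 ^ 6 * u ^ 6 := by positivity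
      rw [h9]
      linarith
    have hdr : (1 : ℝ) ≤ d := by
      have : 1 ≤ d := by
        have := hN.ge (show 0 < 9 by norm_num)
        omega
      exact_mod_cast this
    have hd0 : (0 : ℝ) < d := by linarith
    have hMd : (m 9 : ℝ) ≤ d := by
      have := hN.ge (show 0 < 9 by norm_num)
      have : m 9 ≤ d := by omega
      exact_mod_cast this
    have hdM : 0 < (d : ℝ) * m 9 := by positivity
    -- the room
    have hroom : 2 * V ≤ 8 * θ1 ^ 6 * (d * m 9) ∨ V < T ∧ 2 * V ≤ 8 * θ1 ^ 6 * (d * m 9) := by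
      left
      rcases t4 with h | h
      · rw [div_le_iff₀ hM0] at h
        have h1 := V2_le m d
        rw [hV2] at h1
        rcases h1 with h1 | h1
        · have h2 : (1 : ℝ) ≤ (d : ℝ) - m 0 := by
            have h3 : (1 : ℝ) ≤ θ1 ^ 3 := one_le_pow₀ hθ11
            nlinarith only [t2, h3, hM1r]
          have h3 : 2 * ((d : ℝ) + 1) * ((d : ℝ) - m 0 + 1) ≤ 8 * (d * ((d : ℝ) - m 0)) := by
            nlinarith only [mul_nonneg (by linarith : (0 : ℝ) ≤ (d : ℝ) - 1)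
              (by linarith : (0 : ℝ) ≤ (d : ℝ) - m 0 - 1), h2, hdr]
          have h4 : (d : ℝ) * ((d : ℝ) - m 0) ≤ d * (θ1 ^ 3 * m 9) :=
            mul_le_mul_of_nonneg_left h hd0.le
          have h5 : θ1 ^ 3 ≤ θ1 ^ 6 := pow_le_pow_right₀ hθ11 (by norm_num)
          have h6 : (d : ℝ) * (θ1 ^ 3 * m 9) ≤ θ1 ^ 6 * (d * m 9) := by
            calc (d : ℝ) * (θ1 ^ 3 * m 9) = θ1 ^ 3 * (d * m 9) := by ring
              _ ≤ θ1 ^ 6 * (d * m 9) := mul_le_mul_of_nonneg_right h5 hdM.le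
          linarith
        · omega
      · rw [div_le_iff₀ hM2] at h
        have h1 : V ≤ θ1 ^ 6 * (m 9) ^ 2 := (le_max_left _ _).trans h
        have h2 : (m 9 : ℝ) ^ 2 ≤ d * m 9 := by
          rw [sq]
          exact mul_le_mul_of_nonneg_right hMd hM0.le
        have h3 : θ1 ^ 6 * (m 9 : ℝ) ^ 2 ≤ θ1 ^ 6 * (d * m 9) :=
          mul_le_mul_of_nonneg_left h2 (by positivity)
        have h4 : 0 ≤ θ1 ^ 6 * ((d : ℝ) * m 9) := by positivity
        linarith
    have hroom' : 2 * V ≤ 8 * θ1 ^ 6 * (d * m 9) := by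
      rcases hroom with h | h
      · exact h
      · exact h.2
    -- the window
    have hwin : Real.exp (-(2 * u)) * (d * m 9 + 2 * V) ≤ 2 * |V - T| := by
      have h1 : Real.exp (-u) * (d * m 9) ≤ |V - T| := by
        refine le_trans ?_ hcase
        apply mul_le_mul_of_nonneg_right _ hdM.le
        rw [Real.exp_le_exp, neg_le_neg_iff, hu]
        exact mul_le_mul_of_nonneg_left t1 (by positivity)
      have h2 : Real.exp (-(2 * u)) = Real.exp (-u) * Real.exp (-u) := by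
        rw [← Real.exp_add]
        congr 1
        ring
      have h3 : (d : ℝ) * m 9 + 2 * V ≤ 2 * Real.exp u * (d * m 9) := by
        have h4 : (d : ℝ) * m 9 + 2 * V ≤ (9 * θ1 ^ 6) * (d * m 9) := by
          have h5 : 1 * ((d : ℝ) * m 9) ≤ θ1 ^ 6 * (d * m 9) :=
            mul_le_mul_of_nonneg_right hθ6 hdM.le
          linarith
        exact h4.trans (mul_le_mul_of_nonneg_right hexp hdM.le)
      have h4 : Real.exp (-u) * Real.exp u = 1 := by
        rw [← Real.exp_add, neg_add_cancel, Real.exp_zero]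
      calc Real.exp (-(2 * u)) * (d * m 9 + 2 * V)
          ≤ Real.exp (-(2 * u)) * (2 * Real.exp u * (d * m 9)) :=
            mul_le_mul_of_nonneg_left h3 (Real.exp_pos _).le
        _ = 2 * (Real.exp (-u) * (d * m 9)) * (Real.exp (-u) * Real.exp u) := by rw [h2]; ring
        _ = 2 * (Real.exp (-u) * (d * m 9)) := by rw [h4, mul_one]
        _ ≤ 2 * |V - T| := by linarith
    have htp : 1024 ≤ 2 * u := by linarith
    have hpow : ∀ n : ℕ, 1 ≤ n → C1 * (2 * u) ^ n ≤ θ1 ^ n := by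
      intro n hn
      have h1 : 2 * u = (1 / C1) * θ1 := by rw [hu]; field_simp
      have h2 : C1 * (1 / C1) ^ n ≤ 1 := by
        have h3 : (1 / C1) ^ n ≤ (1 / C1) ^ 1 := by
          apply pow_le_pow_of_le_one (by positivity) _ hn
          rw [div_le_one hC10]
          exact hC11
        rw [pow_one] at h3
        have h4 : C1 * (1 / C1) ^ n ≤ C1 * (1 / C1) := mul_le_mul_of_nonneg_left h3 hC10.le
        have h5 : C1 * (1 / C1) = 1 := by field_simp
        linarith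
      calc C1 * (2 * u) ^ n = (C1 * (1 / C1) ^ n) * θ1 ^ n := by rw [h1, mul_pow]; ring
        _ ≤ 1 * θ1 ^ n := mul_le_mul_of_nonneg_right h2 (by positivity)
        _ = θ1 ^ n := one_mul _
    have hd1 : (m 0 : ℝ) + C1 * (2 * u) ^ 3 * m 9 ≤ d := by
      have h1 : C1 * (2 * u) ^ 3 * (m 9 : ℝ) ≤ θ1 ^ 3 * m 9 :=
        mul_le_mul_of_nonneg_right (hpow 3 (by norm_num)) hM0.le
      linarith
    have hq : C1 * (2 * u) ^ 6 * (m 9 : ℝ) ^ 2 ≤ max V T :=
      (mul_le_mul_of_nonneg_right (hpow 6 (by norm_num)) hM2.le).trans t3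
    have hchoose : (((d + 2).choose 2 : ℕ) : ℝ) - ((∑ i ∈ range s, (m i + 1).choose 2 : ℕ) : ℝ) =
        V - T := by
      rw [hsplit, hV, hT]
      push_cast
      ring
    have hpos : 0 < Real.exp (-(2 * u)) * (d * m 9 + 2 * V) := by
      apply mul_pos (Real.exp_pos _)
      linarith
    apply Pool.Agent.Lead.Rw.concl s m d
    rcases le_total T V with hTV | hTV
    · left
      constructor
      · have h1 : ((∑ i ∈ range s, (m i + 1).choose 2 : ℕ) : ℝ) ≤ (((d + 2).choose 2 : ℕ) : ℝ) := by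
          linarith
        exact_mod_cast h1
      · rw [← hrows]
        apply hIS A m (m 9) d (2 * u) hAt hN hM1 htp hd1
        · rw [hV2]
          rw [max_eq_left hTV] at hq
          linarith
        · rw [hV2, hUU]
          rw [abs_of_nonneg (by linarith)] at hwin
          linarith
    · right
      constructor
      · have h1 : (((d + 2).choose 2 : ℕ) : ℝ) ≤ ((∑ i ∈ range s, (m i + 1).choose 2 : ℕ) : ℝ) := by
          linarith
        exact_mod_cast h1
      · rw [← hrows]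
        apply hJN A m (m 9) d (2 * u) hAt hN hM1 htp hd1
        · right
          rw [hUU]
          rw [max_eq_right hTV] at hq
          linarith
        · rw [hV2, hUU]
          rw [abs_of_nonpos (by linarith)] at hwin
          linarith

end Pool.Agent.Helper94.AN
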