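import Pool.Agent.Helper94.AN.Div
import Pool.Agent.Helper94.AM.Num

/-!
# Nine largest multiplicities free, all multiplicities (MP_d3128a_ag): independent conditions above
the window, with slack
-/

set_option autoImplicit false

namespace Pool.Agent.Helper94.AN

open Finset Pool.Agent.Lead.Sh
open Pool.Agent.Helper94.AM

/-- independence above the window, with slack -/
def HIN (C : ℝ) : Prop := ∀ (A : Finset ℕ) (m : ℕ → ℕ) (M d : ℕ) (t : ℝ),
  (∀ k ∈ A, 9 ≤ k ∧ 1 ≤ m k ∧ m k ≤ M) → Nine m M d → 1 ≤ M → 1024 ≤ t →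
  (m 0 : ℝ) + C * t ^ 3 * M ≤ d → C * t ^ 6 * M ^ 2 ≤ V2 m d →
  (m 0 : ℝ) + m 1 + m 2 + Real.exp (-t) * M ≤ d →
  (UU m A : ℝ) ≤ V2 m d - Real.exp (-t) * (d * M + V2 m d) →
  Ind (triD 0 d) (rows m (range 9 ∪ A))

/-- the logarithm -/
lemma log_le {M : ℕ} {t : ℝ} (ht : 1024 ≤ t) (hM : (M : ℝ) ≤ Real.exp (10 * t)) :
    1 + Real.log M ≤ 11 * t := by
  rcases Nat.eq_zero_or_pos M with h | h
  · rw [h, Nat.cast_zero, Real.log_zero]
    linarith
  · have h1 : (0 : ℝ) < M := by exact_mod_cast h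
    have h2 : Real.log M ≤ 10 * t := by
      rw [Real.log_le_iff_le_exp h1]
      exact hM
    linarith

/-- the base theorem, small multiplicities -/
lemma base_bd {K : ℝ} (hK : 0 < K) {M : ℕ} {t : ℝ} (ht : 1024 ≤ t)
    (hM : (M : ℝ) ≤ Real.exp (10 * t)) :
    K * M * (1 + Real.log M) ^ 3 ≤ 10 ^ 8 * K * t ^ 3 * M ∧
      K * M ^ 2 * (1 + Real.log M) ^ 6 ≤ 10 ^ 8 * K * t ^ 6 * M ^ 2 := by
  have h1 := log_le ht hM
  have h0 : 0 ≤ Real.log (M : ℝ) := Real.log_natCast_nonneg _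
  have h3 : (1 + Real.log M) ^ 3 ≤ (11 * t) ^ 3 := pow_le_pow_left₀ (by linarith) h1 3
  have h6 : (1 + Real.log M) ^ 6 ≤ (11 * t) ^ 6 := pow_le_pow_left₀ (by linarith) h1 6
  have hM0 : (0 : ℝ) ≤ M := Nat.cast_nonneg _
  have ht3 : (0 : ℝ) ≤ t ^ 3 := by positivity
  have ht6 : (0 : ℝ) ≤ t ^ 6 := by positivity
  constructor
  · calc K * M * (1 + Real.log M) ^ 3 ≤ K * M * (11 * t) ^ 3 :=
          mul_le_mul_of_nonneg_left h3 (by positivity)
      _ = 1331 * (K * t ^ 3 * M) := by ring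
      _ ≤ 10 ^ 8 * (K * t ^ 3 * M) := mul_le_mul_of_nonneg_right (by norm_num) (by positivity)
      _ = _ := by ring
  · calc K * M ^ 2 * (1 + Real.log M) ^ 6 ≤ K * M ^ 2 * (11 * t) ^ 6 :=
          mul_le_mul_of_nonneg_left h6 (by positivity)
      _ = 1771561 * (K * t ^ 6 * M ^ 2) := by ring
      _ ≤ 10 ^ 8 * (K * t ^ 6 * M ^ 2) := mul_le_mul_of_nonneg_right (by norm_num) (by positivity)
      _ = _ := by ring

/-- all multiplicities of the small points at least `L0` -/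
theorem step_large {K : ℝ} (hK : 1 ≤ K) (hU : UNB K) {A : Finset ℕ} {m : ℕ → ℕ} {M d L0 : ℕ} {t : ℝ}
    (ht : 1024 ≤ t) (hM : Real.exp (10 * t) < M) (hL1 : 1 ≤ L0)
    (hL : (M : ℝ) / Real.exp t ^ 4 ≤ L0) (hA : ∀ k ∈ A, 9 ≤ k ∧ L0 ≤ m k ∧ m k ≤ M)
    (hN : Nine m M d)
    (hd : (m 0 : ℝ) + 10 ^ 8 * K * t ^ 3 * M ≤ d) (hV : 10 ^ 8 * K * t ^ 6 * M ^ 2 ≤ V2 m d)
    (hsl : (m 0 : ℝ) + m 1 + m 2 + Real.exp (-t) * M ≤ d)
    (hUV : (UU m A : ℝ) ≤ V2 m d - 1 / (2 * Real.exp t) * (d * M + V2 m d)) :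
    Ind (triD 0 d) (rows m (range 9 ∪ A)) := by
  set X : ℝ := Real.exp t with hX
  have hX0 : 0 < X := Real.exp_pos t
  have hX1 : (1024 : ℝ) ≤ X := big3 ht
  have hX10 : Real.exp (10 * t) = X ^ 10 := by
    rw [hX, ← Real.exp_nat_mul]
    norm_num
  have hM' := hM
  rw [hX10] at hM
  have hM0 : (0 : ℝ) < M := lt_trans (by positivity) hM
  have hM1 : 1 ≤ M := by
    have : (0 : ℝ) < M := hM0
    exact_mod_cast this
  have hεX : Real.exp (-t) = 1 / X := by
    rw [Real.exp_neg, one_div]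
  have hMd : M ≤ d := (hN.ge (show 0 < 9 by norm_num)).trans (hN.le (by norm_num))
  have hMdr : (M : ℝ) ≤ d := by exact_mod_cast hMd
  set M1 : ℕ := ⌊X ^ 10⌋₊ with hM1'
  have m1 : (M1 : ℝ) ≤ X ^ 10 := Nat.floor_le (by positivity)
  have m2 : X ^ 10 < M1 + 1 := Nat.lt_floor_add_one _
  have hX10' : (2 : ℝ) ≤ X ^ 10 := by
    calc (2 : ℝ) ≤ X ^ 1 := by rw [pow_one]; linarith
      _ ≤ X ^ 10 := pow_le_pow_right₀ (by linarith) (by norm_num)
  have m3 : X ^ 10 / 2 ≤ M1 := by linarith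
  have m4 : 1 ≤ M1 := by
    have : (1 : ℝ) ≤ M1 := by linarith
    exact_mod_cast this
  have m5 : M1 ≤ M := by
    have : (M1 : ℝ) ≤ M := by linarith
    exact_mod_cast this
  obtain ⟨q, q1⟩ : ∃ q : ℕ, M ≤ q * M1 ∧ q * M1 ≤ 2 * M := by
    refine ⟨(M + (M1 - 1)) / M1, ?_⟩
    have h1 := Nat.div_add_mod (M + (M1 - 1)) M1
    have h2 := Nat.mod_lt (M + (M1 - 1)) (show 0 < M1 by omega)
    rw [mul_comm] at h1
    omega
  have q2 : 1 ≤ q := by
    by_contra h
    have : q = 0 := by omega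
    rw [this, zero_mul] at q1
    omega
  have q3 : (q : ℝ) ≤ 4 * M / X ^ 10 := by
    rw [le_div_iff₀ (by positivity)]
    have h1 : (q : ℝ) * M1 ≤ 2 * M := by exact_mod_cast q1.2
    have h2 : (q : ℝ) * (X ^ 10 / 2) ≤ q * M1 := mul_le_mul_of_nonneg_left m3 (Nat.cast_nonneg q)
    linarith
  have hXp : ∀ n : ℕ, 1 ≤ n → (1024 : ℝ) ≤ X ^ n := by
    intro n hn
    calc (1024 : ℝ) ≤ X ^ 1 := by rw [pow_one]; exact hX1
      _ ≤ X ^ n := pow_le_pow_right₀ (by linarith) hn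
  -- `q` is tiny
  have q4 : (q : ℝ) ≤ 1 / (200 * X) * M := by
    refine q3.trans ?_
    have h1 : 4 * (M : ℝ) / X ^ 10 = (4 / X ^ 9) * (M / X) := by
      field_simp
    have h2 : 1 / (200 * X) * (M : ℝ) = (1 / 200) * (M / X) := by
      field_simp
    rw [h1, h2]
    apply mul_le_mul_of_nonneg_right _ (by positivity)
    rw [div_le_div_iff₀ (by positivity) (by norm_num)]
    have := hXp 9 (by norm_num)
    linarith
  have q5 : q ≤ M := by
    have h1 : 1 / (200 * X) * (M : ℝ) ≤ 1 * M := by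
      apply mul_le_mul_of_nonneg_right _ hM0.le
      rw [div_le_one (by positivity)]
      linarith
    have : (q : ℝ) ≤ M := by linarith
    exact_mod_cast this
  have hup : ((up q M : ℕ) : ℝ) ≤ Real.exp (10 * t) := by
    have h1 : up q M ≤ M1 := up_le q2 q1.1
    have h2 : ((up q M : ℕ) : ℝ) ≤ M1 := by exact_mod_cast h1
    rw [hX10]
    exact h2.trans m1
  have hlog := log_le ht hup
  have ht3 : (1 : ℝ) ≤ t ^ 3 := one_le_pow₀ (by linarith)
  have ht6 : (1 : ℝ) ≤ t ^ 6 := one_le_pow₀ (by linarith)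
  have hdM : (0 : ℝ) ≤ d * M := by positivity
  -- the room
  have hU0 : (0 : ℝ) ≤ UU m A := Nat.cast_nonneg _
  have hVnn : 0 ≤ V2 m d := le_trans (by positivity) hV
  have hS : 1 / (2 * X) * (d * M) ≤ V2 m d := by
    have h1 : 1 / (2 * X) * (d * M + V2 m d) ≤ V2 m d := by linarith
    have h2 : 0 ≤ 1 / (2 * X) * V2 m d := by positivity
    rw [mul_add] at h1
    linarith
  -- `192 d M / X ^ 10`
  have h48 : 48 * (q : ℝ) * d ≤ 1 / (4 * X) * (d * M) := by
    have h1 : 48 * (q : ℝ) * d ≤ 48 * (1 / (200 * X) * M) * d := by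
      apply mul_le_mul_of_nonneg_right _ (by positivity)
      linarith
    refine h1.trans ?_
    have h2 : 48 * (1 / (200 * X) * (M : ℝ)) * d = (48 / 200) * (1 / X * (d * M)) := by
      field_simp
    have h3 : 1 / (4 * X) * ((d : ℝ) * M) = (1 / 4) * (1 / X * (d * M)) := by
      field_simp
    rw [h2, h3]
    apply mul_le_mul_of_nonneg_right (by norm_num) (by positivity)
  have h24 : 1 / (4 * X) * ((d : ℝ) * M) = (1 / 2) * (1 / (2 * X) * (d * M)) := by
    field_simp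
    ring
  apply div_ind (by linarith : 0 < K) hU q2 q5 hL1 hA hN (ℓ := 11 * t) _ hlog _ _ _
  · -- slack
    have h1 : (m 0 : ℝ) + m 1 + m 2 + 5 * q ≤ d := by
      refine le_trans ?_ hsl
      rw [hεX]
      have h2 : 5 * (q : ℝ) ≤ 5 * (1 / (200 * X) * M) := by linarith
      have h3 : 5 * (1 / (200 * X) * (M : ℝ)) = (1 / 40) * (1 / X * M) := by
        field_simp
        norm_num
      have h4 : 0 ≤ 1 / X * (M : ℝ) := by positivity
      linarith
    exact_mod_cast h1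
  · refine le_trans ?_ hd
    have h1 : 2 * K * (M : ℝ) * (11 * t) ^ 3 = 2662 * (K * t ^ 3 * M) := by ring
    have h2 : (10 : ℝ) ^ 8 * K * t ^ 3 * M = 10 ^ 8 * (K * t ^ 3 * M) := by ring
    have h3 : (q : ℝ) ≤ M := by exact_mod_cast q5
    have h4 : (M : ℝ) ≤ K * t ^ 3 * M := by
      have : (1 : ℝ) ≤ K * t ^ 3 := one_le_mul_of_one_le_of_one_le hK ht3
      exact le_mul_of_one_le_left hM0.le this
    rw [h1, h2]
    linarith
  · have h1 : 4 * K * (M : ℝ) ^ 2 * (11 * t) ^ 6 = 7086244 * (K * t ^ 6 * M ^ 2) := by ring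
    have h2 : (10 : ℝ) ^ 8 * K * t ^ 6 * M ^ 2 = 10 ^ 8 * (K * t ^ 6 * M ^ 2) := by ring
    have h3 : 0 ≤ K * t ^ 6 * (M : ℝ) ^ 2 := by positivity
    rw [h1]
    rw [h2] at hV
    rw [h24] at h48
    linarith
  · -- the conditions of the small points
    set η : ℝ := 2 * q / L0 with hη
    have hL0 : (0 : ℝ) < L0 := by exact_mod_cast hL1
    have hη0 : 0 ≤ η := by positivity
    have hη1 : η ≤ 1 / (12 * X) := by
      rw [hη, div_le_iff₀ hL0]
      have h1 : 1 / (12 * X) * (M / X ^ 4) ≤ 1 / (12 * X) * L0 :=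
        mul_le_mul_of_nonneg_left hL (by positivity)
      refine le_trans ?_ h1
      have h2 : 2 * (q : ℝ) ≤ 2 * (4 * M / X ^ 10) := by linarith
      refine h2.trans ?_
      have h3 : 2 * (4 * (M : ℝ) / X ^ 10) = (8 / X ^ 5) * (M / X ^ 5) := by
        field_simp
        ring
      have h4 : 1 / (12 * X) * ((M : ℝ) / X ^ 4) = (1 / 12) * (M / X ^ 5) := by
        field_simp
      rw [h3, h4]
      apply mul_le_mul_of_nonneg_right _ (by positivity)
      rw [div_le_div_iff₀ (by positivity) (by norm_num)]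
      have := hXp 5 (by norm_num)
      linarith
    have hη2 : η ≤ 1 := by
      refine hη1.trans ?_
      rw [div_le_one (by positivity)]
      linarith
    have h1 : (1 + η) ^ 2 * (UU m A : ℝ) ≤ (1 + 3 * η) * UU m A := by
      apply mul_le_mul_of_nonneg_right _ hU0
      nlinarith
    have h2 : 3 * η * (UU m A : ℝ) ≤ 1 / (4 * X) * V2 m d := by
      have h3 : 3 * η ≤ 1 / (4 * X) := by
        have : 1 / (4 * X) = 3 * (1 / (12 * X)) := by
          field_simp
          norm_num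
        rw [this]
        linarith
      have h4 : (UU m A : ℝ) ≤ V2 m d := by
        have h5 : 0 ≤ 1 / (2 * X) * (d * M + V2 m d) := by positivity
        linarith
      exact mul_le_mul h3 h4 hU0 (by positivity)
    have h3 : 1 / (2 * X) * (d * M + V2 m d) =
        1 / (4 * X) * (d * M) + 1 / (4 * X) * (d * M) + 2 * (1 / (4 * X) * V2 m d) := by
      field_simp
      ring
    have h4 : 0 ≤ 1 / (4 * X) * V2 m d := by positivity
    have h5 : 0 ≤ 1 / (4 * X) * ((d : ℝ) * M) := by positivity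
    rw [h3] at hUV
    have h6 : (1 + 3 * η) * (UU m A : ℝ) = UU m A + 3 * η * UU m A := by ring
    linarith

end Pool.Agent.Helper94.AN
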