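import Pool.Agent.Helper94.AN.Base

/-!
# Nine largest multiplicities free, all multiplicities (MP_d3128a_ag): emptiness below the window, the
step of Bézout
-/

set_option autoImplicit false

namespace Pool.Agent.Helper94.AN

open Finset Pool.Agent.Lead.Sh
open Pool.Agent.Helper94.AM

/-- the sum of the nine largest multiplicities -/
lemma Nine.sum_le {m : ℕ → ℕ} {M d : ℕ} (h : Nine m M d) : ∑ i ∈ range 9, m i ≤ 3 * d := by
  have h3 := h.anti 0 3 (by norm_num) (by norm_num)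
  have h4 := h.anti 1 4 (by norm_num) (by norm_num)
  have h5 := h.anti 2 5 (by norm_num) (by norm_num)
  have h6 := h.anti 0 6 (by norm_num) (by norm_num)
  have h7 := h.anti 1 7 (by norm_num) (by norm_num)
  have h8 := h.anti 2 8 (by norm_num) (by norm_num)
  have h9 := h.red
  simp only [sum_range_succ, range_zero, sum_empty]
  omega

/-- the room is positive -/
lemma Nine.V2_ge {m : ℕ → ℕ} {M d : ℕ} (h : Nine m M d) : 2 ≤ V2 m d := by
  have q1 := h.anti 0 1 (by norm_num) (by norm_num)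
  have q2 := h.anti 1 2 (by norm_num) (by norm_num)
  have q3 := h.anti 2 3 (by norm_num) (by norm_num)
  have q4 := h.anti 3 4 (by norm_num) (by norm_num)
  have q5 := h.anti 4 5 (by norm_num) (by norm_num)
  have q6 := h.anti 5 6 (by norm_num) (by norm_num)
  have q7 := h.anti 6 7 (by norm_num) (by norm_num)
  have q8 := h.anti 7 8 (by norm_num) (by norm_num)
  have q9 := h.red
  have hs := h.sum_le
  obtain ⟨a8, e8⟩ := Nat.exists_eq_add_of_le q8
  obtain ⟨a7, e7⟩ := Nat.exists_eq_add_of_le q7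
  obtain ⟨a6, e6⟩ := Nat.exists_eq_add_of_le q6
  obtain ⟨a5, e5⟩ := Nat.exists_eq_add_of_le q5
  obtain ⟨a4, e4⟩ := Nat.exists_eq_add_of_le q4
  obtain ⟨a3, e3⟩ := Nat.exists_eq_add_of_le q3
  obtain ⟨a2, e2⟩ := Nat.exists_eq_add_of_le q2
  obtain ⟨a1, e1⟩ := Nat.exists_eq_add_of_le q1
  obtain ⟨a0, e0⟩ := Nat.exists_eq_add_of_le q9
  obtain ⟨x, hx⟩ : ∃ x, x = m 8 := ⟨_, rfl⟩
  have hN : ∑ i ∈ range 9, m i * (m i + 1) + 2 ≤ (d + 1) * (d + 2) := by
    simp only [sum_range_succ, range_zero, sum_empty]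
    rw [e0, e1, e2, e3, e4, e5, e6, e7, e8, ← hx]
    ring_nf
    nlinarith [Nat.zero_le (a0 * a1)]
  unfold V2
  have h1 : ((∑ i ∈ range 9, m i * (m i + 1) + 2 : ℕ) : ℝ) ≤ (((d + 1) * (d + 2) : ℕ) : ℝ) := by
    exact_mod_cast hN
  push_cast at h1
  linarith

end Pool.Agent.Helper94.AN
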