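import Pool.Agent.Helper94.AN.HJ
import Pool.Agent.Helper94.AN.HI

/-!
# Nine largest multiplicities free, all multiplicities (MP_d3128a_ag): emptiness below the window
-/

set_option autoImplicit false

namespace Pool.Agent.Helper94.AN

open Finset Pool.Agent.Lead.Sh
open Pool.Agent.Helper94.AM

/-- emptiness below the window -/
def HJN (C : ℝ) : Prop := ∀ (A : Finset ℕ) (m : ℕ → ℕ) (M d : ℕ) (t : ℝ),
  (∀ k ∈ A, 9 ≤ k ∧ 1 ≤ m k ∧ m k ≤ M) → Nine m M d → 1 ≤ M → 1024 ≤ t →
  (m 0 : ℝ) + C * t ^ 3 * M ≤ d →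
  (C * t ^ 6 * M ^ 2 ≤ V2 m d ∨ C * t ^ 6 * M ^ 2 ≤ (UU m A : ℝ)) →
  V2 m d + Real.exp (-t) * (d * M + V2 m d) ≤ (UU m A : ℝ) →
  Inj (triD 0 d) (rows m (range 9 ∪ A))

lemma V2_shift (m : ℕ → ℕ) (d e : ℕ) :
    V2 m (d + e) = V2 m d + (e : ℝ) * (2 * d + 3 + e) := by
  unfold V2
  push_cast
  ring

/-- all multiplicities of the small points at least `L0` -/
theorem bez_large {C : ℝ} (hI : HIN C) {A : Finset ℕ} {m : ℕ → ℕ} {M d L0 : ℕ} {t : ℝ}
    (ht : 1024 ≤ t) (hM : Real.exp (10 * t) < M) (hL1 : 1 ≤ L0)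
    (hL : (M : ℝ) / Real.exp t ^ 4 ≤ L0) (hA : ∀ k ∈ A, 9 ≤ k ∧ L0 ≤ m k ∧ m k ≤ M)
    (hN : Nine m M d)
    (hd : (m 0 : ℝ) + 8 * C * t ^ 3 * M ≤ d)
    (hV : 64 * C * t ^ 6 * M ^ 2 ≤ V2 m d ∨ 64 * C * t ^ 6 * M ^ 2 ≤ (UU m A : ℝ))
    (hUV : V2 m d + 1 / (2 * Real.exp t) * (d * M + V2 m d) ≤ (UU m A : ℝ)) :
    Inj (triD 0 d) (rows m (range 9 ∪ A)) := by
  set X : ℝ := Real.exp t with hX
  have hX0 : 0 < X := Real.exp_pos t
  have hX1 : (1024 : ℝ) ≤ X := big3 ht
  have hX10 : Real.exp (10 * t) = X ^ 10 := by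
    rw [hX, ← Real.exp_nat_mul]
    norm_num
  rw [hX10] at hM
  have hXp : ∀ n : ℕ, 1 ≤ n → (1024 : ℝ) ≤ X ^ n := by
    intro n hn
    calc (1024 : ℝ) ≤ X ^ 1 := by rw [pow_one]; exact hX1
      _ ≤ X ^ n := pow_le_pow_right₀ (by linarith) hn
  have hM0 : (0 : ℝ) < M := lt_trans (by positivity) hM
  have hM1 : 1 ≤ M := by
    have : (0 : ℝ) < M := hM0
    exact_mod_cast this
  have hMdn : M ≤ d := (hN.ge (show 0 < 9 by norm_num)).trans (hN.le (by norm_num))
  have hMd : (M : ℝ) ≤ d := by exact_mod_cast hMdn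
  have hd0 : (0 : ℝ) < d := lt_of_lt_of_le hM0 hMd
  have hV2 := hN.V2_ge
  have hL0 : (0 : ℝ) < L0 := by exact_mod_cast hL1
  obtain ⟨V, hVdef⟩ : ∃ V, V = V2 m d := ⟨_, rfl⟩
  obtain ⟨N, hNdef⟩ : ∃ N : ℝ, N = (UU m A : ℝ) := ⟨_, rfl⟩
  rw [← hVdef, ← hNdef] at hV hUV
  rw [← hVdef] at hV2
  set w : ℝ := N - V with hw
  have hw1 : 1 / (2 * X) * (d * M) + 1 / (2 * X) * V ≤ w := by
    rw [hw, ← mul_add]
    linarith
  have hdM0 : 0 ≤ 1 / (2 * X) * ((d : ℝ) * M) := by positivity
  have hV0 : 0 ≤ V := by linarith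
  have hXV0 : 0 ≤ 1 / (2 * X) * V := by positivity
  have hw0 : 0 ≤ w := by linarith
  -- `d ≤ w / 100`, `M ≤ 2 X w / d`
  have hwdM : (d : ℝ) * M ≤ 2 * X * w := by
    have h1 : 2 * X * (1 / (2 * X) * ((d : ℝ) * M)) = d * M := by field_simp
    rw [← h1]
    apply mul_le_mul_of_nonneg_left _ (by positivity)
    linarith
  have hwV : V ≤ 2 * X * w := by
    have h1 : 2 * X * (1 / (2 * X) * V) = V := by field_simp
    rw [← h1]
    apply mul_le_mul_of_nonneg_left _ (by positivity)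
    linarith
  have hXM : 100 * (2 * X) ≤ (M : ℝ) := by
    refine le_trans ?_ hM.le
    have h1 : X ^ 10 = X ^ 9 * X := by ring
    rw [h1]
    have h2 := hXp 9 (by norm_num)
    have h3 := mul_le_mul_of_nonneg_right h2 hX0.le
    linarith only [h3, hX0]
  have hdw : 100 * (d : ℝ) ≤ w := by
    have h1 : 2 * X * (100 * (d : ℝ)) ≤ 2 * X * w := by
      refine le_trans ?_ hwdM
      nlinarith only [mul_le_mul_of_nonneg_right hXM hd0.le]
    exact le_of_mul_le_mul_left h1 (by positivity)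
  -- the degree `d + ε`
  set r : ℝ := 3 / 4 * w / d with hr
  have hr0 : 0 ≤ r := by positivity
  have hrd : r * d = 3 / 4 * w := by
    rw [hr]; field_simp
  set ε : ℕ := ⌊r⌋₊ with hε
  have e1 : (ε : ℝ) ≤ r := Nat.floor_le hr0
  have e2 : r < ε + 1 := Nat.lt_floor_add_one _
  have e3 : (ε : ℝ) * d ≤ 3 / 4 * w := by
    rw [← hrd]
    exact mul_le_mul_of_nonneg_right e1 hd0.le
  have e4 : 3 / 4 * w - d ≤ (ε : ℝ) * d := by
    have h1 : r * d ≤ (ε + 1) * d := mul_le_mul_of_nonneg_right e2.le hd0.le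
    rw [hrd] at h1
    linarith
  have hε0 : (0 : ℝ) ≤ ε := Nat.cast_nonneg _
  have hVe : V2 m (d + ε) = V + (ε : ℝ) * (2 * d + 3 + ε) := by
    rw [hVdef]
    exact V2_shift m d ε
  obtain ⟨Ve, hVedef⟩ : ∃ Ve, Ve = V2 m (d + ε) := ⟨_, rfl⟩
  rw [← hVedef] at hVe
  have hVe1 : N + 2 / 5 * w ≤ Ve := by
    have h1 : (ε : ℝ) * (2 * d) ≤ (ε : ℝ) * (2 * d + 3 + ε) :=
      mul_le_mul_of_nonneg_left (by linarith) hε0
    have h2 : N = V + w := by rw [hw]; ring
    rw [hVe, h2]
    linarith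
  have hN0 : 0 ≤ N := by rw [hNdef]; exact Nat.cast_nonneg _
  have ht0 : (0 : ℝ) < t := by linarith
  have hind : Ind (triD 0 (d + ε)) (rows m (range 9 ∪ A)) := by
    apply hI A m M (d + ε) (2 * t)
    · intro k hk
      obtain ⟨h1, h2, h3⟩ := hA k hk
      exact ⟨h1, by omega, h3⟩
    · exact ⟨hN.anti, hN.big, le_trans hN.red (Nat.le_add_right _ _)⟩
    · exact hM1
    · linarith
    · push_cast
      have h1 : C * (2 * t) ^ 3 * (M : ℝ) = 8 * C * t ^ 3 * M := by ring
      rw [h1]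
      linarith
    · rw [← hVedef]
      have h1 : C * (2 * t) ^ 6 * (M : ℝ) ^ 2 = 64 * C * t ^ 6 * M ^ 2 := by ring
      rw [h1]
      rcases hV with h | h
      · have h2 : V ≤ N := by linarith
        linarith
      · linarith
    · -- slack
      have h0 : (m 0 : ℝ) + m 1 + m 2 ≤ d := by exact_mod_cast hN.red
      have h1 : Real.exp (-(2 * t)) = 1 / X ^ 2 := by
        rw [Real.exp_neg, hX, ← Real.exp_nat_mul, ← one_div]
        norm_num
      rw [h1]
      push_cast
      have h2 : 1 / X ^ 2 * (M : ℝ) ≤ ε := by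
        have h3 : 1 / X ^ 2 * (M : ℝ) * d ≤ ε * d := by
          refine le_trans ?_ e4
          have h4 : 1 / X ^ 2 * (M : ℝ) * d ≤ 1 / 2 * w := by
            have h5 : 1 / X ^ 2 * (M : ℝ) * d = 1 / X ^ 2 * (d * M) := by ring
            rw [h5]
            have h6 : 1 / X ^ 2 * ((d : ℝ) * M) ≤ 1 / X ^ 2 * (2 * X * w) :=
              mul_le_mul_of_nonneg_left hwdM (by positivity)
            have h7 : 1 / X ^ 2 * (2 * X * w) = (2 / X) * w := by
              field_simp
            rw [h7] at h6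
            refine h6.trans ?_
            apply mul_le_mul_of_nonneg_right _ hw0
            rw [div_le_div_iff₀ hX0 (by norm_num)]
            linarith
          linarith
        exact le_of_mul_le_mul_right h3 hd0
      linarith
    · rw [← hVedef, ← hNdef]
      have h1 : Real.exp (-(2 * t)) = 1 / X ^ 2 := by
        rw [Real.exp_neg, hX, ← Real.exp_nat_mul, ← one_div]
        norm_num
      rw [h1]
      push_cast
      have h2 : (ε : ℝ) * M ≤ w := by
        have h3 : (ε : ℝ) * M ≤ ε * d := mul_le_mul_of_nonneg_left hMd hε0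
        linarith
      have h3 : ((d : ℝ) + ε) * M ≤ 2 * X * w + w := by
        rw [add_mul]
        linarith
      have h4 : N ≤ 2 * X * w + w := by
        have : N = V + w := by rw [hw]; ring
        linarith
      have h5 : (2 * X * w + w) * 2 ≤ X ^ 2 * (w / 10) := by
        have h6 : (2 * X + 1) * 2 ≤ X ^ 2 / 10 := by nlinarith only [hX1]
        calc (2 * X * w + w) * 2 = ((2 * X + 1) * 2) * w := by ring
          _ ≤ (X ^ 2 / 10) * w := mul_le_mul_of_nonneg_right h6 hw0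
          _ = _ := by ring
      have h7 : 1 / X ^ 2 * ((2 * X * w + w) * 2) ≤ w / 10 := by
        have h8 : 1 / X ^ 2 * (X ^ 2 * (w / 10)) = w / 10 := by field_simp
        rw [← h8]
        exact mul_le_mul_of_nonneg_left h5 (by positivity)
      have h9 : 1 / X ^ 2 * (Ve - N) ≤ 1 / 2 * (Ve - N) := by
        apply mul_le_mul_of_nonneg_right _ (by linarith)
        rw [div_le_div_iff₀ (by positivity) (by norm_num)]
        have := hXp 2 (by norm_num)
        linarith
      have h10 : 1 / X ^ 2 * (((d : ℝ) + ε) * M + Ve) ≤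
          1 / X ^ 2 * ((2 * X * w + w) * 2) + 1 / X ^ 2 * (Ve - N) := by
        rw [← mul_add]
        apply mul_le_mul_of_nonneg_left _ (by positivity)
        linarith
      linarith
  -- Bézout
  apply inj_bez (D := d + ε + 1) (m0 := m) (by omega) (by rw [Nat.add_sub_cancel]; exact hind)
  · intro k hk
    rcases mem_union.1 hk with h | h
    · exact hM1.trans (hN.ge (mem_range.1 h))
    · exact hL1.trans (hA k h).2.1
  · have hdisj : Disjoint (range 9) A := by
      rw [disjoint_left]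
      intro x hx hxA
      have h1 := mem_range.1 hx
      have h2 := (hA x hxA).1
      omega
    rw [sum_union hdisj]
    set S9 : ℝ := ((∑ i ∈ range 9, m i * m i : ℕ) : ℝ) with hS9
    set SA : ℝ := ((∑ k ∈ A, m k * m k : ℕ) : ℝ) with hSA
    have h9 : S9 = ((d : ℝ) + 1) * (d + 2) - V - ((∑ i ∈ range 9, m i : ℕ) : ℝ) := by
      rw [hVdef, hS9]
      unfold V2
      push_cast
      have : ∑ i ∈ range 9, (m i : ℝ) * (m i + 1) = ∑ i ∈ range 9, (m i : ℝ) * m i +
          ∑ i ∈ range 9, (m i : ℝ) := by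
        rw [← sum_add_distrib]
        apply sum_congr rfl
        intro i _
        ring
      rw [this]
      ring
    have h3d : ((∑ i ∈ range 9, m i : ℕ) : ℝ) ≤ 3 * d := by exact_mod_cast hN.sum_le
    have hS : (L0 : ℝ) * N ≤ (L0 + 1) * SA := by
      have h1 : L0 * UU m A ≤ (L0 + 1) * ∑ k ∈ A, m k * m k := by
        unfold UU
        rw [mul_sum, mul_sum]
        apply sum_le_sum
        intro k hk
        have := (hA k hk).2.1
        nlinarith only [this]
      rw [hNdef, hSA]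
      exact_mod_cast h1
    have hNw : N ≤ L0 * (w / 20) := by
      have h4 : N ≤ 2 * X * w + w := by
        have : N = V + w := by rw [hw]; ring
        linarith
      have h5 : X ^ 6 ≤ L0 := by
        refine le_trans ?_ hL
        rw [le_div_iff₀ (by positivity)]
        have h9 : X ^ 6 * X ^ 4 = X ^ 10 := by ring
        rw [h9]
        exact hM.le
      have h6 : (2 * X + 1) * 20 ≤ X ^ 6 := by
        have h7 : X ^ 6 = X ^ 5 * X := by ring
        have h8 := hXp 5 (by norm_num)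
        rw [h7]
        have h10 := mul_le_mul_of_nonneg_right h8 hX0.le
        linarith only [h10, hX1]
      have h7 : (2 * X + 1) * 20 * (w / 20) ≤ L0 * (w / 20) :=
        mul_le_mul_of_nonneg_right (h6.trans h5) (by positivity)
      linarith
    have hSA1 : N - w / 20 ≤ SA := by
      have h1 : (L0 + 1) * (N - w / 20) ≤ (L0 + 1) * SA := by
        refine le_trans ?_ hS
        have h2 : ((L0 : ℝ) + 1) * (N - w / 20) = L0 * N + (N - L0 * (w / 20)) - w / 20 := by ring
        rw [h2]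
        linarith
      exact le_of_mul_le_mul_left h1 (by linarith)
    have key : ((d : ℝ) + ε + 1) * d < S9 + SA := by
      have h2 : N = V + w := by rw [hw]; ring
      have h1 : ((d : ℝ) + ε + 1) * d = d * d + ε * d + d := by ring
      have h3 : ((d : ℝ) + 1) * (d + 2) = d * d + 3 * d + 2 := by ring
      rw [h1, h9, h3]
      linarith
    have key2 : (((d + ε + 1) * d : ℕ) : ℝ) <
        ((∑ k ∈ range 9, m k * m k + ∑ k ∈ A, m k * m k : ℕ) : ℝ) := by
      rw [Nat.cast_add (∑ k ∈ range 9, m k * m k)]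
      push_cast at key ⊢
      rw [hS9, hSA] at key
      push_cast at key
      exact key
    exact_mod_cast key2

end Pool.Agent.Helper94.AN
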