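import Pool.Agent.Helper94.AN.Add
import Pool.Agent.Helper94.AN.Base

/-!
# Nine largest multiplicities free (MP_d3128a_ag): independence above the window, no slack: numbers
-/

set_option autoImplicit false

namespace Pool.Agent.Helper94.AN

open Finset Pool.Agent.Lead.Sh
open Pool.Agent.Helper94.AM

/-- the values of the matrix of the fundamental chamber -/
lemma val_G0 (c : ℕ → ℕ) :
    val G0 c 0 = c 0 + c 1 + 2 * c 2 + 3 * c 3 + 3 * c 4 + 3 * c 5 + 3 * c 6 + 3 * c 7 + 3 * c 8 +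
      3 * c 9 ∧
    val G0 c 1 = c 1 + c 2 + c 3 + c 4 + c 5 + c 6 + c 7 + c 8 + c 9 ∧
    val G0 c 2 = c 2 + c 3 + c 4 + c 5 + c 6 + c 7 + c 8 + c 9 ∧
    val G0 c 3 = c 3 + c 4 + c 5 + c 6 + c 7 + c 8 + c 9 ∧
    val G0 c 4 = c 4 + c 5 + c 6 + c 7 + c 8 + c 9 ∧
    val G0 c 5 = c 5 + c 6 + c 7 + c 8 + c 9 ∧
    val G0 c 6 = c 6 + c 7 + c 8 + c 9 ∧
    val G0 c 7 = c 7 + c 8 + c 9 ∧
    val G0 c 8 = c 8 + c 9 ∧
    val G0 c 9 = c 9 := by
  simp [val, ent, G0, sum_range_succ]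

/-- the coordinates of a reduced system -/
def co (m : ℕ → ℕ) (d : ℕ) (j : ℕ) : ℕ :=
  if j = 0 then d - m 0 - m 1 - m 2 else if j = 9 then m 8 else m (j - 1) - m j

lemma co_val {m : ℕ → ℕ} {M d : ℕ} (h : Nine m M d) :
    val G0 (co m d) 0 = d ∧ ∀ k < 9, val G0 (co m d) (k + 1) = m k := by
  obtain ⟨e0, e1, e2, e3, e4, e5, e6, e7, e8, e9⟩ := val_G0 (co m d)
  have q1 := h.anti 0 1 (by norm_num) (by norm_num)
  have q2 := h.anti 1 2 (by norm_num) (by norm_num)
  have q3 := h.anti 2 3 (by norm_num) (by norm_num)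
  have q4 := h.anti 3 4 (by norm_num) (by norm_num)
  have q5 := h.anti 4 5 (by norm_num) (by norm_num)
  have q6 := h.anti 5 6 (by norm_num) (by norm_num)
  have q7 := h.anti 6 7 (by norm_num) (by norm_num)
  have q8 := h.anti 7 8 (by norm_num) (by norm_num)
  have q9 := h.red
  have c0 : co m d 0 = d - m 0 - m 1 - m 2 := rfl
  have c1 : co m d 1 = m 0 - m 1 := rfl
  have c2 : co m d 2 = m 1 - m 2 := rfl
  have c3 : co m d 3 = m 2 - m 3 := rfl
  have c4 : co m d 4 = m 3 - m 4 := rfl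
  have c5 : co m d 5 = m 4 - m 5 := rfl
  have c6 : co m d 6 = m 5 - m 6 := rfl
  have c7 : co m d 7 = m 6 - m 7 := rfl
  have c8 : co m d 8 = m 7 - m 8 := rfl
  have c9 : co m d 9 = m 8 := rfl
  constructor
  · omega
  · intro k hk
    interval_cases k
    · exact e1.trans (by omega)
    · exact e2.trans (by omega)
    · exact e3.trans (by omega)
    · exact e4.trans (by omega)
    · exact e5.trans (by omega)
    · exact e6.trans (by omega)
    · exact e7.trans (by omega)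
    · exact e8.trans (by omega)
    · exact e9.trans (by omega)

/-- a system given by coordinates is reduced -/
lemma nine_of {c μ : ℕ → ℕ} {M : ℕ} (hM : M ≤ c 9) : Nine (mu9 G0 c μ) M (val G0 c 0) := by
  obtain ⟨e0, e1, e2, e3, e4, e5, e6, e7, e8, e9⟩ := val_G0 c
  have f : ∀ k < 9, mu9 G0 c μ k = val G0 c (k + 1) := fun k hk => if_pos hk
  have f0 := (f 0 (by norm_num)).trans e1
  have f1 := (f 1 (by norm_num)).trans e2
  have f2 := (f 2 (by norm_num)).trans e3
  have f3 := (f 3 (by norm_num)).trans e4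
  have f4 := (f 4 (by norm_num)).trans e5
  have f5 := (f 5 (by norm_num)).trans e6
  have f6 := (f 6 (by norm_num)).trans e7
  have f7 := (f 7 (by norm_num)).trans e8
  have f8 := (f 8 (by norm_num)).trans e9
  have st : ∀ k < 8, mu9 G0 c μ (k + 1) ≤ mu9 G0 c μ k := by
    intro k hk
    interval_cases k
    · rw [f0, f1]; clear * -; omega
    · rw [f1, f2]; clear * -; omega
    · rw [f2, f3]; clear * -; omega
    · rw [f3, f4]; clear * -; omega
    · rw [f4, f5]; clear * -; omega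
    · rw [f5, f6]; clear * -; omega
    · rw [f6, f7]; clear * -; omega
    · rw [f7, f8]; clear * -; omega
  refine ⟨?_, ?_, ?_⟩
  · intro i j hij
    induction j, hij using Nat.le_induction with
    | base => intro _; exact le_rfl
    | succ n hn ih => intro hn9; exact (st n (by omega)).trans (ih (by omega))
  · exact hM.trans f8.ge
  · rw [f0, f1, f2, e0]
    clear * -
    omega

/-- the room in terms of the anticanonical degree -/
lemma V2_upper (m : ℕ → ℕ) (d : ℕ) {h : ℝ} (hh : h = 3 * d - ∑ i ∈ range 9, (m i : ℝ)) :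
    V2 m d ≤ 2 / 3 * d * h + h + 2 := by
  have hCS : (∑ i ∈ range 9, (m i : ℝ)) ^ 2 ≤ 9 * ∑ i ∈ range 9, (m i : ℝ) ^ 2 := by
    have h2 := sq_sum_le_card_mul_sum_sq (s := range 9) (f := fun i => (m i : ℝ))
    rw [card_range] at h2
    exact_mod_cast h2
  have hV : V2 m d = ((d : ℝ) + 1) * (d + 2) - ∑ i ∈ range 9, (m i : ℝ) ^ 2 -
      ∑ i ∈ range 9, (m i : ℝ) := by
    unfold V2
    rw [sub_sub, ← sum_add_distrib]
    congr 1
    apply sum_congr rfl
    intro i _
    ring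
  obtain ⟨S, hS⟩ : ∃ S, S = ∑ i ∈ range 9, (m i : ℝ) := ⟨_, rfl⟩
  obtain ⟨Q, hQ⟩ : ∃ Q, Q = ∑ i ∈ range 9, (m i : ℝ) ^ 2 := ⟨_, rfl⟩
  rw [← hS] at hCS hV hh
  rw [← hQ] at hCS hV
  have hSd : S = 3 * d - h := by linarith
  rw [hV, hSd]
  rw [hSd] at hCS
  nlinarith [sq_nonneg h]

end Pool.Agent.Helper94.AN
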