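import Pool.Agent.Helper94.AN.HS
import Pool.Agent.Helper94.AN.HJ
import Pool.Agent.Helper94.AN.HI2

/-!
# Nine largest multiplicities free (MP_d3128a_ag): independence above the window, no slack
-/

set_option autoImplicit false

namespace Pool.Agent.Helper94.AN

open Finset Pool.Agent.Lead.Sh
open Pool.Agent.Helper94.AM

/-- independence above the window -/
def HIS (C : ℝ) : Prop := ∀ (A : Finset ℕ) (m : ℕ → ℕ) (M d : ℕ) (t : ℝ),
  (∀ k ∈ A, 9 ≤ k ∧ 1 ≤ m k ∧ m k ≤ M) → Nine m M d → 1 ≤ M → 1024 ≤ t →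
  (m 0 : ℝ) + C * t ^ 3 * M ≤ d → C * t ^ 6 * M ^ 2 ≤ V2 m d →
  (UU m A : ℝ) ≤ V2 m d - Real.exp (-t) * (d * M + V2 m d) →
  Ind (triD 0 d) (rows m (range 9 ∪ A))

/-- the change of the room -/
lemma V2_change {m m' : ℕ → ℕ} {d d' η : ℕ} (hd1 : d' ≤ d) (hd2 : d ≤ d' + 17 * η)
    (hm1 : ∀ r < 9, m' r ≤ m r) (hm2 : ∀ r < 9, m r ≤ m' r + 6 * η) (hmd : ∀ r < 9, m r ≤ d)
    (h1 : 1 ≤ d) :
    V2 m d - 85 * η * d ≤ V2 m' d' ∧ V2 m' d' ≤ V2 m d + 162 * η * d := by
  have hd1r : (d' : ℝ) ≤ d := by exact_mod_cast hd1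
  have hd2r : (d : ℝ) ≤ d' + 17 * η := by exact_mod_cast hd2
  have h1r : (1 : ℝ) ≤ d := by exact_mod_cast h1
  have hd'0 : (0 : ℝ) ≤ d' := Nat.cast_nonneg _
  have hη0 : (0 : ℝ) ≤ η := Nat.cast_nonneg _
  have hηd : (η : ℝ) ≤ η * d := le_mul_of_one_le_right hη0 h1r
  have s1 : ∑ i ∈ range 9, (m' i : ℝ) * (m' i + 1) ≤ ∑ i ∈ range 9, (m i : ℝ) * (m i + 1) := by
    apply sum_le_sum
    intro i hi
    have : (m' i : ℝ) ≤ m i := by exact_mod_cast hm1 i (mem_range.1 hi)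
    have h0 : (0 : ℝ) ≤ m' i := Nat.cast_nonneg _
    apply mul_le_mul this (by linarith) (by linarith) (by linarith)
  have s2 : ∑ i ∈ range 9, (m i : ℝ) * (m i + 1) ≤ ∑ i ∈ range 9, ((m' i : ℝ) * (m' i + 1) +
      18 * (η * d)) := by
    apply sum_le_sum
    intro i hi
    have a1 : (m i : ℝ) ≤ m' i + 6 * η := by exact_mod_cast hm2 i (mem_range.1 hi)
    have a2 : (m i : ℝ) ≤ d := by exact_mod_cast hmd i (mem_range.1 hi)
    have a3 : (m' i : ℝ) ≤ m i := by exact_mod_cast hm1 i (mem_range.1 hi)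
    have h0 : (0 : ℝ) ≤ m' i := Nat.cast_nonneg _
    have e : (m i : ℝ) * (m i + 1) - (m' i : ℝ) * (m' i + 1) = (m i - m' i) * (m i + m' i + 1) := by
      ring
    have e2 : ((m i : ℝ) - m' i) * (m i + m' i + 1) ≤ (6 * η) * (3 * d) := by
      apply mul_le_mul (by linarith) (by linarith) (by linarith) (by linarith)
    linarith
  rw [sum_add_distrib, sum_const, card_range, nsmul_eq_mul] at s2
  have e9 : ((9 : ℕ) : ℝ) * (18 * (η * d)) = 162 * (η * d) := by push_cast; ring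
  rw [e9] at s2
  have g1 : (162 : ℝ) * η * d = 162 * (η * d) := by ring
  have g2 : (85 : ℝ) * η * d = 85 * (η * d) := by ring
  unfold V2
  rw [g1, g2]
  constructor
  · have k1 : ((d : ℝ) + 1) * (d + 2) - 85 * (η * d) ≤ ((d' : ℝ) + 1) * (d' + 2) := by
      have e : ((d : ℝ) + 1) * (d + 2) - ((d' : ℝ) + 1) * (d' + 2) = (d - d') * (d + d' + 3) := by
        ring
      have e2 : ((d : ℝ) - d') * (d + d' + 3) ≤ (17 * η) * (5 * d) := by
        apply mul_le_mul (by linarith) (by linarith) (by linarith) (by linarith)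
      linarith
    linarith
  · have k1 : ((d' : ℝ) + 1) * (d' + 2) ≤ ((d : ℝ) + 1) * (d + 2) := by
      apply mul_le_mul (by linarith) (by linarith) (by linarith) (by linarith)
    linarith

theorem his {K : ℝ} (hK : 1 ≤ K) (hU : UNB K) (hUW : UWI) : HIS (10 ^ 11 * K) := by
  intro A m M d t hA hN hM1 ht hd hV hUV
  have hMr : (1 : ℝ) ≤ M := by exact_mod_cast hM1
  have hMdn : M ≤ d := (hN.ge (show 0 < 9 by norm_num)).trans (hN.le (by norm_num))
  have hMd : (M : ℝ) ≤ d := by exact_mod_cast hMdn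
  have hK0 : 0 < K := by linarith
  have hd0 : (0 : ℝ) ≤ d := Nat.cast_nonneg _
  have hV2 := hN.V2_ge
  have hdM0 : 0 ≤ (d : ℝ) * M := by positivity
  have hS0 : 0 ≤ (d : ℝ) * M + V2 m d := by linarith
  have ht0 : (0 : ℝ) < t := by linarith
  have ht3 : (1 : ℝ) ≤ t ^ 3 := one_le_pow₀ (by linarith)
  have ht6 : (1 : ℝ) ≤ t ^ 6 := one_le_pow₀ (by linarith)
  have hKM1 : (M : ℝ) ≤ K * t ^ 3 * M := by
    have h1 : (1 : ℝ) ≤ K * t ^ 3 := one_le_mul_of_one_le_of_one_le hK ht3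
    exact le_mul_of_one_le_left (by positivity) h1
  have hKM2 : (M : ℝ) ^ 2 ≤ K * t ^ 6 * M ^ 2 := by
    have h1 : (1 : ℝ) ≤ K * t ^ 6 := one_le_mul_of_one_le_of_one_le hK ht6
    exact le_mul_of_one_le_left (by positivity) h1
  have c3 : (10 : ℝ) ^ 11 * K * t ^ 3 * M = 10 ^ 11 * (K * t ^ 3 * M) := by ring
  have c6 : (10 : ℝ) ^ 11 * K * t ^ 6 * M ^ 2 = 10 ^ 11 * (K * t ^ 6 * M ^ 2) := by ring
  rw [c3] at hd
  rw [c6] at hV
  have hU0 : (0 : ℝ) ≤ UU m A := Nat.cast_nonneg _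
  by_cases hcase : (M : ℝ) ≤ Real.exp (10 * t)
  · -- the base theorem
    obtain ⟨h1, h2⟩ := base_bd hK0 ht hcase
    have d3 : (10 : ℝ) ^ 8 * K * t ^ 3 * M = 10 ^ 8 * (K * t ^ 3 * M) := by ring
    have d6 : (10 : ℝ) ^ 8 * K * t ^ 6 * M ^ 2 = 10 ^ 8 * (K * t ^ 6 * M ^ 2) := by ring
    rw [d3] at h1
    rw [d6] at h2
    have h4 : 0 ≤ K * t ^ 6 * (M : ℝ) ^ 2 := le_trans (by positivity) hKM2
    apply (hU A m M d hA hN hM1 (by linarith)).1 (by linarith)
    have h3 : 0 ≤ Real.exp (-t) * (d * M + V2 m d) := mul_nonneg (Real.exp_pos _).le hS0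
    linarith
  push Not at hcase
  set X : ℝ := Real.exp t with hX
  have hX0 : 0 < X := Real.exp_pos t
  have hX1 : (100000 : ℝ) ≤ X := by
    refine le_trans ?_ (big2 ht)
    calc (100000 : ℝ) ≤ 2 ^ 17 := by norm_num
      _ ≤ 2 ^ 430 := pow_le_pow_right₀ (by norm_num) (by norm_num)
  have hX10 : Real.exp (10 * t) = X ^ 10 := by
    rw [hX, ← Real.exp_nat_mul]
    norm_num
  have hεX : Real.exp (-t) = 1 / X := by
    rw [Real.exp_neg, one_div]
  have hε2X : Real.exp (-(2 * t)) = 1 / X ^ 2 := by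
    rw [Real.exp_neg, hX, ← Real.exp_nat_mul, ← one_div]
    norm_num
  rw [hX10] at hcase
  rw [hεX] at hUV
  have hI := hin hK hU hUW
  -- the window
  set w : ℝ := 1 / X * (d * M) with hw
  have hw0 : 0 ≤ w := by positivity
  obtain ⟨V, hVdef⟩ : ∃ V, V = V2 m d := ⟨_, rfl⟩
  obtain ⟨N, hNdef⟩ : ∃ N : ℝ, N = (UU m A : ℝ) := ⟨_, rfl⟩
  rw [← hVdef] at hV hV2
  rw [← hVdef, ← hNdef, mul_add, ← hw] at hUV
  rw [← hNdef] at hU0
  have hXV : 0 ≤ 1 / X * V := by
    apply mul_nonneg (by positivity)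
    linarith
  have hwV : w ≤ V := by linarith
  have hX2 : 1 / X ^ 2 * (d * M) = 1 / X * w := by
    rw [hw]; field_simp
  have h1X : 1 / X ≤ 1 / 1000 := by
    apply one_div_le_one_div_of_le (by norm_num)
    linarith
  -- the slack
  by_cases hsl : (m 0 : ℝ) + m 1 + m 2 + 1 / X ^ 2 * M ≤ d
  · apply hI A m M d (2 * t) hA hN hM1 (by linarith)
    · have h1 : (10 : ℝ) ^ 8 * K * (2 * t) ^ 3 * M = (8 * 10 ^ 8) * (K * t ^ 3 * M) := by ring
      rw [h1]
      linarith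
    · rw [← hVdef]
      have h1 : (10 : ℝ) ^ 8 * K * (2 * t) ^ 6 * M ^ 2 = (64 * 10 ^ 8) * (K * t ^ 6 * M ^ 2) := by
        ring
      rw [h1]
      have h4 : 0 ≤ K * t ^ 6 * (M : ℝ) ^ 2 := le_trans (by positivity) hKM2
      linarith
    · rw [hε2X]
      exact hsl
    · rw [hε2X, ← hVdef, ← hNdef, mul_add, hX2]
      have h1 : 1 / X * w ≤ 1 / 1000 * w := mul_le_mul_of_nonneg_right h1X hw0
      have h2 : 1 / X ^ 2 * V = 1 / X * (1 / X * V) := by field_simp
      have h3 : 1 / X * (1 / X * V) ≤ 1 / 1000 * (1 / X * V) :=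
        mul_le_mul_of_nonneg_right h1X hXV
      rw [h2]
      linarith
  push Not at hsl
  have hM0 : (0 : ℝ) < M := by linarith
  -- `η`
  have hMX : 1000000 * X ≤ (M : ℝ) := by
    refine le_trans ?_ hcase.le
    have h1 : X ^ 10 = X ^ 9 * X := by ring
    rw [h1]
    have h2 : (1000000 : ℝ) ≤ X ^ 9 := by
      calc (1000000 : ℝ) ≤ 100000 ^ 2 := by norm_num
        _ ≤ X ^ 2 := pow_le_pow_left₀ (by norm_num) hX1 2
        _ ≤ X ^ 9 := pow_le_pow_right₀ (by linarith) (by norm_num)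
    exact mul_le_mul_of_nonneg_right h2 hX0.le
  set z : ℝ := 1 / X * M with hz
  have hz1 : 1000000 ≤ z := by
    have h1 : 1 / X * (1000000 * X) = 1000000 := by field_simp
    rw [← h1]
    exact mul_le_mul_of_nonneg_left hMX (by positivity)
  have hzM : z ≤ 1 / 1000 * M := mul_le_mul_of_nonneg_right h1X hM0.le
  have hwz : w = z * d := by rw [hw, hz]; ring
  set η : ℕ := ⌊z / 1000⌋₊ with hη
  have n1 : (η : ℝ) ≤ z / 1000 := Nat.floor_le (by linarith)
  have n2 : z / 1000 < η + 1 := Nat.lt_floor_add_one _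
  have n3 : z / 2000 ≤ η := by linarith
  have n4 : (1 : ℝ) ≤ η := by linarith
  have hX2M : 1 / X ^ 2 * (M : ℝ) ≤ η := by
    have h1 : 1 / X ^ 2 * (M : ℝ) = 1 / X * z := by rw [hz]; field_simp
    rw [h1]
    have h2 : 1 / X ≤ 1 / 2000 := by
      apply one_div_le_one_div_of_le (by norm_num)
      linarith
    have h3 : 1 / X * z ≤ 1 / 2000 * z := mul_le_mul_of_nonneg_right h2 (by linarith)
    linarith
  have hηM : 100 * (η : ℝ) ≤ M := by linarith
  -- the coordinates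
  set c := co m d with hc
  obtain ⟨v0, vk⟩ := co_val hN
  rw [← hc] at v0 vk
  obtain ⟨g0, g1, g2, g3, g4, g5, g6, g7, g8, g9⟩ := val_G0 c
  have vk0 : val G0 c 1 = m 0 := vk 0 (by norm_num)
  have vk1 : val G0 c 2 = m 1 := vk 1 (by norm_num)
  have vk2 : val G0 c 3 = m 2 := vk 2 (by norm_num)
  have vk3 : val G0 c 4 = m 3 := vk 3 (by norm_num)
  have vk4 : val G0 c 5 = m 4 := vk 4 (by norm_num)
  have vk5 : val G0 c 6 = m 5 := vk 5 (by norm_num)
  have vk6 : val G0 c 7 = m 6 := vk 6 (by norm_num)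
  have vk7 : val G0 c 8 = m 7 := vk 7 (by norm_num)
  have vk8 : val G0 c 9 = m 8 := vk 8 (by norm_num)
  rw [v0] at g0
  rw [vk0] at g1
  rw [vk1] at g2
  rw [vk2] at g3
  rw [vk3] at g4
  rw [vk4] at g5
  rw [vk5] at g6
  rw [vk6] at g7
  rw [vk7] at g8
  rw [vk8] at g9
  -- `c 0` is small
  have hc0 : (c 0 : ℝ) < η := by
    have h1 : c 0 = d - m 0 - m 1 - m 2 := rfl
    have h2 := hN.red
    have h3 : c 0 + m 0 + m 1 + m 2 = d := by omega
    have h4 : (c 0 : ℝ) + m 0 + m 1 + m 2 = d := by exact_mod_cast h3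
    linarith
  have hc0n : c 0 < η := by exact_mod_cast hc0
  -- one of the moves is possible
  have hmove : (∃ i, 2 ≤ i ∧ i ≤ 8 ∧ 6 * η ≤ c i) ∨ (6 * η ≤ c 1 ∧ M + η ≤ c 9) := by
    by_contra hcon
    push Not at hcon
    obtain ⟨hc2, hc1⟩ := hcon
    have b2 := hc2 2 (by norm_num) (by norm_num)
    have b3 := hc2 3 (by norm_num) (by norm_num)
    have b4 := hc2 4 (by norm_num) (by norm_num)
    have b5 := hc2 5 (by norm_num) (by norm_num)
    have b6 := hc2 6 (by norm_num) (by norm_num)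
    have b7 := hc2 7 (by norm_num) (by norm_num)
    have b8 := hc2 8 (by norm_num) (by norm_num)
    by_cases b1 : 6 * η ≤ c 1
    · -- `m 8` is large
      have b9 := hc1 b1
      have h1 : d ≤ m 0 + 2 * M + 200 * η := by
        clear g2 g3 g4 g5 g6 g7 g8 g9 vk1 vk2 vk3 vk4 vk5 vk6 vk7 vk8
        omega
      have h2 : (d : ℝ) ≤ m 0 + 2 * M + 200 * η := by exact_mod_cast h1
      linarith
    · push Not at b1
      have h1 : 3 * d ≤ (m 0 + m 1 + m 2 + m 3 + m 4 + m 5 + m 6 + m 7 + m 8) + 180 * η := by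
        rw [g0, g1, g2, g3, g4, g5, g6, g7, g8, g9]
        clear g0 g1 g2 g3 g4 g5 g6 g7 g8 g9 vk0 vk1 vk2 vk3 vk4 vk5 vk6 vk7 vk8 v0 vk
        omega
      have h2 : 3 * (d : ℝ) - ∑ i ∈ range 9, (m i : ℝ) ≤ 180 * η := by
        simp only [sum_range_succ, range_zero, sum_empty, zero_add]
        have h3 : 3 * (d : ℝ) ≤ (m 0 + m 1 + m 2 + m 3 + m 4 + m 5 + m 6 + m 7 + m 8) + 180 * η := by
          exact_mod_cast h1
        linarith
      have h3 := V2_upper m d (h := 3 * d - ∑ i ∈ range 9, (m i : ℝ)) rfl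
      obtain ⟨h, hh⟩ : ∃ h, h = 3 * (d : ℝ) - ∑ i ∈ range 9, (m i : ℝ) := ⟨_, rfl⟩
      rw [← hh, ← hVdef] at h3
      rw [← hh] at h2
      have h4 : 2 / 3 * (d : ℝ) * h ≤ 2 / 3 * d * (180 * η) :=
        mul_le_mul_of_nonneg_left h2 (by positivity)
      have h5 : (η : ℝ) ≤ η * d := le_mul_of_one_le_right (by linarith) (by linarith)
      have h6 : 2 / 3 * (d : ℝ) * (180 * η) = 120 * (η * d) := by ring
      have h7 : (η : ℝ) * d ≤ z / 1000 * d := mul_le_mul_of_nonneg_right n1 hd0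
      have h8 : V ≤ 302 * (z / 1000 * d) := by linarith
      have h9 : 302 * (z / 1000 * d) = 302 / 1000 * (z * d) := by ring
      have h10 : 0 < z * d := by
        apply mul_pos (by linarith) (by linarith)
      rw [hwz] at hwV
      linarith
  have hM9 : M ≤ c 9 := by
    have h1 : c 9 = m 8 := rfl
    rw [h1]
    exact hN.big
  obtain ⟨c', hmv, hc9⟩ := exists_move (η := η) hM9 hmove
  clear g0 g1 g2 g3 g4 g5 g6 g7 g8 g9 vk0 vk1 vk2 vk3 vk4 vk5 vk6 vk7 vk8 hmove hM9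
  obtain ⟨u0, u1, u2, u3, u4, u5⟩ := hmv
  rw [v0] at u1 u2
  set d' := val G0 c' 0 with hd'
  set m' := mu9 G0 c' m with hm'
  have f : ∀ k < 9, m' k = val G0 c' (k + 1) := fun k hk => if_pos hk
  have m1 : ∀ r < 9, m' r ≤ m r := by
    intro r hr
    rw [f r hr, ← vk r hr]
    exact u3 r hr
  have m2 : ∀ r < 9, m r ≤ m' r + 6 * η := by
    intro r hr
    rw [f r hr, ← vk r hr]
    exact u4 r hr
  have hN' : Nine m' M d' := nine_of hc9
  have hmt : ∀ k, 9 ≤ k → m' k = m k := by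
    intro k hk
    rw [hm']
    unfold mu9
    rw [if_neg (by omega)]
  have hUU : UU m' A = UU m A := by
    unfold UU
    apply sum_congr rfl
    intro k hk
    rw [hmt k (hA k hk).1]
  obtain ⟨w1, w2⟩ := V2_change u1 u2 m1 m2 (fun r hr => hN.le hr) (by omega)
  obtain ⟨V', hV'⟩ : ∃ V', V' = V2 m' d' := ⟨_, rfl⟩
  rw [← hVdef, ← hV'] at w1 w2
  have hηw : (η : ℝ) * d ≤ w / 1000 := by
    rw [hwz]
    have : (η : ℝ) * d ≤ z / 1000 * d := mul_le_mul_of_nonneg_right n1 hd0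
    linarith
  have hd'r : (d' : ℝ) ≤ d := by exact_mod_cast u1
  have hd'2 : (d : ℝ) ≤ d' + 17 * η := by exact_mod_cast u2
  have hind : Ind (triD 0 d') (rows m' (range 9 ∪ A)) := by
    apply hI A m' M d' (2 * t)
    · intro k hk
      obtain ⟨h1, h2⟩ := hA k hk
      rw [hmt k h1]
      exact ⟨h1, h2⟩
    · exact hN'
    · exact hM1
    · linarith
    · have h1 : (10 : ℝ) ^ 8 * K * (2 * t) ^ 3 * M = (8 * 10 ^ 8) * (K * t ^ 3 * M) := by ring
      rw [h1]
      have h2 : (m' 0 : ℝ) ≤ m 0 := by exact_mod_cast m1 0 (by norm_num)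
      linarith
    · rw [← hV']
      have h1 : (10 : ℝ) ^ 8 * K * (2 * t) ^ 6 * M ^ 2 = (64 * 10 ^ 8) * (K * t ^ 6 * M ^ 2) := by
        ring
      rw [h1]
      have h4 : 0 ≤ K * t ^ 6 * (M : ℝ) ^ 2 := le_trans (by positivity) hKM2
      have h5 : V / 2 ≤ V' := by linarith
      linarith
    · -- slack
      rw [hε2X]
      obtain ⟨p0, p1, p2, p3, _⟩ := val_G0 c'
      have f0 := f 0 (by norm_num)
      have f1 := f 1 (by norm_num)
      have f2 := f 2 (by norm_num)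
      have h1 : m' 0 + m' 1 + m' 2 + η ≤ d' := by
        have q1 : m' 0 = val G0 c' 1 := f0
        have q2 : m' 1 = val G0 c' 2 := f1
        have q3 : m' 2 = val G0 c' 3 := f2
        omega
      have h2 : (m' 0 : ℝ) + m' 1 + m' 2 + η ≤ d' := by exact_mod_cast h1
      linarith
    · rw [hε2X, ← hV', hUU, ← hNdef, mul_add]
      have h0 : 1 / X ^ 2 * ((d' : ℝ) * M) ≤ 1 / X ^ 2 * (d * M) := by
        apply mul_le_mul_of_nonneg_left _ (by positivity)
        exact mul_le_mul_of_nonneg_right hd'r hM0.le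
      rw [hX2] at h0
      have h1 : 1 / X * w ≤ 1 / 1000 * w := mul_le_mul_of_nonneg_right h1X hw0
      have h2 : 1 / X ^ 2 * V' ≤ 1 / X ^ 2 * (V + d * M) := by
        apply mul_le_mul_of_nonneg_left _ (by positivity)
        have h3 : 162 * (η : ℝ) * d ≤ d * M := by
          have h4 : (η : ℝ) * d ≤ 1 / 1000000 * M * d := by
            apply mul_le_mul_of_nonneg_right _ hd0
            linarith
          have h5 := mul_nonneg hM0.le hd0
          linarith only [h4, h5]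
        linarith
      have h3 : 1 / X ^ 2 * (V + d * M) = 1 / X * (1 / X * V) + 1 / X * w := by
        rw [mul_add, hX2]
        congr 1
        field_simp
      have h4 : 1 / X * (1 / X * V) ≤ 1 / 1000 * (1 / X * V) :=
        mul_le_mul_of_nonneg_right h1X hXV
      rw [h3] at h2
      linarith
  have hfin : IndG G0 c m A := u5 m A hind
  unfold IndG at hfin
  rw [v0] at hfin
  have e : rows (mu9 G0 c m) (range 9 ∪ A) = rows m (range 9 ∪ A) := by
    apply rows_congr'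
    intro k _
    unfold mu9
    by_cases hk : k < 9
    · rw [if_pos hk]
      exact vk k hk
    · rw [if_neg hk]
  rw [e] at hfin
  exact hfin

end Pool.Agent.Helper94.AN
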