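import Pool.Agent.Helper94.AN.Cr3

/-!
# Nine largest multiplicities free (MP_d3128a_ag): chains of Cremona transformations

A matrix `G` (a list of ten rows of ten natural numbers) gives the degree (row `0`) and the
multiplicities at the points `0`, …, `8` (rows `1`, …, `9`) as linear forms in the variables `c j`.
-/

set_option autoImplicit false

namespace Pool.Agent.Helper94.AN

open Finset Pool.Agent.Lead.Sh

/-- an entry -/
def ent (G : List (List ℕ)) (r j : ℕ) : ℕ := (G.getD r []).getD j 0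

/-- the value of a row -/
def val (G : List (List ℕ)) (c : ℕ → ℕ) (r : ℕ) : ℕ := ∑ j ∈ range 10, ent G r j * c j

/-- the multiplicities -/
def mu9 (G : List (List ℕ)) (c μ : ℕ → ℕ) : ℕ → ℕ := fun k => if k < 9 then val G c (k + 1) else μ k

/-- the unit vectors -/
def un (i j : ℕ) : ℕ := if j = i then 1 else 0

/-- the vector `k e_i + e e_9` -/
def wv (k i e : ℕ) (j : ℕ) : ℕ := k * un i j + e * un 9 j

/-- `G'` is the transform of `G` at the points `i`, `j`, `k` -/
def OkQ (i j k : ℕ) (G G' : List (List ℕ)) : Prop :=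
  (i < 9 ∧ j < 9 ∧ k < 9 ∧ i ≠ j ∧ i ≠ k ∧ j ≠ k) ∧ ∀ l < 10,
    (ent G' 0 l + ent G (i + 1) l + ent G (j + 1) l + ent G (k + 1) l = 2 * ent G 0 l) ∧
    (ent G' (i + 1) l + ent G (j + 1) l + ent G (k + 1) l = ent G 0 l) ∧
    (ent G' (j + 1) l + ent G (i + 1) l + ent G (k + 1) l = ent G 0 l) ∧
    (ent G' (k + 1) l + ent G (i + 1) l + ent G (j + 1) l = ent G 0 l) ∧
    ∀ r < 9, r = i ∨ r = j ∨ r = k ∨ ent G' (r + 1) l = ent G (r + 1) l

instance (i j k : ℕ) (G G' : List (List ℕ)) : Decidable (OkQ i j k G G') := by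
  unfold OkQ
  infer_instance

lemma OkQ.qd {i j k : ℕ} {G G' : List (List ℕ)} (h : OkQ i j k G G') (c μ : ℕ → ℕ) :
    Qd i j k (val G c 0) (mu9 G c μ) (val G' c 0) (mu9 G' c μ) := by
  obtain ⟨⟨hi, hj, hk, hij, hik, hjk⟩, h⟩ := h
  have e1 : ∀ l < 9, mu9 G c μ l = val G c (l + 1) := fun l hl => if_pos hl
  have e2 : ∀ l < 9, mu9 G' c μ l = val G' c (l + 1) := fun l hl => if_pos hl
  have key : ∀ a b x y z : List (List ℕ) × ℕ,
      (∀ l < 10, ent a.1 a.2 l + ent b.1 b.2 l + ent x.1 x.2 l + ent y.1 y.2 l =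
        ent z.1 z.2 l + ent z.1 z.2 l) →
      val a.1 c a.2 + val b.1 c b.2 + val x.1 c x.2 + val y.1 c y.2 =
        val z.1 c z.2 + val z.1 c z.2 := by
    intro a b x y z hh
    unfold val
    rw [← sum_add_distrib, ← sum_add_distrib, ← sum_add_distrib, ← sum_add_distrib]
    apply sum_congr rfl
    intro l hl
    have := hh l (mem_range.1 hl)
    rw [← add_mul, ← add_mul, ← add_mul, ← add_mul, this]
  have key3 : ∀ a b x z : List (List ℕ) × ℕ,
      (∀ l < 10, ent a.1 a.2 l + ent b.1 b.2 l + ent x.1 x.2 l = ent z.1 z.2 l) →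
      val a.1 c a.2 + val b.1 c b.2 + val x.1 c x.2 = val z.1 c z.2 := by
    intro a b x z hh
    unfold val
    rw [← sum_add_distrib, ← sum_add_distrib]
    apply sum_congr rfl
    intro l hl
    have := hh l (mem_range.1 hl)
    rw [← add_mul, ← add_mul, this]
  refine ⟨hij, hik, hjk, ?_, ?_, ?_, ?_, ?_⟩
  · rw [e1 i hi, e1 j hj, e1 k hk]
    have := key (G', 0) (G, i + 1) (G, j + 1) (G, k + 1) (G, 0) (fun l hl => by
      have := (h l hl).1
      simp only
      omega)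
    simp only at this
    omega
  · rw [e2 i hi, e1 j hj, e1 k hk]
    exact key3 (G', i + 1) (G, j + 1) (G, k + 1) (G, 0) (fun l hl => (h l hl).2.1)
  · rw [e2 j hj, e1 i hi, e1 k hk]
    exact key3 (G', j + 1) (G, i + 1) (G, k + 1) (G, 0) (fun l hl => (h l hl).2.2.1)
  · rw [e2 k hk, e1 i hi, e1 j hj]
    exact key3 (G', k + 1) (G, i + 1) (G, j + 1) (G, 0) (fun l hl => (h l hl).2.2.2.1)
  · intro l h1 h2 h3
    by_cases hl : l < 9
    · rw [e1 l hl, e2 l hl]
      unfold val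
      apply sum_congr rfl
      intro x hx
      have h4 := (h x (mem_range.1 hx)).2.2.2.2 l hl
      have h5 : ent G' (l + 1) x = ent G (l + 1) x := by
        rcases h4 with h4 | h4 | h4 | h4
        · exact absurd h4 h1
        · exact absurd h4 h2
        · exact absurd h4 h3
        · exact h4
      rw [h5]
    · unfold mu9
      rw [if_neg hl, if_neg hl]

/-- independence of the system of the matrix `G` -/
def IndG (G : List (List ℕ)) (c μ : ℕ → ℕ) (A : Finset ℕ) : Prop :=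
  Ind (triD 0 (val G c 0)) (rows (mu9 G c μ) (range 9 ∪ A))

lemma Qd.symm {i j k d d' : ℕ} {m m' : ℕ → ℕ} (h : Qd i j k d m d' m') : Qd i j k d' m' d m := by
  obtain ⟨hij, hik, hjk, e0, ei, ej, ek, eo⟩ := h
  exact ⟨hij, hik, hjk, by omega, by omega, by omega, by omega,
    fun l h1 h2 h3 => (eo l h1 h2 h3).symm⟩

lemma OkQ.fwd {i j k : ℕ} {G G' : List (List ℕ)} (h : OkQ i j k G G') {c μ : ℕ → ℕ}
    {A : Finset ℕ} (hI : IndG G c μ A) : IndG G' c μ A :=
  cr_ind (h.qd c μ) (mem_union_left _ (mem_range.2 h.1.1)) (mem_union_left _ (mem_range.2 h.1.2.1))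
    (mem_union_left _ (mem_range.2 h.1.2.2.1)) hI

lemma OkQ.bwd {i j k : ℕ} {G G' : List (List ℕ)} (h : OkQ i j k G G') {c μ : ℕ → ℕ}
    {A : Finset ℕ} (hI : IndG G' c μ A) : IndG G c μ A :=
  cr_ind (h.qd c μ).symm (mem_union_left _ (mem_range.2 h.1.1))
    (mem_union_left _ (mem_range.2 h.1.2.1)) (mem_union_left _ (mem_range.2 h.1.2.2.1)) hI

/-- adding a class which increases the degree and decreases the multiplicities -/
lemma addM {G : List (List ℕ)} {u w : ℕ → ℕ}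
    (hG : val G u 0 ≤ val G w 0 ∧ ∀ r < 9, val G w (r + 1) ≤ val G u (r + 1))
    {c c' : ℕ → ℕ} {η : ℕ} {μ : ℕ → ℕ} {A : Finset ℕ}
    (h : ∀ j < 10, c' j + η * u j = c j + η * w j) (hI : IndG G c μ A) : IndG G c' μ A := by
  have key : ∀ r, val G c' r + η * val G u r = val G c r + η * val G w r := by
    intro r
    unfold val
    rw [mul_sum, mul_sum, ← sum_add_distrib, ← sum_add_distrib]
    apply sum_congr rfl
    intro j hj
    have h1 := h j (mem_range.1 hj)
    calc ent G r j * c' j + η * (ent G r j * u j) = ent G r j * (c' j + η * u j) := by ring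
      _ = ent G r j * (c j + η * w j) := by rw [h1]
      _ = _ := by ring
  apply hI.mono
  · intro p hp
    rw [mem_triD] at hp ⊢
    have h1 := key 0
    have h2 := Nat.mul_le_mul_left η hG.1
    omega
  · intro r hr
    rw [mem_rows] at hr ⊢
    refine ⟨hr.1, lt_of_lt_of_le hr.2 ?_⟩
    unfold mu9
    by_cases hl : r.1 < 9
    · rw [if_pos hl, if_pos hl]
      have h1 := key (r.1 + 1)
      have h2 := Nat.mul_le_mul_left η (hG.2 r.1 hl)
      omega
    · rw [if_neg hl, if_neg hl]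

/-- the matrix of the fundamental chamber -/
def G0 : List (List ℕ) :=
  [[1, 1, 2, 3, 3, 3, 3, 3, 3, 3],
   [0, 1, 1, 1, 1, 1, 1, 1, 1, 1],
   [0, 0, 1, 1, 1, 1, 1, 1, 1, 1],
   [0, 0, 0, 1, 1, 1, 1, 1, 1, 1],
   [0, 0, 0, 0, 1, 1, 1, 1, 1, 1],
   [0, 0, 0, 0, 0, 1, 1, 1, 1, 1],
   [0, 0, 0, 0, 0, 0, 1, 1, 1, 1],
   [0, 0, 0, 0, 0, 0, 0, 1, 1, 1],
   [0, 0, 0, 0, 0, 0, 0, 0, 1, 1],
   [0, 0, 0, 0, 0, 0, 0, 0, 0, 1]]

end Pool.Agent.Helper94.AN
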