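import Pool.Agent.Helper94.AN.Mat

/-!
# Nine largest multiplicities free (MP_d3128a_ag): the Cremona transformations used (generated)
-/

set_option autoImplicit false

namespace Pool.Agent.Helper94.AN

open Finset Pool.Agent.Lead.Sh

def g1x1 : List (List ℕ) :=
  [[2, 1, 2, 3, 3, 3, 3, 3, 3, 3],
   [1, 1, 1, 1, 1, 1, 1, 1, 1, 1],
   [1, 0, 1, 1, 1, 1, 1, 1, 1, 1],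
   [1, 0, 0, 1, 1, 1, 1, 1, 1, 1],
   [0, 0, 0, 0, 1, 1, 1, 1, 1, 1],
   [0, 0, 0, 0, 0, 1, 1, 1, 1, 1],
   [0, 0, 0, 0, 0, 0, 1, 1, 1, 1],
   [0, 0, 0, 0, 0, 0, 0, 1, 1, 1],
   [0, 0, 0, 0, 0, 0, 0, 0, 1, 1],
   [0, 0, 0, 0, 0, 0, 0, 0, 0, 1]]

lemma q1x1 : OkQ 0 1 2 G0 g1x1 := by decide

def g1x2 : List (List ℕ) :=
  [[3, 1, 3, 5, 4, 3, 3, 3, 3, 3],
   [2, 1, 2, 3, 2, 1, 1, 1, 1, 1],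
   [1, 0, 1, 1, 1, 1, 1, 1, 1, 1],
   [1, 0, 0, 1, 1, 1, 1, 1, 1, 1],
   [1, 0, 1, 2, 2, 1, 1, 1, 1, 1],
   [1, 0, 1, 2, 1, 1, 1, 1, 1, 1],
   [0, 0, 0, 0, 0, 0, 1, 1, 1, 1],
   [0, 0, 0, 0, 0, 0, 0, 1, 1, 1],
   [0, 0, 0, 0, 0, 0, 0, 0, 1, 1],
   [0, 0, 0, 0, 0, 0, 0, 0, 0, 1]]

lemma q1x2 : OkQ 0 3 4 g1x1 g1x2 := by decide

def g1x3 : List (List ℕ) :=
  [[4, 1, 4, 7, 6, 5, 4, 3, 3, 3],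
   [3, 1, 3, 5, 4, 3, 2, 1, 1, 1],
   [1, 0, 1, 1, 1, 1, 1, 1, 1, 1],
   [1, 0, 0, 1, 1, 1, 1, 1, 1, 1],
   [1, 0, 1, 2, 2, 1, 1, 1, 1, 1],
   [1, 0, 1, 2, 1, 1, 1, 1, 1, 1],
   [1, 0, 1, 2, 2, 2, 2, 1, 1, 1],
   [1, 0, 1, 2, 2, 2, 1, 1, 1, 1],
   [0, 0, 0, 0, 0, 0, 0, 0, 1, 1],
   [0, 0, 0, 0, 0, 0, 0, 0, 0, 1]]

lemma q1x3 : OkQ 0 5 6 g1x2 g1x3 := by decide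

def g1x4 : List (List ℕ) :=
  [[5, 1, 5, 9, 8, 7, 6, 5, 4, 3],
   [4, 1, 4, 7, 6, 5, 4, 3, 2, 1],
   [1, 0, 1, 1, 1, 1, 1, 1, 1, 1],
   [1, 0, 0, 1, 1, 1, 1, 1, 1, 1],
   [1, 0, 1, 2, 2, 1, 1, 1, 1, 1],
   [1, 0, 1, 2, 1, 1, 1, 1, 1, 1],
   [1, 0, 1, 2, 2, 2, 2, 1, 1, 1],
   [1, 0, 1, 2, 2, 2, 1, 1, 1, 1],
   [1, 0, 1, 2, 2, 2, 2, 2, 2, 1],
   [1, 0, 1, 2, 2, 2, 2, 2, 1, 1]]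

lemma q1x4 : OkQ 0 7 8 g1x3 g1x4 := by decide

lemma add1 {c c' : ℕ → ℕ} {η : ℕ} {μ : ℕ → ℕ} {A : Finset ℕ}
    (h : ∀ j < 10, c' j + η * (un 0) j = c j + η * (wv 2 1 1) j) (hI : IndG G0 c μ A) :
    IndG G0 c' μ A := by
  have h1 := (q1x4.fwd (q1x3.fwd (q1x2.fwd (q1x1.fwd hI))))
  have h2 : IndG g1x4 c' μ A := addM (u := un 0) (w := wv 2 1 1) (by decide) h h1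
  exact (q1x1.bwd (q1x2.bwd (q1x3.bwd (q1x4.bwd h2))))

def g2x1 : List (List ℕ) :=
  [[2, 1, 2, 3, 3, 3, 3, 3, 3, 3],
   [1, 1, 1, 1, 1, 1, 1, 1, 1, 1],
   [1, 0, 1, 1, 1, 1, 1, 1, 1, 1],
   [1, 0, 0, 1, 1, 1, 1, 1, 1, 1],
   [0, 0, 0, 0, 1, 1, 1, 1, 1, 1],
   [0, 0, 0, 0, 0, 1, 1, 1, 1, 1],
   [0, 0, 0, 0, 0, 0, 1, 1, 1, 1],
   [0, 0, 0, 0, 0, 0, 0, 1, 1, 1],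
   [0, 0, 0, 0, 0, 0, 0, 0, 1, 1],
   [0, 0, 0, 0, 0, 0, 0, 0, 0, 1]]

lemma q2x1 : OkQ 0 1 2 G0 g2x1 := by decide

lemma add2 {c c' : ℕ → ℕ} {η : ℕ} {μ : ℕ → ℕ} {A : Finset ℕ}
    (h : ∀ j < 10, c' j + η * (un 0) j = c j + η * (wv 1 2 0) j) (hI : IndG G0 c μ A) :
    IndG G0 c' μ A := by
  have h1 := (q2x1.fwd hI)
  have h2 : IndG g2x1 c' μ A := addM (u := un 0) (w := wv 1 2 0) (by decide) h h1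
  exact (q2x1.bwd h2)

def g3x1 : List (List ℕ) :=
  [[2, 1, 2, 3, 3, 3, 3, 3, 3, 3],
   [1, 1, 1, 1, 1, 1, 1, 1, 1, 1],
   [1, 0, 1, 1, 1, 1, 1, 1, 1, 1],
   [1, 0, 0, 1, 1, 1, 1, 1, 1, 1],
   [0, 0, 0, 0, 1, 1, 1, 1, 1, 1],
   [0, 0, 0, 0, 0, 1, 1, 1, 1, 1],
   [0, 0, 0, 0, 0, 0, 1, 1, 1, 1],
   [0, 0, 0, 0, 0, 0, 0, 1, 1, 1],
   [0, 0, 0, 0, 0, 0, 0, 0, 1, 1],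
   [0, 0, 0, 0, 0, 0, 0, 0, 0, 1]]

lemma q3x1 : OkQ 0 1 2 G0 g3x1 := by decide

lemma add3 {c c' : ℕ → ℕ} {η : ℕ} {μ : ℕ → ℕ} {A : Finset ℕ}
    (h : ∀ j < 10, c' j + η * (un 0) j = c j + η * (wv 1 3 0) j) (hI : IndG G0 c μ A) :
    IndG G0 c' μ A := by
  have h1 := (q3x1.fwd hI)
  have h2 : IndG g3x1 c' μ A := addM (u := un 0) (w := wv 1 3 0) (by decide) h h1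
  exact (q3x1.bwd h2)

def g4bx1 : List (List ℕ) :=
  [[2, 1, 3, 4, 3, 3, 3, 3, 3, 3],
   [1, 1, 2, 2, 1, 1, 1, 1, 1, 1],
   [0, 0, 1, 1, 1, 1, 1, 1, 1, 1],
   [1, 0, 1, 2, 1, 1, 1, 1, 1, 1],
   [1, 0, 1, 1, 1, 1, 1, 1, 1, 1],
   [0, 0, 0, 0, 0, 1, 1, 1, 1, 1],
   [0, 0, 0, 0, 0, 0, 1, 1, 1, 1],
   [0, 0, 0, 0, 0, 0, 0, 1, 1, 1],
   [0, 0, 0, 0, 0, 0, 0, 0, 1, 1],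
   [0, 0, 0, 0, 0, 0, 0, 0, 0, 1]]

lemma q4bx1 : OkQ 0 2 3 G0 g4bx1 := by decide

lemma add4b {c c' : ℕ → ℕ} {η : ℕ} {μ : ℕ → ℕ} {A : Finset ℕ}
    (h : ∀ j < 10, c' j + η * (un 2) j = c j + η * (un 4) j) (hI : IndG G0 c μ A) :
    IndG G0 c' μ A := by
  have h1 := (q4bx1.fwd hI)
  have h2 : IndG g4bx1 c' μ A := addM (u := un 2) (w := un 4) (by decide) h h1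
  exact (q4bx1.bwd h2)

def g5x1 : List (List ℕ) :=
  [[2, 1, 2, 3, 3, 3, 3, 3, 3, 3],
   [1, 1, 1, 1, 1, 1, 1, 1, 1, 1],
   [1, 0, 1, 1, 1, 1, 1, 1, 1, 1],
   [1, 0, 0, 1, 1, 1, 1, 1, 1, 1],
   [0, 0, 0, 0, 1, 1, 1, 1, 1, 1],
   [0, 0, 0, 0, 0, 1, 1, 1, 1, 1],
   [0, 0, 0, 0, 0, 0, 1, 1, 1, 1],
   [0, 0, 0, 0, 0, 0, 0, 1, 1, 1],
   [0, 0, 0, 0, 0, 0, 0, 0, 1, 1],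
   [0, 0, 0, 0, 0, 0, 0, 0, 0, 1]]

lemma q5x1 : OkQ 0 1 2 G0 g5x1 := by decide

def g5x2 : List (List ℕ) :=
  [[3, 1, 3, 5, 4, 3, 3, 3, 3, 3],
   [2, 1, 2, 3, 2, 1, 1, 1, 1, 1],
   [1, 0, 1, 1, 1, 1, 1, 1, 1, 1],
   [1, 0, 0, 1, 1, 1, 1, 1, 1, 1],
   [1, 0, 1, 2, 2, 1, 1, 1, 1, 1],
   [1, 0, 1, 2, 1, 1, 1, 1, 1, 1],
   [0, 0, 0, 0, 0, 0, 1, 1, 1, 1],
   [0, 0, 0, 0, 0, 0, 0, 1, 1, 1],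
   [0, 0, 0, 0, 0, 0, 0, 0, 1, 1],
   [0, 0, 0, 0, 0, 0, 0, 0, 0, 1]]

lemma q5x2 : OkQ 0 3 4 g5x1 g5x2 := by decide

lemma add5 {c c' : ℕ → ℕ} {η : ℕ} {μ : ℕ → ℕ} {A : Finset ℕ}
    (h : ∀ j < 10, c' j + η * (un 0) j = c j + η * (wv 1 5 0) j) (hI : IndG G0 c μ A) :
    IndG G0 c' μ A := by
  have h1 := (q5x2.fwd (q5x1.fwd hI))
  have h2 : IndG g5x2 c' μ A := addM (u := un 0) (w := wv 1 5 0) (by decide) h h1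
  exact (q5x1.bwd (q5x2.bwd h2))

def g6x1 : List (List ℕ) :=
  [[2, 1, 2, 3, 3, 3, 3, 3, 3, 3],
   [1, 1, 1, 1, 1, 1, 1, 1, 1, 1],
   [1, 0, 1, 1, 1, 1, 1, 1, 1, 1],
   [1, 0, 0, 1, 1, 1, 1, 1, 1, 1],
   [0, 0, 0, 0, 1, 1, 1, 1, 1, 1],
   [0, 0, 0, 0, 0, 1, 1, 1, 1, 1],
   [0, 0, 0, 0, 0, 0, 1, 1, 1, 1],
   [0, 0, 0, 0, 0, 0, 0, 1, 1, 1],
   [0, 0, 0, 0, 0, 0, 0, 0, 1, 1],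
   [0, 0, 0, 0, 0, 0, 0, 0, 0, 1]]

lemma q6x1 : OkQ 0 1 2 G0 g6x1 := by decide

def g6x2 : List (List ℕ) :=
  [[4, 2, 4, 6, 5, 4, 3, 3, 3, 3],
   [1, 1, 1, 1, 1, 1, 1, 1, 1, 1],
   [1, 0, 1, 1, 1, 1, 1, 1, 1, 1],
   [1, 0, 0, 1, 1, 1, 1, 1, 1, 1],
   [2, 1, 2, 3, 3, 2, 1, 1, 1, 1],
   [2, 1, 2, 3, 2, 2, 1, 1, 1, 1],
   [2, 1, 2, 3, 2, 1, 1, 1, 1, 1],
   [0, 0, 0, 0, 0, 0, 0, 1, 1, 1],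
   [0, 0, 0, 0, 0, 0, 0, 0, 1, 1],
   [0, 0, 0, 0, 0, 0, 0, 0, 0, 1]]

lemma q6x2 : OkQ 3 4 5 g6x1 g6x2 := by decide

def g6x3 : List (List ℕ) :=
  [[5, 3, 6, 9, 7, 5, 3, 3, 3, 3],
   [2, 2, 3, 4, 3, 2, 1, 1, 1, 1],
   [2, 1, 3, 4, 3, 2, 1, 1, 1, 1],
   [2, 1, 2, 4, 3, 2, 1, 1, 1, 1],
   [2, 1, 2, 3, 3, 2, 1, 1, 1, 1],
   [2, 1, 2, 3, 2, 2, 1, 1, 1, 1],
   [2, 1, 2, 3, 2, 1, 1, 1, 1, 1],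
   [0, 0, 0, 0, 0, 0, 0, 1, 1, 1],
   [0, 0, 0, 0, 0, 0, 0, 0, 1, 1],
   [0, 0, 0, 0, 0, 0, 0, 0, 0, 1]]

lemma q6x3 : OkQ 0 1 2 g6x2 g6x3 := by decide

lemma add6 {c c' : ℕ → ℕ} {η : ℕ} {μ : ℕ → ℕ} {A : Finset ℕ}
    (h : ∀ j < 10, c' j + η * (un 0) j = c j + η * (wv 2 6 0) j) (hI : IndG G0 c μ A) :
    IndG G0 c' μ A := by
  have h1 := (q6x3.fwd (q6x2.fwd (q6x1.fwd hI)))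
  have h2 : IndG g6x3 c' μ A := addM (u := un 0) (w := wv 2 6 0) (by decide) h h1
  exact (q6x1.bwd (q6x2.bwd (q6x3.bwd h2)))

def g7x1 : List (List ℕ) :=
  [[2, 1, 2, 3, 3, 3, 3, 3, 3, 3],
   [1, 1, 1, 1, 1, 1, 1, 1, 1, 1],
   [1, 0, 1, 1, 1, 1, 1, 1, 1, 1],
   [1, 0, 0, 1, 1, 1, 1, 1, 1, 1],
   [0, 0, 0, 0, 1, 1, 1, 1, 1, 1],
   [0, 0, 0, 0, 0, 1, 1, 1, 1, 1],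
   [0, 0, 0, 0, 0, 0, 1, 1, 1, 1],
   [0, 0, 0, 0, 0, 0, 0, 1, 1, 1],
   [0, 0, 0, 0, 0, 0, 0, 0, 1, 1],
   [0, 0, 0, 0, 0, 0, 0, 0, 0, 1]]

lemma q7x1 : OkQ 0 1 2 G0 g7x1 := by decide

def g7x2 : List (List ℕ) :=
  [[4, 2, 4, 6, 5, 4, 3, 3, 3, 3],
   [1, 1, 1, 1, 1, 1, 1, 1, 1, 1],
   [1, 0, 1, 1, 1, 1, 1, 1, 1, 1],
   [1, 0, 0, 1, 1, 1, 1, 1, 1, 1],
   [2, 1, 2, 3, 3, 2, 1, 1, 1, 1],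
   [2, 1, 2, 3, 2, 2, 1, 1, 1, 1],
   [2, 1, 2, 3, 2, 1, 1, 1, 1, 1],
   [0, 0, 0, 0, 0, 0, 0, 1, 1, 1],
   [0, 0, 0, 0, 0, 0, 0, 0, 1, 1],
   [0, 0, 0, 0, 0, 0, 0, 0, 0, 1]]

lemma q7x2 : OkQ 3 4 5 g7x1 g7x2 := by decide

def g7x3 : List (List ℕ) :=
  [[6, 3, 6, 10, 8, 6, 4, 3, 3, 3],
   [3, 2, 3, 5, 4, 3, 2, 1, 1, 1],
   [3, 1, 3, 5, 4, 3, 2, 1, 1, 1],
   [1, 0, 0, 1, 1, 1, 1, 1, 1, 1],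
   [2, 1, 2, 3, 3, 2, 1, 1, 1, 1],
   [2, 1, 2, 3, 2, 2, 1, 1, 1, 1],
   [2, 1, 2, 3, 2, 1, 1, 1, 1, 1],
   [2, 1, 2, 4, 3, 2, 1, 1, 1, 1],
   [0, 0, 0, 0, 0, 0, 0, 0, 1, 1],
   [0, 0, 0, 0, 0, 0, 0, 0, 0, 1]]

lemma q7x3 : OkQ 0 1 6 g7x2 g7x3 := by decide

def g7x4 : List (List ℕ) :=
  [[7, 4, 8, 13, 10, 7, 5, 3, 3, 3],
   [3, 2, 3, 5, 4, 3, 2, 1, 1, 1],
   [3, 1, 3, 5, 4, 3, 2, 1, 1, 1],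
   [2, 1, 2, 4, 3, 2, 2, 1, 1, 1],
   [3, 2, 4, 6, 5, 3, 2, 1, 1, 1],
   [3, 2, 4, 6, 4, 3, 2, 1, 1, 1],
   [2, 1, 2, 3, 2, 1, 1, 1, 1, 1],
   [2, 1, 2, 4, 3, 2, 1, 1, 1, 1],
   [0, 0, 0, 0, 0, 0, 0, 0, 1, 1],
   [0, 0, 0, 0, 0, 0, 0, 0, 0, 1]]

lemma q7x4 : OkQ 2 3 4 g7x3 g7x4 := by decide

def g7x5 : List (List ℕ) :=
  [[8, 5, 10, 15, 12, 9, 6, 3, 3, 3],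
   [3, 2, 3, 5, 4, 3, 2, 1, 1, 1],
   [3, 1, 3, 5, 4, 3, 2, 1, 1, 1],
   [3, 2, 4, 6, 5, 4, 3, 1, 1, 1],
   [3, 2, 4, 6, 5, 3, 2, 1, 1, 1],
   [3, 2, 4, 6, 4, 3, 2, 1, 1, 1],
   [3, 2, 4, 5, 4, 3, 2, 1, 1, 1],
   [3, 2, 4, 6, 5, 4, 2, 1, 1, 1],
   [0, 0, 0, 0, 0, 0, 0, 0, 1, 1],
   [0, 0, 0, 0, 0, 0, 0, 0, 0, 1]]

lemma q7x5 : OkQ 2 5 6 g7x4 g7x5 := by decide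

lemma add7 {c c' : ℕ → ℕ} {η : ℕ} {μ : ℕ → ℕ} {A : Finset ℕ}
    (h : ∀ j < 10, c' j + η * (un 0) j = c j + η * (wv 3 7 0) j) (hI : IndG G0 c μ A) :
    IndG G0 c' μ A := by
  have h1 := (q7x5.fwd (q7x4.fwd (q7x3.fwd (q7x2.fwd (q7x1.fwd hI)))))
  have h2 : IndG g7x5 c' μ A := addM (u := un 0) (w := wv 3 7 0) (by decide) h h1
  exact (q7x1.bwd (q7x2.bwd (q7x3.bwd (q7x4.bwd (q7x5.bwd h2)))))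

def g8x1 : List (List ℕ) :=
  [[2, 1, 2, 3, 3, 3, 3, 3, 3, 3],
   [1, 1, 1, 1, 1, 1, 1, 1, 1, 1],
   [1, 0, 1, 1, 1, 1, 1, 1, 1, 1],
   [1, 0, 0, 1, 1, 1, 1, 1, 1, 1],
   [0, 0, 0, 0, 1, 1, 1, 1, 1, 1],
   [0, 0, 0, 0, 0, 1, 1, 1, 1, 1],
   [0, 0, 0, 0, 0, 0, 1, 1, 1, 1],
   [0, 0, 0, 0, 0, 0, 0, 1, 1, 1],
   [0, 0, 0, 0, 0, 0, 0, 0, 1, 1],
   [0, 0, 0, 0, 0, 0, 0, 0, 0, 1]]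

lemma q8x1 : OkQ 0 1 2 G0 g8x1 := by decide

def g8x2 : List (List ℕ) :=
  [[4, 2, 4, 6, 5, 4, 3, 3, 3, 3],
   [1, 1, 1, 1, 1, 1, 1, 1, 1, 1],
   [1, 0, 1, 1, 1, 1, 1, 1, 1, 1],
   [1, 0, 0, 1, 1, 1, 1, 1, 1, 1],
   [2, 1, 2, 3, 3, 2, 1, 1, 1, 1],
   [2, 1, 2, 3, 2, 2, 1, 1, 1, 1],
   [2, 1, 2, 3, 2, 1, 1, 1, 1, 1],
   [0, 0, 0, 0, 0, 0, 0, 1, 1, 1],
   [0, 0, 0, 0, 0, 0, 0, 0, 1, 1],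
   [0, 0, 0, 0, 0, 0, 0, 0, 0, 1]]

lemma q8x2 : OkQ 3 4 5 g8x1 g8x2 := by decide

def g8x3 : List (List ℕ) :=
  [[7, 3, 7, 11, 9, 7, 5, 4, 3, 3],
   [4, 2, 4, 6, 5, 4, 3, 2, 1, 1],
   [1, 0, 1, 1, 1, 1, 1, 1, 1, 1],
   [1, 0, 0, 1, 1, 1, 1, 1, 1, 1],
   [2, 1, 2, 3, 3, 2, 1, 1, 1, 1],
   [2, 1, 2, 3, 2, 2, 1, 1, 1, 1],
   [2, 1, 2, 3, 2, 1, 1, 1, 1, 1],
   [3, 1, 3, 5, 4, 3, 2, 2, 1, 1],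
   [3, 1, 3, 5, 4, 3, 2, 1, 1, 1],
   [0, 0, 0, 0, 0, 0, 0, 0, 0, 1]]

lemma q8x3 : OkQ 0 6 7 g8x2 g8x3 := by decide

def g8x4 : List (List ℕ) :=
  [[10, 5, 11, 17, 13, 10, 7, 5, 3, 3],
   [4, 2, 4, 6, 5, 4, 3, 2, 1, 1],
   [4, 2, 5, 7, 5, 4, 3, 2, 1, 1],
   [4, 2, 4, 7, 5, 4, 3, 2, 1, 1],
   [5, 3, 6, 9, 7, 5, 3, 2, 1, 1],
   [2, 1, 2, 3, 2, 2, 1, 1, 1, 1],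
   [2, 1, 2, 3, 2, 1, 1, 1, 1, 1],
   [3, 1, 3, 5, 4, 3, 2, 2, 1, 1],
   [3, 1, 3, 5, 4, 3, 2, 1, 1, 1],
   [0, 0, 0, 0, 0, 0, 0, 0, 0, 1]]

lemma q8x4 : OkQ 1 2 3 g8x3 g8x4 := by decide

def g8x5 : List (List ℕ) :=
  [[13, 7, 15, 23, 18, 14, 10, 6, 3, 3],
   [4, 2, 4, 6, 5, 4, 3, 2, 1, 1],
   [4, 2, 5, 7, 5, 4, 3, 2, 1, 1],
   [4, 2, 4, 7, 5, 4, 3, 2, 1, 1],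
   [5, 3, 6, 9, 7, 5, 3, 2, 1, 1],
   [5, 3, 6, 9, 7, 6, 4, 2, 1, 1],
   [5, 3, 6, 9, 7, 5, 4, 2, 1, 1],
   [6, 3, 7, 11, 9, 7, 5, 3, 1, 1],
   [3, 1, 3, 5, 4, 3, 2, 1, 1, 1],
   [0, 0, 0, 0, 0, 0, 0, 0, 0, 1]]

lemma q8x5 : OkQ 4 5 6 g8x4 g8x5 := by decide

def g8x6 : List (List ℕ) :=
  [[15, 9, 18, 28, 22, 17, 12, 7, 3, 3],
   [6, 4, 7, 11, 9, 7, 5, 3, 1, 1],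
   [6, 4, 8, 12, 9, 7, 5, 3, 1, 1],
   [4, 2, 4, 7, 5, 4, 3, 2, 1, 1],
   [5, 3, 6, 9, 7, 5, 3, 2, 1, 1],
   [5, 3, 6, 9, 7, 6, 4, 2, 1, 1],
   [5, 3, 6, 9, 7, 5, 4, 2, 1, 1],
   [6, 3, 7, 11, 9, 7, 5, 3, 1, 1],
   [5, 3, 6, 10, 8, 6, 4, 2, 1, 1],
   [0, 0, 0, 0, 0, 0, 0, 0, 0, 1]]

lemma q8x6 : OkQ 0 1 7 g8x5 g8x6 := by decide

def g8x7 : List (List ℕ) :=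
  [[16, 10, 20, 31, 25, 19, 14, 8, 3, 3],
   [6, 4, 7, 11, 9, 7, 5, 3, 1, 1],
   [6, 4, 8, 12, 9, 7, 5, 3, 1, 1],
   [5, 3, 6, 10, 8, 6, 5, 3, 1, 1],
   [6, 4, 8, 12, 10, 7, 5, 3, 1, 1],
   [6, 4, 8, 12, 10, 8, 6, 3, 1, 1],
   [5, 3, 6, 9, 7, 5, 4, 2, 1, 1],
   [6, 3, 7, 11, 9, 7, 5, 3, 1, 1],
   [5, 3, 6, 10, 8, 6, 4, 2, 1, 1],
   [0, 0, 0, 0, 0, 0, 0, 0, 0, 1]]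

lemma q8x7 : OkQ 2 3 4 g8x6 g8x7 := by decide

def g8x8 : List (List ℕ) :=
  [[17, 11, 22, 33, 27, 21, 15, 9, 3, 3],
   [6, 4, 7, 11, 9, 7, 5, 3, 1, 1],
   [6, 4, 8, 12, 9, 7, 5, 3, 1, 1],
   [6, 4, 8, 12, 10, 8, 6, 4, 1, 1],
   [6, 4, 8, 12, 10, 7, 5, 3, 1, 1],
   [6, 4, 8, 12, 10, 8, 6, 3, 1, 1],
   [6, 4, 8, 11, 9, 7, 5, 3, 1, 1],
   [6, 3, 7, 11, 9, 7, 5, 3, 1, 1],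
   [6, 4, 8, 12, 10, 8, 5, 3, 1, 1],
   [0, 0, 0, 0, 0, 0, 0, 0, 0, 1]]

lemma q8x8 : OkQ 2 5 7 g8x7 g8x8 := by decide

lemma add8 {c c' : ℕ → ℕ} {η : ℕ} {μ : ℕ → ℕ} {A : Finset ℕ}
    (h : ∀ j < 10, c' j + η * (un 0) j = c j + η * (wv 6 8 0) j) (hI : IndG G0 c μ A) :
    IndG G0 c' μ A := by
  have h1 := (q8x8.fwd (q8x7.fwd (q8x6.fwd (q8x5.fwd (q8x4.fwd (q8x3.fwd (q8x2.fwd (q8x1.fwd hI))))))))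
  have h2 : IndG g8x8 c' μ A := addM (u := un 0) (w := wv 6 8 0) (by decide) h h1
  exact (q8x1.bwd (q8x2.bwd (q8x3.bwd (q8x4.bwd (q8x5.bwd (q8x6.bwd (q8x7.bwd (q8x8.bwd h2))))))))

end Pool.Agent.Helper94.AN
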