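import Pool.Agent.Helper59.AN.Goals

/-!
# Packet ORD
-/

namespace AN.PkORD

open Cardinal AN

theorem ord : G_ORD := by
  refine ⟨(Cardinal.aleph 1).ord.ToType, inferInstance, ?_, ?_⟩
  · refine ⟨wellFounded_lt, ?_, ?_⟩
    · rw [← Cardinal.aleph0_lt_mk_iff, Cardinal.mk_ord_toType]
      exact Cardinal.aleph0_lt_aleph_one
    · intro x
      have h1 : #(Set.Iio x) < Cardinal.aleph 1 := by
        simpa using Cardinal.mk_Iio_lt x
      have h2 : (Set.Iio x).Countable := by
        rw [← Cardinal.le_aleph0_iff_set_countable]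
        rw [← Order.lt_succ_iff, Cardinal.succ_aleph0]
        exact h1
      have h3 : Set.Iic x = insert x (Set.Iio x) := by
        ext y
        simp [le_iff_eq_or_lt]
      rw [h3]
      exact h2.insert x
  · have h : #((Cardinal.aleph 1).ord.ToType) ≤ #(Set ℕ) := by
      rw [Cardinal.mk_ord_toType, Cardinal.mk_set, Cardinal.mk_nat, Cardinal.two_power_aleph0]
      exact Cardinal.aleph_one_le_continuum
    obtain ⟨f⟩ := h
    exact ⟨f, f.injective⟩

end AN.PkORD
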