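import Pool.Agent.Helper94.AN.AllU

/-!
# Solvable groups: the largest virtually nilpotent derived quotient
-/

set_option autoImplicit false

namespace Pool.Agent.Helper94.AN

open scoped commutatorElement

/-- If `H` has finite index in `Q`, `Q⁽ᵏ⁾ ≤ H`, `N = Q⁽ᵏ⁾` as a subgroup of `H` and `H/[N,N]` is
virtually nilpotent, then so is `Q/Q⁽ᵏ⁺¹⁾`. -/
theorem vn_up {Q : Type*} [Group Q] (H : Subgroup Q) (hH : H.index ≠ 0) (k : ℕ)
    (hle : derivedSeries Q k ≤ H) [hN : ((derivedSeries Q k).subgroupOf H).Normal]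
    (h : ∃ M : Subgroup (H ⧸ ⁅(derivedSeries Q k).subgroupOf H, (derivedSeries Q k).subgroupOf H⁆),
      M.FiniteIndex ∧ Group.IsNilpotent M) :
    ∃ M : Subgroup (Q ⧸ derivedSeries Q (k + 1)), M.FiniteIndex ∧ Group.IsNilpotent M := by
  obtain ⟨N, hNdef⟩ : ∃ N, N = (derivedSeries Q k).subgroupOf H := ⟨_, rfl⟩
  subst hNdef
  set N := (derivedSeries Q k).subgroupOf H with hNd
  obtain ⟨M, hM, hMn⟩ := h
  obtain ⟨n, hn⟩ := (Subgroup.isNilpotent_iff_lowerCentralSeries M).1 hMn
  have h1 : (M.comap (QuotientGroup.mk' ⁅N, N⁆)).lowerCentralSeries n ≤ ⁅N, N⁆ := by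
    have h2 : ((M.comap (QuotientGroup.mk' ⁅N, N⁆)).lowerCentralSeries n).map
        (QuotientGroup.mk' ⁅N, N⁆) = ⊥ := by
      rw [Subgroup.map_lowerCentralSeries,
        Subgroup.map_comap_eq_self_of_surjective (QuotientGroup.mk'_surjective _), hn]
    rw [Subgroup.map_eq_bot_iff, QuotientGroup.ker_mk'] at h2
    exact h2
  have hNmap : N.map H.subtype = derivedSeries Q k := by
    rw [hNd, Subgroup.subgroupOf_map_subtype, inf_eq_left]
    exact hle
  have h3 : ((M.comap (QuotientGroup.mk' ⁅N, N⁆)).map H.subtype).lowerCentralSeries n ≤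
      derivedSeries Q (k + 1) := by
    rw [← Subgroup.map_lowerCentralSeries, derivedSeries_succ, ← hNmap, ← Subgroup.map_commutator]
    exact Subgroup.map_mono h1
  refine ⟨((M.comap (QuotientGroup.mk' ⁅N, N⁆)).map H.subtype).map
    (QuotientGroup.mk' (derivedSeries Q (k + 1))), ⟨?_⟩, ?_⟩
  · have h4 : ((M.comap (QuotientGroup.mk' ⁅N, N⁆)).map H.subtype).index ≠ 0 := by
      rw [Subgroup.index_map_subtype,
        Subgroup.index_comap_of_surjective _ (QuotientGroup.mk'_surjective _)]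
      exact mul_ne_zero hM.index_ne_zero hH
    intro h5
    apply h4
    have h6 := Subgroup.index_map_dvd ((M.comap (QuotientGroup.mk' ⁅N, N⁆)).map H.subtype)
      (QuotientGroup.mk'_surjective (derivedSeries Q (k + 1)))
    rw [h5] at h6
    exact Nat.eq_zero_of_zero_dvd h6
  · rw [Subgroup.isNilpotent_iff_lowerCentralSeries]
    refine ⟨n, ?_⟩
    rw [← Subgroup.map_lowerCentralSeries, Subgroup.map_eq_bot_iff, QuotientGroup.ker_mk']
    exact h3

end Pool.Agent.Helper94.AN
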